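import Mathlib
import Pool.Agent.W630.Stubs

open scoped Topology ContDiff Manifold
open Set MeasureTheory Metric

noncomputable section

namespace Pool.Agent.W63.G2

open Pool.Agent.W630

theorem fub (i : Fin 3) (f : P → ℝ) (hf : Continuous f) :
    ∫ x in Icc (0:P) 1, f x
      = ∫ y in Icc (0 : Fin 2 → ℝ) 1, ∫ t in (0:ℝ)..1, f (i.insertNth (α := fun _ => ℝ) t y) := by
  set e := MeasurableEquiv.piFinSuccAbove (fun _ : Fin 3 => ℝ) i with he
  have hm : MeasurePreserving e.symm :=
    (volume_preserving_piFinSuccAbove (fun _ : Fin 3 => ℝ) i).symm e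
  have happ : ∀ p : ℝ × (Fin 2 → ℝ), e.symm p = i.insertNth (α := fun _ => ℝ) p.1 p.2 := fun p => rfl
  have hpre : e.symm ⁻¹' (Icc (0:P) 1) = Icc (0:ℝ) 1 ×ˢ Icc (0 : Fin 2 → ℝ) 1 := by
    ext p
    simp only [mem_preimage, happ, mem_prod, mem_Icc]
    rw [Fin.le_insertNth_iff, Fin.insertNth_le_iff]
    constructor
    · rintro ⟨⟨a, b⟩, c, d⟩
      exact ⟨⟨a, c⟩, b, d⟩
    · rintro ⟨⟨a, c⟩, b, d⟩
      exact ⟨⟨a, b⟩, c, d⟩
  have hc : Continuous (fun p : ℝ × (Fin 2 → ℝ) => f (i.insertNth (α := fun _ => ℝ) p.1 p.2)) := by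
    apply hf.comp
    exact Continuous.finInsertNth i continuous_fst continuous_snd
  rw [← hm.setIntegral_preimage_emb e.symm.measurableEmbedding f, hpre]
  simp only [happ]
  rw [Measure.volume_eq_prod]
  rw [← Measure.prod_restrict]
  have hint : Integrable (fun p : ℝ × (Fin 2 → ℝ) => f (i.insertNth (α := fun _ => ℝ) p.1 p.2))
      ((volume.restrict (Icc (0:ℝ) 1)).prod (volume.restrict (Icc (0 : Fin 2 → ℝ) 1))) := by
    rw [Measure.prod_restrict, ← Measure.volume_eq_prod]
    exact hc.continuousOn.integrableOn_compact (isCompact_Icc.prod isCompact_Icc)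
  rw [integral_prod_symm _ hint]
  congr 1
  funext y
  rw [intervalIntegral.integral_of_le zero_le_one, integral_Icc_eq_integral_Ioc]

theorem shear (i : Fin 3) (f : P → ℝ) (hf : Continuous f)
    (hper : ∀ (t : ℝ) (y : Fin 2 → ℝ), f (i.insertNth (α := fun _ => ℝ) (t + 1) y)
      = f (i.insertNth (α := fun _ => ℝ) t y)) (g : P → ℝ) (hg : Continuous g)
    (c : (Fin 2 → ℝ) → ℝ)
    (hgf : ∀ (t : ℝ) (y : Fin 2 → ℝ), g (i.insertNth (α := fun _ => ℝ) t y)
      = f (i.insertNth (α := fun _ => ℝ) (t + c y) y)) :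
    ∫ x in Icc (0:P) 1, g x = ∫ x in Icc (0:P) 1, f x := by
  rw [fub i f hf, fub i g hg]
  congr 1
  funext y
  simp only [hgf]
  have hp : Function.Periodic (fun t => f (i.insertNth (α := fun _ => ℝ) t y)) 1 := fun t => hper t y
  have h1 := intervalIntegral.integral_comp_add_right
    (fun t => f (i.insertNth (α := fun _ => ℝ) t y)) (c y) (a := 0) (b := 1)
  rw [h1]
  have h2 := hp.intervalIntegral_add_eq (0 + c y) 0
  rw [show (1:ℝ) + c y = 0 + c y + 1 by ring, h2, zero_add]

theorem ins0 (t : ℝ) (y : Fin 2 → ℝ) : (0 : Fin 3).insertNth (α := fun _ => ℝ) t y = ![t, y 0, y 1] := by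
  funext j
  fin_cases j <;> rfl

theorem ins1 (t : ℝ) (y : Fin 2 → ℝ) : (1 : Fin 3).insertNth (α := fun _ => ℝ) t y = ![y 0, t, y 1] := by
  funext j
  fin_cases j <;> rfl

theorem main : S_G2 := by
  intro h hc h0 h1 hT
  -- the translate
  set k : P → ℝ := fun x => h (x + ![0,0,1]) with hk
  have hkc : Continuous k := hc.comp (continuous_id.add continuous_const)
  have hk0 : ∀ x, k (x + e₀) = k x := by
    intro x
    simp only [hk]
    rw [add_right_comm, h0]
  have hk1 : ∀ x, k (x + e₁) = k x := by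
    intro x
    simp only [hk]
    rw [add_right_comm, h1]
  set S : P → P := fun x => ![x 0 + x 1, x 1, x 2] with hS
  set S' : P → P := fun x => ![x 0, x 0 + x 1, x 2] with hS'
  have hSc : Continuous S := by
    refine continuous_pi fun j => ?_
    fin_cases j <;> simp [hS] <;> fun_prop
  have hSc' : Continuous S' := by
    refine continuous_pi fun j => ?_
    fin_cases j <;> simp [hS'] <;> fun_prop
  have A : ∫ x in Icc (0:P) 1, k (S x) = ∫ x in Icc (0:P) 1, k x := by
    refine shear 0 k hkc ?_ (fun x => k (S x)) (hkc.comp hSc) (fun y => y 0) ?_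
    · intro t y
      rw [ins0, ins0, ← hk0 ![t, y 0, y 1]]
      congr 1
      funext j
      fin_cases j <;> simp [e₀]
    · intro t y
      rw [ins0, ins0]
      simp [hS]
  have B : ∫ x in Icc (0:P) 1, k (S (S' x)) = ∫ x in Icc (0:P) 1, k (S x) := by
    refine shear 1 (fun x => k (S x)) (hkc.comp hSc) ?_ (fun x => k (S (S' x)))
      ((hkc.comp hSc).comp hSc') (fun y => y 0) ?_
    · intro t y
      rw [ins1, ins1]
      have : S ![y 0, t + 1, y 1] = S ![y 0, t, y 1] + e₀ + e₁ := by
        funext j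
        fin_cases j <;> simp [e₀, e₁, hS]
        ring
      simp only [this]
      rw [hk1, hk0]
    · intro t y
      rw [ins1, ins1]
      simp only [hS']
      congr 2
      funext j
      fin_cases j <;> simp
      ring
  have C : ∫ x in Icc (0:P) 1, h x = ∫ x in Icc (0:P) 1, k (S (S' x)) := by
    congr 1
    funext x
    rw [← hT x]
    simp only [hk]
    congr 1
    funext j
    fin_cases j <;> simp [hS, hS', T₁]
    ring
  have D : ∫ x in Icc (0:P) 1, k x = ∫ x in Icc (![0,0,1] : P) ![1,1,2], h x := by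
    have hm : MeasurePreserving (fun x : P => x + ![0,0,1]) := measurePreserving_add_right volume _
    have := hm.setIntegral_preimage_emb (measurableEmbedding_addRight _) h (Icc (![0,0,1] : P) ![1,1,2])
    rw [← this]
    congr 2
    ext x
    simp only [mem_preimage, mem_Icc, Pi.le_def, Fin.forall_fin_succ]
    simp
    intro _ _ _ _ _
    constructor <;> intro _ <;> linarith
  have E : (Icc (0 : P) ![1, 1, 2]) = Icc (0:P) 1 ∪ Icc (![0,0,1] : P) ![1,1,2] := by
    ext x
    simp only [mem_union, mem_Icc, Pi.le_def, Fin.forall_fin_succ]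
    simp
    constructor
    · rintro ⟨⟨a, b, c⟩, d, e, f⟩
      rcases le_total (x 2) 1 with h | h
      · left
        exact ⟨⟨a, b, c⟩, d, e, h⟩
      · right
        exact ⟨⟨a, b, h⟩, d, e, f⟩
    · rintro (⟨⟨a, b, c⟩, d, e, f⟩ | ⟨⟨a, b, c⟩, d, e, f⟩)
      · exact ⟨⟨a, b, c⟩, d, e, by linarith⟩
      · exact ⟨⟨a, b, by linarith⟩, d, e, f⟩
  have F : AEDisjoint volume (Icc (0:P) 1) (Icc (![0,0,1] : P) ![1,1,2]) := by
    have hsub : Icc (0:P) 1 ∩ Icc (![0,0,1] : P) ![1,1,2] ⊆ {x : P | x 2 = 1} := by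
      intro x hx
      have h1 := hx.1.2 2
      have h2 := hx.2.1 2
      simp at h1 h2
      exact le_antisymm h1 h2
    refine measure_mono_null hsub ?_
    have h3 : (volume : Measure P) (Set.pi univ (fun j : Fin 3 => if j = 2 then {(1:ℝ)} else univ)) = 0 := by
      rw [volume_pi_pi]
      apply Finset.prod_eq_zero (Finset.mem_univ 2)
      simp
    refine measure_mono_null ?_ h3
    intro x hx j _
    by_cases hj : j = 2
    · subst hj
      simpa using hx
    · simp [hj]
  rw [E, setIntegral_union₀ F measurableSet_Icc.nullMeasurableSet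
    (hc.continuousOn.integrableOn_compact isCompact_Icc)
    (hc.continuousOn.integrableOn_compact isCompact_Icc), ← D, ← A, ← B, ← C]
  ring

end Pool.Agent.W63.G2
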