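import Mathlib
import Pool.Agent.W630.Stubs

open scoped Topology ContDiff Manifold
open Set MeasureTheory Metric

noncomputable section

namespace Pool.Agent.W63.SH

open Pool.Agent.W630

/-- local structure near a regular point -/
theorem loc (O : Set P) (hO : IsOpen O) (f : P → P) (hf : ContDiffOn ℝ ∞ f O) (x : P) (hx : x ∈ O)
    (hdet : (fderiv ℝ f x).det ≠ 0) (W : Set P) (hW : W ∈ 𝓝 x) :
    ∃ N : Set P, IsOpen N ∧ x ∈ N ∧ N ⊆ W ∧ N ⊆ O ∧ InjOn f N ∧ f '' N ∈ 𝓝 (f x) ∧
      ∃ k : ℤ, ∀ y ∈ N, (fderiv ℝ f y).det = k * |(fderiv ℝ f y).det| := by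
  have hcd : ContDiffAt ℝ ∞ f x := hf.contDiffAt (hO.mem_nhds hx)
  have hs : HasStrictFDerivAt f
      (((fderiv ℝ f x).toContinuousLinearEquivOfDetNeZero hdet : P ≃L[ℝ] P) : P →L[ℝ] P) x := by
    rw [ContinuousLinearMap.coe_toContinuousLinearEquivOfDetNeZero]
    exact hcd.hasStrictFDerivAt (by simp)
  set e := hs.toOpenPartialHomeomorph f with he
  have hecoe : (e : P → P) = f := rfl
  have hxe : x ∈ e.source := hs.mem_toOpenPartialHomeomorph_source
  have hD : ContinuousOn (fun y => (fderiv ℝ f y).det) O :=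
    ContinuousLinearMap.continuous_det.comp_continuousOn
      (hf.continuousOn_fderiv_of_isOpen hO (by simp))
  rcases lt_or_gt_of_ne hdet with h | h
  · refine ⟨e.source ∩ interior W ∩ (O ∩ (fun y => (fderiv ℝ f y).det) ⁻¹' Iio 0),
      (e.open_source.inter isOpen_interior).inter (hD.isOpen_inter_preimage hO isOpen_Iio), 
      ⟨⟨hxe, mem_interior_iff_mem_nhds.2 hW⟩, hx, h⟩,
      fun y hy => interior_subset hy.1.2, fun y hy => hy.2.1, 
      fun y hy z hz hyz => e.injOn hy.1.1 hz.1.1 hyz, ?_, -1, ?_⟩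
    · refine IsOpen.mem_nhds (e.isOpen_image_of_subset_source
        ((e.open_source.inter isOpen_interior).inter (hD.isOpen_inter_preimage hO isOpen_Iio))
        (fun y hy => hy.1.1)) ?_
      exact mem_image_of_mem _ ⟨⟨hxe, mem_interior_iff_mem_nhds.2 hW⟩, hx, h⟩
    · intro y hy
      have : (fderiv ℝ f y).det < 0 := hy.2.2
      rw [abs_of_neg this]
      push_cast
      ring
  · refine ⟨e.source ∩ interior W ∩ (O ∩ (fun y => (fderiv ℝ f y).det) ⁻¹' Ioi 0),
      (e.open_source.inter isOpen_interior).inter (hD.isOpen_inter_preimage hO isOpen_Ioi), 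
      ⟨⟨hxe, mem_interior_iff_mem_nhds.2 hW⟩, hx, h⟩,
      fun y hy => interior_subset hy.1.2, fun y hy => hy.2.1, 
      fun y hy z hz hyz => e.injOn hy.1.1 hz.1.1 hyz, ?_, 1, ?_⟩
    · refine IsOpen.mem_nhds (e.isOpen_image_of_subset_source
        ((e.open_source.inter isOpen_interior).inter (hD.isOpen_inter_preimage hO isOpen_Ioi))
        (fun y hy => hy.1.1)) ?_
      exact mem_image_of_mem _ ⟨⟨hxe, mem_interior_iff_mem_nhds.2 hW⟩, hx, h⟩
    · intro y hy
      have : 0 < (fderiv ℝ f y).det := hy.2.2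
      rw [abs_of_pos this]
      push_cast
      ring

theorem main : S_H := by
  intro O hO f hf u ε hε hcl
  set Q : Set P := Icc (0:P) 1 with hQ
  have hfd : DifferentiableOn ℝ f O := hf.differentiableOn (by simp)
  have hfdAt : ∀ x ∈ O, HasFDerivAt f (fderiv ℝ f x) x := fun x hx =>
    (hfd.differentiableAt (hO.mem_nhds hx)).hasFDerivAt
  -- null sets
  have hn1 : (volume : Measure P) (f '' (O ∩ frontier Q)) = 0 := by
    refine addHaar_image_eq_zero_of_differentiableOn_of_addHaar_eq_zero volume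
      (hfd.mono inter_subset_left) (measure_mono_null inter_subset_right ?_)
    exact (convex_Icc (0:P) 1).addHaar_frontier volume
  have hn2 : (volume : Measure P) (f '' {x | x ∈ O ∧ (fderiv ℝ f x).det = 0}) = 0 := by
    refine addHaar_image_eq_zero_of_det_fderivWithin_eq_zero volume
      (fun x hx => (hfdAt x hx.1).hasFDerivWithinAt) (fun x hx => hx.2)
  obtain ⟨u', hu', hu'1, hu'2⟩ : ∃ u' ∈ ball u ε, u' ∉ f '' (O ∩ frontier Q) ∧
      u' ∉ f '' {x | x ∈ O ∧ (fderiv ℝ f x).det = 0} := by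
    by_contra hcon
    push Not at hcon
    have hsub : ball u ε ⊆ f '' (O ∩ frontier Q) ∪ f '' {x | x ∈ O ∧ (fderiv ℝ f x).det = 0} := by
      intro v hv
      by_cases h : v ∈ f '' (O ∩ frontier Q)
      · exact Or.inl h
      · exact Or.inr (hcon v hv h)
    have h0 : (volume : Measure P) (ball u ε) = 0 :=
      measure_mono_null hsub (measure_union_null hn1 hn2)
    exact (measure_ball_pos volume u hε).ne' h0
  -- the compact sets
  set C : Set P := {x | x ∈ O ∧ f x ∈ closedBall u ε} with hC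
  have hKc : IsCompact (C ∩ Q) := isCompact_Icc.inter_left hcl
  have hfC : ContinuousOn f C := hfd.continuousOn.mono (fun x hx => hx.1)
  set A : Set P := (C ∩ f ⁻¹' {u'}) ∩ Q with hA
  have hAc : IsCompact A := isCompact_Icc.inter_left
    (hfC.preimage_isClosed_of_isClosed hcl isClosed_singleton)
  have hAreg : ∀ x ∈ A, (fderiv ℝ f x).det ≠ 0 := by
    intro x hx h0
    exact hu'2 ⟨x, ⟨hx.1.1.1, h0⟩, hx.1.2⟩
  have hAint : ∀ x ∈ A, x ∈ interior Q := by
    intro x hx
    by_contra h0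
    have hclQ : IsClosed Q := isClosed_Icc
    have : x ∈ frontier Q := by
      rw [hclQ.frontier_eq]
      exact ⟨hx.2, h0⟩
    exact hu'1 ⟨x, ⟨hx.1.1.1, this⟩, hx.1.2⟩
  have hAfin : A.Finite := by
    have hch : ∀ x ∈ A, ∃ N : Set P, N ∈ 𝓝 x ∧ InjOn f N := by
      intro x hx
      obtain ⟨N, h1, h2, h3, h4, h5, h6, h7⟩ := loc O hO f hf x hx.1.1.1 (hAreg x hx) univ Filter.univ_mem
      exact ⟨N, h1.mem_nhds h2, h5⟩
    choose! N hN hN' using hch
    obtain ⟨t, ht, hcov⟩ := hAc.elim_nhds_subcover N hN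
    refine Set.Finite.subset t.finite_toSet ?_
    intro y hy
    have := hcov hy
    simp only [mem_iUnion] at this
    obtain ⟨x, hxt, hyN⟩ := this
    have hxA : x ∈ A := ht x hxt
    have : y = x := hN' x hxA hyN (mem_of_mem_nhds (hN x hxA)) (by rw [hy.1.2, hxA.1.2])
    rw [this]
    exact hxt
  obtain ⟨U, hU, hUd⟩ := hAfin.t2_separation
  have hch : ∀ x ∈ A, ∃ N : Set P, IsOpen N ∧ x ∈ N ∧ N ⊆ U x ∩ interior Q ∧ N ⊆ O ∧ InjOn f N ∧
      f '' N ∈ 𝓝 (f x) ∧ ∃ k : ℤ, ∀ y ∈ N, (fderiv ℝ f y).det = k * |(fderiv ℝ f y).det| := by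
    intro x hx
    exact loc O hO f hf x hx.1.1.1 (hAreg x hx) _
      (((hU x).2.inter isOpen_interior).mem_nhds ⟨(hU x).1, hAint x hx⟩)
  choose! N hNo hxN hNU hNO hNinj hNim k hk using hch
  -- the rest
  have hK' : IsCompact ((C ∩ Q) \ ⋃ x ∈ A, N x) :=
    hKc.diff (isOpen_biUnion hNo)
  have hfK' : IsCompact (f '' ((C ∩ Q) \ ⋃ x ∈ A, N x)) :=
    hK'.image_of_continuousOn (hfC.mono (fun x hx => hx.1.1))
  have hu'K : u' ∉ f '' ((C ∩ Q) \ ⋃ x ∈ A, N x) := by
    rintro ⟨y, ⟨hy1, hy2⟩, hy3⟩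
    apply hy2
    have hyA : y ∈ A := ⟨⟨hy1.1, hy3⟩, hy1.2⟩
    exact mem_biUnion hyA (hxN y hyA)
  have hG : ball u ε ∩ (f '' ((C ∩ Q) \ ⋃ x ∈ A, N x))ᶜ ∩ ⋂ x ∈ A, f '' N x ∈ 𝓝 u' := by
    refine Filter.inter_mem (Filter.inter_mem (isOpen_ball.mem_nhds hu')
      (hfK'.isClosed.isOpen_compl.mem_nhds hu'K)) ?_
    rw [Filter.biInter_mem hAfin]
    intro x hx
    have := hNim x hx
    rwa [hx.1.2] at this
  obtain ⟨ε', hε', hsub⟩ := (Metric.nhds_basis_closedBall.mem_iff).1 hG
  refine ⟨u', ε', hε', fun v hv => (hsub hv).1.1, ?_⟩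
  intro χ hχc hχs hχi
  have hχ0 : ∀ v, v ∉ closedBall u' ε' → χ v = 0 := by
    intro v hv
    by_contra h
    exact hv (hχs (subset_tsupport χ h))
  have hstep1 : ∫ x in Q ∩ O, χ (f x) * (fderiv ℝ f x).det
      = ∫ x in ⋃ x ∈ hAfin.toFinset, N x, χ (f x) * (fderiv ℝ f x).det := by
    refine setIntegral_eq_of_subset_of_forall_sdiff_eq_zero
      (measurableSet_Icc.inter hO.measurableSet) ?_ ?_
    · intro y hy
      simp only [mem_iUnion, Set.Finite.mem_toFinset] at hy
      obtain ⟨x, hx, hy⟩ := hy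
      exact ⟨interior_subset (hNU x hx hy).2, hNO x hx hy⟩
    · intro y hy
      by_cases h : f y ∈ closedBall u' ε'
      · exfalso
        have h1 := hsub h
        apply h1.1.2
        refine ⟨y, ⟨⟨⟨hy.1.2, ball_subset_closedBall h1.1.1⟩, hy.1.1⟩, ?_⟩, rfl⟩
        intro hcon
        apply hy.2
        simpa using hcon
      · rw [hχ0 _ h, zero_mul]
  have hpiece : ∀ x ∈ A, IntegrableOn (fun y => χ (f y) * (fderiv ℝ f y).det) (N x) ∧
      ∫ y in N x, χ (f y) * (fderiv ℝ f y).det = k x := by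
    intro x hx
    have hd : ∀ y ∈ N x, HasFDerivWithinAt f (fderiv ℝ f y) (N x) y := fun y hy =>
      (hfdAt y (hNO x hx hy)).hasFDerivWithinAt
    have hm : MeasurableSet (N x) := (hNo x hx).measurableSet
    have hcongr : ∀ y ∈ N x, χ (f y) * (fderiv ℝ f y).det
        = (k x : ℝ) * (|(fderiv ℝ f y).det| • χ (f y)) := by
      intro y hy
      have := hk x hx y hy
      rw [smul_eq_mul]
      calc χ (f y) * (fderiv ℝ f y).det = χ (f y) * (k x * |(fderiv ℝ f y).det|) := by rw [← this]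
        _ = _ := by ring
    have hχint : Integrable χ := by
      refine hχc.integrable_of_hasCompactSupport ?_
      exact HasCompactSupport.of_support_subset_isCompact (isCompact_closedBall u' ε')
        ((subset_tsupport χ).trans hχs)
    have hin := (integrableOn_image_iff_integrableOn_abs_det_fderiv_smul volume hm hd
      (hNinj x hx) χ).1 hχint.integrableOn
    constructor
    · refine (integrableOn_congr_fun hcongr hm).2 ?_
      exact hin.const_mul _
    · rw [setIntegral_congr_fun hm hcongr, integral_const_mul,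
        ← integral_image_eq_integral_abs_det_fderiv_smul volume hm hd (hNinj x hx) χ]
      have : ∫ v in f '' N x, χ v = 1 := by
        rw [setIntegral_eq_integral_of_forall_compl_eq_zero, hχi]
        intro v hv
        apply hχ0
        intro hvb
        apply hv
        have := (hsub hvb).2
        simp only [mem_iInter] at this
        exact this x hx
      rw [this, mul_one]
  refine ⟨∑ x ∈ hAfin.toFinset, k x, ?_⟩
  rw [hstep1, integral_biUnion_finset]
  · push_cast
    refine Finset.sum_congr rfl ?_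
    intro x hx
    exact (hpiece x (hAfin.mem_toFinset.1 hx)).2
  · intro x hx
    exact (hNo x (hAfin.mem_toFinset.1 hx)).measurableSet
  · intro x hx y hy hxy
    have hx' : x ∈ A := by simpa using hx
    have hy' : y ∈ A := by simpa using hy
    exact (hUd hx' hy' hxy).mono (fun z hz => (hNU x hx' hz).1) (fun z hz => (hNU y hy' hz).1)
  · intro x hx
    exact (hpiece x (hAfin.mem_toFinset.1 hx)).1

end Pool.Agent.W63.SH
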