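import Mathlib
import Pool.Agent.W757.RD.St4
import Pool.Agent.H790R3.RB.TWR
import Pool.Agent.H790R3.RB.TPOLY
import Pool.Agent.H790R3.RB.TGEN

/-! Task GENX of the project RD: genericity in the universal family of rational maps which fix
infinity. Adapted from `Pool.Agent.H790R3.RB.TGEN`. -/

set_option autoImplicit false

open Topology Filter Metric Set MeasureTheory

open Pool.Agent.H790R3.RB (CV hF cr ND wr rt Ix yx yc StPOLY POLY StWR WR hF_smul hF_iter_smul
  hF_iter_continuous hF_iter_differentiable wr_contDiff cr_trans cr_comm cr_self cr_iter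
  cr_smul_left cr_smul_right)

namespace Pool.Agent.W63.REGENX

open Pool.Agent.W757.RD
open Pool.Agent.H790R3.RB.GEN (ip ip_eq diff_coeff sum_pick sum_pick2)
open Polynomial

noncomputable section

theorem dense_ne {V : Type} [NormedAddCommGroup V] [NormedSpace ℂ V] {D : V → ℂ}
    (hD : Differentiable ℂ D) {x₁ : V} (h1 : D x₁ ≠ 0) : Dense {x | D x ≠ 0} := by
  intro x₀
  rw [mem_closure_iff_frequently]
  intro hev
  have hev : ∀ᶠ x in 𝓝 x₀, D x = 0 := by
    filter_upwards [hev] with x hx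
    by_contra h; exact hx h
  set l : ℂ → V := fun s => x₀ + s • (x₁ - x₀) with hl
  have hld : Differentiable ℂ l := by
    rw [hl]
    exact (differentiable_const _).add (differentiable_id.smul_const _)
  have hg : Differentiable ℂ (fun s => D (l s)) := hD.comp hld
  have hga : AnalyticOnNhd ℂ (fun s => D (l s)) Set.univ :=
    (hg.differentiableOn).analyticOnNhd isOpen_univ
  have h0 : (fun s => D (l s)) =ᶠ[𝓝 0] 0 := by
    have : Tendsto l (𝓝 0) (𝓝 x₀) := by
      have h := hld.continuous.tendsto 0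
      simpa [hl] using h
    exact this.eventually hev
  have h2 := hga.eq_of_eventuallyEq (analyticOnNhd_const (v := (0 : ℂ))) (z₀ := 0) h0
  have h3 := congrFun h2 1
  apply h1
  simpa [hl] using h3

/-- test map with simple critical points: `(z ^ d + z) / (z ^ (d - 1) + 2)` -/
def xA (d : ℕ) : CV d := fun p =>
  if p.1 = 0 then (if (p.2 : ℕ) = d then 1 else 0) + (if (p.2 : ℕ) = 1 then 1 else 0)
  else (if (p.2 : ℕ) = 0 then 2 else 0) + (if (p.2 : ℕ) = d - 1 then 1 else 0)

/-- test map whose critical points are not periodic: `(z ^ d + 1) / z ^ (d - 1)` -/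
def xB (d : ℕ) : CV d := fun p =>
  if p.1 = 0 then (if (p.2 : ℕ) = d then 1 else 0) + (if (p.2 : ℕ) = 0 then 1 else 0)
  else (if (p.2 : ℕ) = d - 1 then 1 else 0)

theorem nrm_xA {d : ℕ} (hd : 2 ≤ d) : Nrm (xA d) := by
  have h1 : ¬ (d = 1) := by omega
  have h2 : ¬ (d = 0) := by omega
  have h3 : ¬ (d = d - 1) := by omega
  constructor
  · simp [xA, h1]
  · simp only [xA, Fin.val_last, one_ne_zero, if_false, h2, h3, add_zero]

theorem nrm_xB {d : ℕ} (hd : 2 ≤ d) : Nrm (xB d) := by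
  have h2 : ¬ (d = 0) := by omega
  have h3 : ¬ (d = d - 1) := by omega
  constructor
  · simp [xB, h2]
  · simp only [xB, Fin.val_last, one_ne_zero, if_false, h3]

theorem wr_xA {d : ℕ} (hd : 2 ≤ d) (ζ : ℂ) : wr (xA d) (ζ, 1) =
    (d : ℂ) * ζ ^ (2 * d - 2) + (d : ℂ) * (d + 2) * ζ ^ (d - 1) + 2 * (d : ℂ) := by
  unfold wr
  simp only [xA, one_ne_zero, if_true, if_false, one_pow, mul_one]
  rw [sum_pick2 (le_refl d) (by omega) 1 1 (fun j => (j : ℂ) * ζ ^ (j - 1)),
    sum_pick2 (Nat.zero_le d) (by omega) 2 1 (fun j => ((d - j : ℕ) : ℂ) * ζ ^ j),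
    sum_pick2 (le_refl d) (by omega) 1 1 (fun j => ((d - j : ℕ) : ℂ) * ζ ^ j),
    sum_pick2 (Nat.zero_le d) (by omega) 2 1 (fun j => (j : ℂ) * ζ ^ (j - 1))]
  obtain ⟨e, rfl⟩ : ∃ e, d = e + 2 := ⟨d - 2, by omega⟩
  have h1 : e + 2 - (e + 2 - 1) = 1 := by omega
  have h2 : e + 2 - 1 = e + 1 := by omega
  have h3 : 2 * (e + 2) - 2 = (e + 1) + (e + 1) := by omega
  have h4 : e + 1 - 1 = e := by omega
  have h5 : e + 2 - 0 = e + 2 := by omega
  have h6 : e + 2 - (e + 1) = 1 := by omega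
  simp only [h2, h3, h4, h5, h6, Nat.sub_self, Nat.cast_zero, Nat.cast_one, pow_zero]
  push_cast
  rw [pow_add]
  ring

theorem wr_xB {d : ℕ} (hd : 2 ≤ d) (ζ : ℂ) : wr (xB d) (ζ, 1) =
    (d : ℂ) * ζ ^ (2 * d - 2) - (d : ℂ) * (d - 1) * ζ ^ (d - 2) := by
  unfold wr
  simp only [xB, one_ne_zero, if_true, if_false, one_pow, mul_one]
  rw [sum_pick2 (le_refl d) (by omega) 1 1 (fun j => (j : ℂ) * ζ ^ (j - 1)),
    sum_pick (by omega : d - 1 ≤ d) 1 (fun j => ((d - j : ℕ) : ℂ) * ζ ^ j),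
    sum_pick2 (le_refl d) (by omega) 1 1 (fun j => ((d - j : ℕ) : ℂ) * ζ ^ j),
    sum_pick (by omega : d - 1 ≤ d) 1 (fun j => (j : ℂ) * ζ ^ (j - 1))]
  obtain ⟨e, rfl⟩ : ∃ e, d = e + 2 := ⟨d - 2, by omega⟩
  have h1 : e + 2 - (e + 2 - 1) = 1 := by omega
  have h2 : e + 2 - 1 = e + 1 := by omega
  have h3 : 2 * (e + 2) - 2 = (e + 1) + (e + 1) := by omega
  have h4 : e + 1 - 1 = e := by omega
  have h5 : e + 2 - 0 = e + 2 := by omega
  have h6 : e + 2 - (e + 1) = 1 := by omega
  have h7 : e + 2 - 2 = e := by omega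
  simp only [h2, h3, h4, h5, h6, h7, Nat.sub_self, Nat.cast_zero, Nat.cast_one, pow_zero]
  push_cast
  rw [pow_add]
  ring

theorem hF_xB {d : ℕ} (hd : 2 ≤ d) (a b : ℂ) : hF (xB d) (a, b) = (a ^ d + b ^ d, a ^ (d - 1) * b) := by
  unfold hF
  simp only [xB, one_ne_zero, if_true, if_false]
  rw [sum_pick2 (le_refl d) (Nat.zero_le d) 1 1 (fun j => a ^ j * b ^ (d - j)),
    sum_pick (by omega : d - 1 ≤ d) 1 (fun j => a ^ j * b ^ (d - j))]
  have h1 : d - (d - 1) = 1 := by omega
  simp [h1]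

theorem iter_xB_inf {d : ℕ} (hd : 2 ≤ d) (q : ℕ) : (hF (xB d))^[q] (1, 0) = (1, 0) := by
  induction q with
  | zero => rfl
  | succ q ih =>
    have h1 : d ≠ 0 := by omega
    rw [Function.iterate_succ_apply', ih, hF_xB hd]
    simp [h1]

theorem iter_xB_zero {d : ℕ} (hd : 2 ≤ d) {q : ℕ} (hq : 1 ≤ q) :
    (hF (xB d))^[q] (0, 1) = (1, 0) := by
  obtain ⟨e, rfl⟩ : ∃ e, q = e + 1 := ⟨q - 1, by omega⟩
  have h1 : d ≠ 0 := by omega
  have h2 : d - 1 ≠ 0 := by omega
  rw [Function.iterate_succ_apply, hF_xB hd]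
  simp only [ne_eq, h1, not_false_eq_true, zero_pow, one_pow, zero_add, h2, zero_mul]
  exact iter_xB_inf hd e

theorem iter_xB {d : ℕ} (hd : 2 ≤ d) (ζ : ℂ) (hζ : ζ ^ d = (d : ℂ) - 1) (q : ℕ) :
    ∃ (c : ℂ) (t : ℝ), c ≠ 0 ∧ 1 ≤ t ∧ (1 ≤ q → 1 < t) ∧
      (hF (xB d))^[q] (ζ, 1) = c • ((ζ * (t : ℂ), (1 : ℂ)) : ℂ × ℂ) := by
  have hd1 : (0 : ℝ) < (d : ℝ) - 1 := by
    have : (2 : ℝ) ≤ d := by exact_mod_cast hd
    linarith
  have hζ0 : ζ ≠ 0 := by
    intro h
    rw [h, zero_pow (by omega : d ≠ 0)] at hζ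
    have : ((d : ℝ) - 1 : ℝ) = 0 := by
      have h2 : (((d : ℝ) - 1 : ℝ) : ℂ) = 0 := by push_cast; exact hζ.symm
      exact Complex.ofReal_eq_zero.mp h2
    linarith
  induction q with
  | zero =>
    refine ⟨1, 1, one_ne_zero, le_refl _, fun h => by omega, ?_⟩
    simp
  | succ q ih =>
    obtain ⟨c, t, hc, ht, -, h⟩ := ih
    have ht0 : (0 : ℝ) < t := by linarith
    have htc : (t : ℂ) ≠ 0 := Complex.ofReal_ne_zero.mpr ht0.ne'
    refine ⟨c ^ d * (ζ * (t : ℂ)) ^ (d - 1), t + 1 / (((d : ℝ) - 1) * t ^ (d - 1)), ?_, ?_, ?_, ?_⟩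
    · exact mul_ne_zero (pow_ne_zero _ hc) (pow_ne_zero _ (mul_ne_zero hζ0 htc))
    · have : 0 < 1 / (((d : ℝ) - 1) * t ^ (d - 1)) := by positivity
      linarith
    · intro _
      have : 0 < 1 / (((d : ℝ) - 1) * t ^ (d - 1)) := by positivity
      linarith
    · rw [Function.iterate_succ_apply', h, hF_smul, hF_xB hd]
      have hdd : ζ ^ d = ζ ^ (d - 1) * ζ := by
        rw [← pow_succ]; congr 1; omega
      have hcd : (d : ℂ) - 1 ≠ 0 := by rw [← hζ]; exact pow_ne_zero _ hζ0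
      have htd : (t : ℂ) ^ d = (t : ℂ) ^ (d - 1) * t := by
        rw [← pow_succ]; congr 1; omega
      ext
      · simp only [Prod.smul_fst, smul_eq_mul, one_pow]
        push_cast
        rw [mul_pow, mul_pow, htd]
        have h3 : ζ ^ (d - 1) * ζ = (d : ℂ) - 1 := by rw [← hdd, hζ]
        have htp : (t : ℂ) ^ (d - 1) ≠ 0 := pow_ne_zero _ htc
        have h4 : (ζ ^ (d - 1) * (t : ℂ) ^ (d - 1)) * (ζ * ((t : ℂ) + 1 / (((d : ℂ) - 1) *
            (t : ℂ) ^ (d - 1)))) = (ζ ^ (d - 1) * ζ) * ((t : ℂ) ^ (d - 1) * t) + 1 := by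
          have h5 : (ζ ^ (d - 1) * (t : ℂ) ^ (d - 1)) * (ζ * ((t : ℂ) + 1 / (((d : ℂ) - 1) *
            (t : ℂ) ^ (d - 1)))) = (ζ ^ (d - 1) * ζ) * ((t : ℂ) ^ (d - 1) * t) +
              (ζ ^ (d - 1) * ζ) * (1 / ((d : ℂ) - 1)) := by
            field_simp
          rw [h5, h3]
          field_simp
        rw [mul_assoc (c ^ d), h4, ← hdd]
      · simp only [Prod.smul_snd, smul_eq_mul, mul_one]

end

open Pool.Agent.H790R3.RB in
theorem task (hFM : StFM) : StGENX := by
  intro d u₀ q hd hq ε hε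
  have hPOLY : StPOLY := POLY
  have hWR : StWR := WR
  obtain ⟨-, hfd, hfn, hfN, hfs⟩ := hFM d hd
  -- the polynomials
  set W : CV d → ℂ[X] := fun x => ip (2 * d - 2) (fun ζ => wr x (ζ, 1)) with hWdef
  set E : CV d → ℂ[X] := fun x =>
    ip (d ^ q + 1) (fun ζ => cr ((hF x)^[q] (ζ, 1)) (ζ, 1)) with hEdef
  have hW : ∀ x, (W x).natDegree ≤ 2 * d - 2 ∧ (∀ ζ, (W x).eval ζ = wr x (ζ, 1)) ∧
      (W x).coeff (2 * d - 2) = wr x (1, 0) := by
    intro x
    obtain ⟨-, ⟨V, hV1, hV2, hV3⟩, -⟩ := hWR d x hd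
    have : W x = V := ip_eq hV1 hV2
    rw [this]
    exact ⟨hV1, hV2, hV3⟩
  have hE : ∀ x, (E x).natDegree ≤ d ^ q + 1 ∧
      (∀ ζ, (E x).eval ζ = cr ((hF x)^[q] (ζ, 1)) (ζ, 1)) := by
    intro x
    obtain ⟨A, B, hA, hB, hA1, hB1, hA2, hB2⟩ := hPOLY d x q (by omega)
    have h1 : (A - X * B).natDegree ≤ d ^ q + 1 := by
      apply (natDegree_sub_le _ _).trans
      apply max_le (by omega)
      apply (natDegree_mul_le).trans
      have := natDegree_X_le (R := ℂ)
      omega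
    have h2 : ∀ ζ, (A - X * B).eval ζ = cr ((hF x)^[q] (ζ, 1)) (ζ, 1) := by
      intro ζ
      rw [eval_sub, eval_mul, eval_X, hA1, hB1]
      unfold cr
      ring
    have : E x = A - X * B := ip_eq h1 h2
    rw [this]
    exact ⟨h1, h2⟩
  have hWd : ∀ k, Differentiable ℂ (fun x => (W x).coeff k) := by
    intro k
    apply diff_coeff
    intro ζ
    have h := (wr_contDiff d 1).differentiable (by norm_num)
    exact Differentiable.comp (g := fun q : CV d × (ℂ × ℂ) => wr q.1 q.2)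
      (f := fun x : CV d => ((x, ((ζ, 1) : ℂ × ℂ)) : CV d × (ℂ × ℂ))) h
      (differentiable_id.prodMk (differentiable_const _))
  have hEd : ∀ k, Differentiable ℂ (fun x => (E x).coeff k) := by
    intro k
    apply diff_coeff
    intro ζ
    have h := hF_iter_differentiable d q
    have h2 : Differentiable ℂ (fun x : CV d => (hF x)^[q] (ζ, 1)) :=
      Differentiable.comp (g := fun q' : CV d × (ℂ × ℂ) => (hF q'.1)^[q] q'.2)
        (f := fun x : CV d => ((x, ((ζ, 1) : ℂ × ℂ)) : CV d × (ℂ × ℂ))) h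
        (differentiable_id.prodMk (differentiable_const _))
    unfold cr
    exact (h2.fst.mul (differentiable_const _)).sub (h2.snd.mul (differentiable_const _))
  -- the three functions
  set D1 : CV d → ℂ := fun x => (W x).coeff (2 * d - 2) with hD1
  set D2 : CV d → ℂ := fun x => resultant (W x) (derivative (W x)) (2 * d - 2) (2 * d - 3) with hD2
  set D3 : CV d → ℂ := fun x => resultant (W x) (E x) (2 * d - 2) (d ^ q + 1) with hD3
  have hdif1 : Differentiable ℂ D1 := hWd _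
  have hdif2 : Differentiable ℂ D2 := by
    apply GEN.diff_res _ _ hWd
    intro k
    simp only [coeff_derivative]
    exact (hWd _).mul_const _
  have hdif3 : Differentiable ℂ D3 := GEN.diff_res _ _ hWd hEd
  -- the first test map
  have hd0 : (d : ℂ) ≠ 0 := by
    have : d ≠ 0 := by omega
    exact_mod_cast this
  set P2 : ℂ[X] := C (d : ℂ) * X ^ (2 * d - 2) +
    C ((d : ℂ) * (d + 2)) * X ^ (d - 1) + C (2 * (d : ℂ)) with hP2
  have hP2n : P2.natDegree ≤ 2 * d - 2 := by
    rw [hP2]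
    apply (natDegree_add_le _ _).trans
    apply max_le
    · apply (natDegree_add_le _ _).trans
      apply max_le
      · exact natDegree_C_mul_X_pow_le _ _
      · exact (natDegree_C_mul_X_pow_le _ _).trans (by omega)
    · rw [natDegree_C]; exact Nat.zero_le _
  have hW2 : W (xA d) = P2 := by
    apply ip_eq hP2n
    intro ζ
    rw [wr_xA hd, hP2]
    simp
  have hP2c : P2.coeff (2 * d - 2) = (d : ℂ) := by
    rw [hP2]
    simp only [coeff_add, coeff_C_mul, coeff_X_pow, coeff_C]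
    have h1 : ¬ (2 * d - 2 = d - 1) := by omega
    have h2 : ¬ (2 * d - 2 = 0) := by omega
    simp [h1, h2]
  have hP2c0 : P2.coeff (2 * d - 2) ≠ 0 := by
    rw [hP2c]; exact hd0
  have hP2d : P2.natDegree = 2 * d - 2 := le_antisymm hP2n (le_natDegree_of_ne_zero hP2c0)
  have hD1ne : D1 (xA d) ≠ 0 := by
    simp only [hD1]
    rw [hW2]; exact hP2c0
  have hcop2 : IsCoprime P2 (derivative P2) := by
    rw [Polynomial.isCoprime_iff_aeval_ne_zero_of_isAlgClosed ℂ ℂ]
    intro a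
    by_contra hcon
    push Not at hcon
    obtain ⟨h1, h2⟩ := hcon
    have e1 : (d : ℂ) * a ^ (2 * d - 2) + (d : ℂ) * (d + 2) * a ^ (d - 1) +
        2 * (d : ℂ) = 0 := by
      have : aeval a P2 = (d : ℂ) * a ^ (2 * d - 2) +
          (d : ℂ) * (d + 2) * a ^ (d - 1) + 2 * (d : ℂ) := by
        rw [hP2]; simp
      rw [← this]; exact h1
    have e2 : (d : ℂ) * (((2 * d - 2 : ℕ) : ℂ) * a ^ (2 * d - 2 - 1)) +
        (d : ℂ) * (d + 2) * (((d - 1 : ℕ) : ℂ) * a ^ (d - 1 - 1)) = 0 := by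
      have : aeval a (derivative P2) = (d : ℂ) * (((2 * d - 2 : ℕ) : ℂ) * a ^ (2 * d - 2 - 1)) +
        (d : ℂ) * (d + 2) * (((d - 1 : ℕ) : ℂ) * a ^ (d - 1 - 1)) := by
        have hder : derivative P2 = C (d : ℂ) * (C ((2 * d - 2 : ℕ) : ℂ) * X ^ (2 * d - 2 - 1)) +
            C ((d : ℂ) * (d + 2)) * (C ((d - 1 : ℕ) : ℂ) * X ^ (d - 1 - 1)) := by
          rw [hP2, derivative_add, derivative_add, derivative_C_mul, derivative_C_mul,
            derivative_X_pow, derivative_X_pow, derivative_C, add_zero]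
        rw [hder]
        simp only [map_add, map_mul, aeval_C, map_pow, aeval_X, Algebra.algebraMap_self,
          RingHom.id_apply]
      rw [← this]; exact h2
    obtain ⟨e, rfl⟩ : ∃ e, d = e + 2 := ⟨d - 2, by omega⟩
    have i1 : 2 * (e + 2) - 2 = (e + 1) + (e + 1) := by omega
    have i2 : 2 * (e + 2) - 2 - 1 = (e + 1) + e := by omega
    have i3 : e + 2 - 1 = e + 1 := by omega
    have i4 : e + 2 - 1 - 1 = e := by omega
    rw [i1, i3, pow_add] at e1
    rw [i2, i4, i1, i3, pow_add] at e2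
    set t := a ^ (e + 1) with ht
    set u := a ^ e with hu
    have ht2 : t = u * a := by rw [ht, hu, pow_succ]
    -- u ≠ 0
    have hu0 : u ≠ 0 := by
      intro h0
      rw [h0, zero_mul] at ht2
      rw [ht2] at e1
      simp only [mul_zero, zero_add] at e1
      exact mul_ne_zero two_ne_zero hd0 e1
    have he1 : ((e : ℂ) + 1) ≠ 0 := by exact_mod_cast Nat.succ_ne_zero e
    push_cast at e1 e2 hd0
    have e3 : 2 * t + ((e : ℂ) + 4) = 0 := by
      have : ((e : ℂ) + 2) * ((e : ℂ) + 1) * u * (2 * t + ((e : ℂ) + 4)) = 0 := by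
        linear_combination e2
      rcases mul_eq_zero.mp this with h | h
      · exfalso
        exact mul_ne_zero (mul_ne_zero hd0 he1) hu0 h
      · exact h
    have e4 : t = -(((e : ℂ) + 4) / 2) := by linear_combination e3 / 2
    rw [e4] at e1
    have e5 : ((e : ℂ) + 2) * (8 - ((e : ℂ) + 4) ^ 2) = 0 := by
      linear_combination 4 * e1
    have e6 : 8 - ((e : ℂ) + 4) ^ 2 = 0 :=
      (mul_eq_zero.mp e5).resolve_left hd0
    have e7 : (8 : ℝ) - ((e : ℝ) + 4) ^ 2 = 0 := by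
      have h : ((8 - ((e : ℝ) + 4) ^ 2 : ℝ) : ℂ) = 0 := by
        push_cast; exact e6
      exact Complex.ofReal_eq_zero.mp h
    have he0 : (0 : ℝ) ≤ e := Nat.cast_nonneg e
    nlinarith
  have hD2ne : D2 (xA d) ≠ 0 := by
    have h1 := resultant_ne_zero P2 (derivative P2) hcop2
    have h2 : (derivative P2).natDegree = 2 * d - 3 := by
      rw [natDegree_eq_of_degree_eq_some (degree_derivative_eq P2 (by omega)), hP2d]
      omega
    rw [hP2d, h2] at h1
    simp only [hD2]
    rw [hW2]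
    exact h1
  -- the second test map
  set P3 : ℂ[X] := C (d : ℂ) * X ^ (2 * d - 2) - C ((d : ℂ) * (d - 1)) * X ^ (d - 2) with hP3
  have hP3n : P3.natDegree ≤ 2 * d - 2 := by
    rw [hP3]
    apply (natDegree_sub_le _ _).trans
    apply max_le
    · exact natDegree_C_mul_X_pow_le _ _
    · exact (natDegree_C_mul_X_pow_le _ _).trans (by omega)
  have hW3 : W (xB d) = P3 := by
    apply ip_eq hP3n
    intro ζ
    rw [wr_xB hd, hP3]
    simp
  have hP3c : P3.coeff (2 * d - 2) = (d : ℂ) := by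
    rw [hP3]
    simp only [coeff_sub, coeff_C_mul, coeff_X_pow]
    have h1 : ¬ (2 * d - 2 = d - 2) := by omega
    simp [h1]
  have hP3d : P3.natDegree = 2 * d - 2 :=
    le_antisymm hP3n (le_natDegree_of_ne_zero (by rw [hP3c]; exact hd0))
  have hD3ne : D3 (xB d) ≠ 0 := by
    have hE3 := hE (xB d)
    have hcop : IsCoprime P3 (E (xB d)) := by
      rw [Polynomial.isCoprime_iff_aeval_ne_zero_of_isAlgClosed ℂ ℂ]
      intro a
      have h1 : aeval a (E (xB d)) = (E (xB d)).eval a := by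
        simp [aeval_def, eval₂_eq_eval_map]
      by_cases ha : a = 0
      · right
        rw [h1, hE3.2 a, ha, iter_xB_zero hd hq]
        simp [cr]
      · by_cases had : a ^ d = (d : ℂ) - 1
        · right
          obtain ⟨c, t, hc, ht, htq, hit⟩ := iter_xB hd a had q
          rw [h1, hE3.2 a, hit, cr_smul_left]
          refine mul_ne_zero hc ?_
          simp only [cr, mul_one, one_mul]
          have h2 : a * (t : ℂ) - a = a * ((t - 1 : ℝ) : ℂ) := by push_cast; ring
          rw [h2]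
          refine mul_ne_zero ha (Complex.ofReal_ne_zero.mpr ?_)
          have := htq hq
          linarith
        · left
          have h2 : aeval a P3 = (d : ℂ) * a ^ (d - 2) * (a ^ d - ((d : ℂ) - 1)) := by
            rw [hP3]
            simp only [map_sub, map_mul, aeval_C, map_pow, aeval_X, Algebra.algebraMap_self,
              RingHom.id_apply]
            have h3 : 2 * d - 2 = (d - 2) + d := by omega
            rw [h3, pow_add]
            ring
          rw [h2]
          exact mul_ne_zero (mul_ne_zero hd0 (pow_ne_zero _ ha)) (sub_ne_zero.mpr had)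
    have h1 := resultant_ne_zero _ _ hcop
    rw [hP3d] at h1
    simp only [hD3]
    rw [hW3]
    obtain ⟨k, hk⟩ : ∃ k, d ^ q + 1 = (E (xB d)).natDegree + k :=
      ⟨d ^ q + 1 - (E (xB d)).natDegree, by have := hE3.1; omega⟩
    rw [hk, resultant_add_right_deg _ _ _ _ _ le_rfl, hP3c]
    exact mul_ne_zero (pow_ne_zero _ hd0) h1
  -- restriction to the family
  obtain ⟨uA, huA⟩ := hfs (xA d) (nrm_xA hd)
  obtain ⟨uB, huB⟩ := hfs (xB d) (nrm_xB hd)
  have hd1 : Differentiable ℂ (fun u : Fin (2 * d) → ℂ => D1 (fam u)) := hdif1.comp hfd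
  have hd2 : Differentiable ℂ (fun u : Fin (2 * d) → ℂ => D2 (fam u)) := hdif2.comp hfd
  have hd3 : Differentiable ℂ (fun u : Fin (2 * d) → ℂ => D3 (fam u)) := hdif3.comp hfd
  have hn1 : (fun u : Fin (2 * d) → ℂ => D1 (fam u)) uA ≠ 0 := by simp only [huA]; exact hD1ne
  have hn2 : (fun u : Fin (2 * d) → ℂ => D2 (fam u)) uA ≠ 0 := by simp only [huA]; exact hD2ne
  have hn3 : (fun u : Fin (2 * d) → ℂ => D3 (fam u)) uB ≠ 0 := by simp only [huB]; exact hD3ne
  -- density
  have hopen : ∀ D : (Fin (2 * d) → ℂ) → ℂ, Differentiable ℂ D → IsOpen {x | D x ≠ 0} := by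
    intro D hD
    exact isOpen_ne_fun hD.continuous continuous_const
  have hdense : Dense ({u : Fin (2 * d) → ℂ | D1 (fam u) ≠ 0} ∩
      ({u | D2 (fam u) ≠ 0} ∩ {u | D3 (fam u) ≠ 0})) := by
    apply (dense_ne hd1 hn1).inter_of_isOpen_left _ (hopen _ hd1)
    exact (dense_ne hd2 hn2).inter_of_isOpen_left (dense_ne hd3 hn3)
      (hopen _ hd2)
  obtain ⟨u, ⟨hx1, hx2, hx3⟩, hxε⟩ := hdense.exists_dist_lt u₀ hε
  set x : CV d := fam u with hxdef
  replace hx1 : D1 x ≠ 0 := hx1
  replace hx2 : D2 x ≠ 0 := hx2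
  replace hx3 : D3 x ≠ 0 := hx3
  refine ⟨u, ?_, ?_, ?_, ?_⟩
  · rw [dist_comm, dist_eq_norm] at hxε
    exact hxε
  · rw [← hxdef, ← (hW x).2.2]; exact hx1
  · -- simple roots
    have hdeg : (W x).natDegree = 2 * d - 2 :=
      le_antisymm (hW x).1 (le_natDegree_of_ne_zero hx1)
    have hsep : (W x).Separable := by
      obtain ⟨p, r, -, -, hpr⟩ := exists_mul_add_mul_eq_C_resultant
        (m := 2 * d - 2) (n := 2 * d - 3)
        (W x) (derivative (W x)) (hW x).1 ((natDegree_derivative_le _).trans (by have := (hW x).1; omega))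
        (by omega)
      refine ⟨C (D2 x)⁻¹ * p, C (D2 x)⁻¹ * r, ?_⟩
      have : C (D2 x)⁻¹ * p * W x + C (D2 x)⁻¹ * r * derivative (W x) =
          C (D2 x)⁻¹ * (W x * p + derivative (W x) * r) := by ring
      rw [this, hpr, ← C_mul, inv_mul_cancel₀ hx2, C_1]
    have hnod := nodup_roots hsep
    have hspl : (W x).Splits := IsAlgClosed.splits _
    have hcard : (W x).roots.card = 2 * d - 2 := by
      rw [← hdeg]; exact (splits_iff_card_roots.mp hspl)
    obtain ⟨L, hL⟩ := Quot.exists_rep (W x).roots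
    have hL' : ((L : List ℂ) : Multiset ℂ) = (W x).roots := hL
    have hLl : L.length = 2 * d - 2 := by
      rw [← Multiset.coe_card, hL', hcard]
    have hLn : L.Nodup := by
      rw [← Multiset.coe_nodup, hL']; exact hnod
    refine ⟨fun i => L.get (i.cast hLl.symm), ?_, ?_⟩
    · intro i j hij
      have := hLn.injective_get hij
      exact Fin.cast_injective _ this
    · intro ζ
      have h1 := hspl.eq_prod_roots
      have h2 : (W x).eval ζ = (W x).leadingCoeff * ((W x).roots.map (fun a => ζ - a)).prod := by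
        conv_lhs => rw [h1]
        rw [eval_mul, eval_C, eval_multiset_prod, Multiset.map_map]
        simp only [Function.comp_def, eval_sub, eval_X, eval_C]
      rw [← hxdef, ← (hW x).2.1, h2, ← (hW x).2.2, leadingCoeff, hdeg, ← hL']
      congr 1
      rw [Multiset.map_coe, Multiset.prod_coe]
      rw [← List.prod_ofFn]
      congr 1
      apply List.ext_get
      · simp [hLl]
      · intro n h1 h2
        simp
  · intro p hp hwp
    rw [← hxdef] at hwp ⊢
    by_cases hp2 : p.2 = 0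
    · exfalso
      have h1 : p = p.1 • ((1 : ℂ), (0 : ℂ)) := by
        apply Prod.ext <;> simp [hp2]
      have hp1 : p.1 ≠ 0 := by
        intro h; apply hp; exact Prod.ext h hp2
      rw [h1, (hWR d x hd).1, ← (hW x).2.2] at hwp
      exact mul_ne_zero (pow_ne_zero _ hp1) hx1 hwp
    · have h1 : p = p.2 • ((p.1 / p.2 : ℂ), (1 : ℂ)) := by
        apply Prod.ext
        · simp [hp2, mul_div_cancel₀]
        · simp
      rw [h1, (hWR d x hd).1] at hwp
      have h2 : wr x (p.1 / p.2, 1) = 0 := (mul_eq_zero.mp hwp).resolve_left (pow_ne_zero _ hp2)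
      rw [h1, hF_iter_smul, cr_smul_left, cr_smul_right]
      refine mul_ne_zero (pow_ne_zero _ hp2) (mul_ne_zero hp2 ?_)
      intro h3
      obtain ⟨a, b, -, -, hab⟩ := exists_mul_add_mul_eq_C_resultant
        (m := 2 * d - 2) (n := d ^ q + 1) (W x) (E x) (hW x).1 (hE x).1 (by omega)
      have h4 := congrArg (Polynomial.eval (p.1 / p.2)) hab
      rw [eval_add, eval_mul, eval_mul, (hW x).2.1, (hE x).2, h2, h3, eval_C] at h4
      apply hx3
      simp only [hD3]
      rw [← h4]; ring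

end Pool.Agent.W63.REGENX
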