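import Mathlib
import Pool.Agent.W757.RD.St
import Pool.Agent.H790R3.RB.Basic
import Pool.Agent.W63.REAU

/-! Task CNJ of the project RD: the motion is a conjugacy, and it fixes the base points.
Adapted from `Pool.Agent.W757.RC.TCNJ`. -/

set_option autoImplicit false

open Topology Filter Metric Set MeasureTheory

open Pool.Agent.H790R3.RB (CV hF cr ND wr rt Ix yx yc hF_smul hF_iter_smul hF_iter_continuous
  hF_iter_differentiable cr_trans cr_comm cr_self cr_iter cr_smul_left)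

namespace Pool.Agent.W63.RECNJ

open Pool.Agent.W757.RD

variable {d n s : ℕ} (S : Sys d n s)

theorem one_ne (ζ : ℂ) : ((ζ, 1) : ℂ × ℂ) ≠ 0 := by
  intro h
  have := congrArg Prod.snd h
  simp at this

theorem pt_add (ω : Fin s → (Fin n → ℂ) × ℂ → ℂ) (k : Fin s) (a b : ℕ)
    (x : Fin n → ℂ) (w : ℂ) : S.pt ω k (a + b) x w = (S.F x)^[a] (S.pt ω k b x w) := by
  unfold Sys.pt
  rw [Function.iterate_add_apply]

variable {S}

/-- reduction of the time modulo the period -/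
theorem pt_red (hORB : StORB) {KK : Fin s → (Fin n → ℂ) × (ℂ × ℂ) → ℂ} {r : ℝ}
    {N : Set (Fin n → ℂ)} {ω : Fin s → (Fin n → ℂ) × ℂ → ℂ} (hK : S.Koe KK)
    (hL : S.Lin KK N r ω) {x : Fin n → ℂ} (hx : x ∈ N) (k : Fin s)
    (hl : ‖S.lam k x‖ ≤ 1) (l a : ℕ) : ∀ w : ℂ, ‖w‖ < r →
    cr (S.pt ω k (S.per k * a + l) x w) (S.pt ω k l x (S.lam k x ^ a * w)) = 0 := by
  have hr := hL.hr
  induction a with
  | zero =>
    intro w _
    simp only [Nat.mul_zero, Nat.zero_add, pow_zero, one_mul]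
    exact cr_self _
  | succ a ih =>
    intro w hw
    have hw' : ‖S.lam k x * w‖ < r := by
      rw [norm_mul]
      calc ‖S.lam k x‖ * ‖w‖ ≤ 1 * ‖w‖ := mul_le_mul_of_nonneg_right hl (norm_nonneg _)
        _ < r := by rwa [one_mul]
    have e1 : S.per k * (a + 1) + l = S.per k + (S.per k * a + l) := by ring
    have e2 : S.lam k x ^ (a + 1) * w = S.lam k x ^ a * (S.lam k x * w) := by ring
    have h1 := (hORB d n s S KK r N ω hK hL x hx k k w w hw hw (S.per k * a + l) 0).2.1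
    have h2 := (hORB d n s S KK r N ω hK hL x hx k k (S.lam k x * w) w hw' hw
      (S.per k * a + l) 0).1
    rw [e1, e2]
    exact cr_trans h2 h1 (ih _ hw')

/-- the conjugacy at points with nonexceptional addresses -/
theorem gener (hORB : StORB) (hLAM : StLAM) (hAU : StAU)
    {KK : Fin s → (Fin n → ℂ) × (ℂ × ℂ) → ℂ} {r : ℝ}
    {N : Set (Fin n → ℂ)} {ω : Fin s → (Fin n → ℂ) × ℂ → ℂ} {Nt : ℕ}
    {r₂ τ : ℝ} {x : ℂ → (Fin n → ℂ)} {κ : Fin s → ℂ → ℂ}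
    {Sx : Fin s → ℕ → Set ℂ} {W : Set ℂ} {Φ : ℂ → ℂ → ℂ}
    (hD : DD S KK r N ω Nt r₂ τ x κ Sx) (hM : Mo S ω Nt r₂ τ x κ Sx W Φ)
    {ζ : ℂ} (hζ : ζ ∈ W) :
    (∀ t ∈ ball (0 : ℂ) τ, ((S.F (x t))^[1] (Φ t ζ, 1)).2 ≠ 0) ∧
    (rt (S.co (x 0)) 1 ζ ∈ W → ∀ t ∈ ball (0 : ℂ) τ,
      rt (S.co (x t)) 1 (Φ t ζ) = Φ t (rt (S.co (x 0)) 1 ζ)) := by
  have hK := hD.koe
  have hL := hD.lin
  have hτ := hD.dsc.hτ
  have h0 : (0 : ℂ) ∈ ball (0 : ℂ) τ := mem_ball_self hτ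
  obtain ⟨k, l, hl, w, hw0, hwr, hwS, hA⟩ := (hM.mem ζ).1 hζ
  -- the multiplier
  set lam : ℂ := S.lam k (x 0) with hlam
  have hlamt : ∀ t' ∈ ball (0 : ℂ) τ, S.lam k (x t') = lam := fun t' ht' =>
    hD.dsc.lamc k t' ht'
  have hlam1 : ‖lam‖ ≤ 1 :=
    ((hLAM d n s S).2.1 k (x 0) (hL.NU (hD.dsc.xN 0 h0))).trans S.hθ.le
  have hlam0 : lam ≠ 0 := hL.lam0 (x 0) (hD.dsc.xN 0 h0) k
  -- the new address
  set a : ℕ := (1 + l) / S.per k with ha
  set l' : ℕ := (1 + l) % S.per k with hl'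
  have hperk : 0 < S.per k := S.hper k
  have hl'lt : l' < S.per k := Nat.mod_lt _ hperk
  have hal : 1 + l = S.per k * a + l' := (Nat.div_add_mod _ _).symm
  set w' : ℂ := lam ^ a * w with hw'
  have hw'0 : w' ≠ 0 := mul_ne_zero (pow_ne_zero _ hlam0) hw0
  have hw'r : ‖w'‖ < r₂ := by
    rw [hw', norm_mul, norm_pow]
    calc ‖lam‖ ^ a * ‖w‖ ≤ 1 * ‖w‖ :=
          mul_le_mul_of_nonneg_right (pow_le_one₀ (norm_nonneg _) hlam1) (norm_nonneg _)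
      _ < r₂ := by rwa [one_mul]
  -- the images at time `t'`
  have hsmall : ∀ t' ∈ ball (0 : ℂ) τ, ∀ v : ℂ, ‖v‖ < r₂ → ‖κ k t' * v‖ < r := by
    intro t' ht' v hv
    rw [norm_mul]
    calc ‖κ k t'‖ * ‖v‖ ≤ ‖κ k t'‖ * r₂ := mul_le_mul_of_nonneg_left hv.le (norm_nonneg _)
      _ < r := hD.dsc.κr k t' ht'
  set u : ℂ → ℂ × ℂ := fun t' => (S.F (x t'))^[1] (Φ t' ζ, 1) with hu
  have hnd : ∀ t' ∈ ball (0 : ℂ) τ, ND (S.co (x t')) := fun t' ht' =>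
    S.nd _ (hL.NU (hD.dsc.xN t' ht'))
  have hune : ∀ t' ∈ ball (0 : ℂ) τ, u t' ≠ 0 := fun t' ht' =>
    (hnd t' ht').iter_ne _ (one_ne _)
  have hpar : ∀ t' ∈ ball (0 : ℂ) τ,
      cr ((S.F (x t'))^[Nt] (u t')) (S.pt ω k l' (x t') (κ k t' * w')) = 0 := by
    intro t' ht'
    have hxN := hD.dsc.xN t' ht'
    have hκw := hsmall t' ht' w hwr
    have h1 := hM.ad k l hl w hw0 hwr hwS ζ hA t' ht'
    unfold Ad at h1
    have h2 : (S.F (x t'))^[Nt] (Φ t' ζ, 1) ≠ 0 := (hnd t' ht').iter_ne _ (one_ne _)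
    have h3 : S.pt ω k l (x t') (κ k t' * w) ≠ 0 :=
      (hORB d n s S KK r N ω hK hL (x t') hxN k k (κ k t' * w) (κ k t' * w) hκw hκw l 0).1
    have h4 := cr_iter (S.co (x t')) 1 h2 h3 h1
    have e1 : (hF (S.co (x t')))^[1] ((S.F (x t'))^[Nt] (Φ t' ζ, 1)) =
        (S.F (x t'))^[Nt] (u t') := by
      change (S.F (x t'))^[1] ((S.F (x t'))^[Nt] (Φ t' ζ, 1)) =
        (S.F (x t'))^[Nt] ((S.F (x t'))^[1] (Φ t' ζ, 1))
      rw [← Function.iterate_add_apply, ← Function.iterate_add_apply, Nat.add_comm]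
    have e2 : (hF (S.co (x t')))^[1] (S.pt ω k l (x t') (κ k t' * w)) =
        S.pt ω k (S.per k * a + l') (x t') (κ k t' * w) := by
      rw [← hal, pt_add]
      rfl
    rw [e1, e2] at h4
    have h5 := pt_red hORB hK hL hxN k (by rw [hlamt t' ht']; exact hlam1) l' a
      (κ k t' * w) hκw
    have e3 : S.lam k (x t') ^ a * (κ k t' * w) = κ k t' * w' := by
      rw [hlamt t' ht', hw']; ring
    rw [e3] at h5
    exact cr_trans (hORB d n s S KK r N ω hK hL (x t') hxN k k (κ k t' * w) (κ k t' * w)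
      hκw hκw (S.per k * a + l') 0).1 h4 h5
  -- the images are finite points
  have hu2 : ∀ t' ∈ ball (0 : ℂ) τ, (u t').2 ≠ 0 := by
    intro t' ht' hcon
    have hxN := hD.dsc.xN t' ht'
    have hκw := hsmall t' ht' w' hw'r
    have e1 : u t' = (u t').1 • ((1, 0) : ℂ × ℂ) := by
      ext
      · simp
      · simp [hcon]
    have hu1 : (u t').1 ≠ 0 := by
      intro h
      exact hune t' ht' (Prod.ext h hcon)
    have h1 := hpar t' ht'
    rw [e1] at h1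
    obtain ⟨c, hc, hc'⟩ := Pool.Agent.W63.REAU.iter_inf S (hL.NU hxN) Nt
    have e2 : (S.F (x t'))^[Nt] ((u t').1 • ((1, 0) : ℂ × ℂ)) =
        (u t').1 ^ (d ^ Nt) • (S.F (x t'))^[Nt] (1, 0) := by
      exact hF_iter_smul _ _ _ _
    rw [e2, cr_smul_left, hc'] at h1
    have h2 := (mul_eq_zero.1 h1).resolve_left (pow_ne_zero _ hu1)
    have h3 := (hORB d n s S KK r N ω hK hL (x t') hxN k k (κ k t' * w') (κ k t' * w')
      hκw hκw l' l').2.2.2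
    simp only [cr, zero_mul, sub_zero] at h2
    exact h3 ((mul_eq_zero.1 h2).resolve_left hc)
  refine ⟨hu2, fun hg t ht => ?_⟩
  obtain ⟨k1, l1, hl1, w1, hw10, hw1r, hw1S, hA1⟩ := (hM.mem _).1 hg
  set Z' : ℂ → ℂ := fun t' => (u t').1 / (u t').2 with hZ'
  have hAd : ∀ t' ∈ ball (0 : ℂ) τ, Ad S ω Nt x κ t' k l' w' (Z' t') := by
    intro t' ht'
    unfold Ad
    have h1 := hpar t' ht'
    have h2 := hu2 t' ht'
    have e1 : u t' = (u t').2 • ((Z' t', 1) : ℂ × ℂ) := by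
      ext
      · simp only [hZ', Prod.smul_fst, smul_eq_mul]
        field_simp
      · simp
    rw [e1] at h1
    have e2 : (S.F (x t'))^[Nt] ((u t').2 • ((Z' t', 1) : ℂ × ℂ)) =
        (u t').2 ^ (d ^ Nt) • (S.F (x t'))^[Nt] (Z' t', 1) := hF_iter_smul _ _ _ _
    rw [e2, cr_smul_left] at h1
    exact (mul_eq_zero.1 h1).resolve_left (pow_ne_zero _ h2)
  have hZ0 : Z' 0 = rt (S.co (x 0)) 1 ζ := by
    simp only [hZ', hu, hM.Φ0 ζ hζ]
    rfl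
  -- the address of the image is nonexceptional
  obtain ⟨hk1, hl1', hw1'⟩ := (hAU d n s S KK r N ω Nt r₂ τ x κ Sx hD 0 h0).1 k1 k l1 hl1 l'
    hl'lt w1 w' _ hw1r hw'r hA1 (hZ0 ▸ hAd 0 h0)
  have hw'S : w' ∉ Sx k l' := by
    rw [← hw1', ← hk1, ← hl1']
    exact hw1S
  -- continuity
  have hcont : ContinuousOn Z' (ball 0 τ) := by
    have hxc : ContinuousOn x (ball 0 τ) := hD.dsc.xd.continuousOn
    have hcoc : ContinuousOn (fun t' => S.co (x t')) (ball 0 τ) :=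
      S.hco.continuousOn.comp hxc (fun t' ht' => hL.NU (hD.dsc.xN t' ht'))
    have hΦc : ContinuousOn (fun t' => Φ t' ζ) (ball 0 τ) := by
      have h1 := hM.Φd.continuousOn
      exact h1.comp (f := fun t' : ℂ => (t', ζ)) (by fun_prop) (fun t' ht' => ⟨ht', hζ⟩)
    have huc : ContinuousOn u (ball 0 τ) := by
      have h1 := (hF_iter_continuous d 1).comp_continuousOn
        (hcoc.prodMk (hΦc.prodMk continuousOn_const : ContinuousOn
          (fun t' => ((Φ t' ζ, 1) : ℂ × ℂ)) (ball 0 τ)))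
      exact h1
    exact (huc.fst).div (huc.snd) hu2
  have hfin := hM.unq k l' hl'lt w' hw'0 hw'r hw'S (rt (S.co (x 0)) 1 ζ)
    (hZ0 ▸ hAd 0 h0) Z' hcont ⟨0, h0, by rw [hZ0, hM.Φ0 _ hg]⟩ hAd t ht
  rw [← hfin]
  rfl

theorem task (hORB : StORB) (hAU : StAU) (hLAM : StLAM) : StCNJ := by
  intro d n s S KK r N ω Nt r₂ τ x κ Sx W Φ hD hM
  have hτ := hD.dsc.hτ
  have h0 : (0 : ℂ) ∈ ball (0 : ℂ) τ := mem_ball_self hτ
  refine ⟨?_, ?_⟩
  · intro z hz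
    obtain ⟨h1, h2⟩ := gener hORB hLAM hAU hD hM hz
    refine ⟨?_, fun hz' t ht => ⟨h1 t ht, h2 hz' t ht⟩⟩
    have h3 := h1 0 h0
    rw [hM.Φ0 z hz] at h3
    exact h3
  · rintro b ⟨k, l, hl, w, hw, hb⟩ z hz hzb t ht hΦ
    obtain ⟨k1, l1, hl1, w1, hw10, hw1r, hw1S, hA1⟩ := (hM.mem _).1 hz
    have hA1t := hM.ad k1 l1 hl1 w1 hw10 hw1r hw1S z hA1 t ht
    rw [hΦ] at hA1t
    obtain ⟨e1, e2, e3⟩ := (hAU d n s S KK r N ω Nt r₂ τ x κ Sx hD t ht).1 k1 k l1 hl1 l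
      hl w1 w _ hw1r hw hA1t (hb t ht)
    subst e1 e2 e3
    have h5 := hM.unq k1 l1 hl1 w1 hw10 hw1r hw1S z hA1 (fun _ => b) continuousOn_const
      ⟨t, ht, hΦ.symm⟩ hb 0 h0
    rw [hM.Φ0 z hz] at h5
    exact hzb h5.symm

end Pool.Agent.W63.RECNJ
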