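import Mathlib
import Pool.Agent.W555.ST.Defs

open Set MeasureTheory Real

noncomputable section

namespace Pool.Agent.W63.ST2

open Pool.Agent.W555.ST

theorem int_aux (F G : ℝ → ℝ) (v : ℝ) (hF : ∀ t, HasDerivAt F (G t) t) (hG : Continuous G)
    (hv : F (π / 2) - F 0 = v) : ∫ t in (0:ℝ)..(π/2), G t = v := by
  rw [intervalIntegral.integral_eq_sub_of_hasDerivAt (fun t _ => hF t)
    (hG.intervalIntegrable _ _), hv]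

/-- the basic integral -/
theorem int_main (a0 a1 a2 a3 q0 q1 q2 q3 q4 q5 : ℝ) :
    ∫ t in (0:ℝ)..(π/2), (a0 * cos t ^ 3 + a1 * (cos t ^ 2 * sin t) + a2 * (cos t * sin t ^ 2)
      + a3 * sin t ^ 3 + (q0 * cos t ^ 5 + q1 * (cos t ^ 4 * sin t) + q2 * (cos t ^ 3 * sin t ^ 2)
      + q3 * (cos t ^ 2 * sin t ^ 3) + q4 * (cos t * sin t ^ 4) + q5 * sin t ^ 5))
    = (2 * a0 + a1 + a2 + 2 * a3) / 3
      + (8 * q0 + 3 * q1 + 2 * q2 + 2 * q3 + 3 * q4 + 8 * q5) / 15 := by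
  apply int_aux (fun t =>
    a0 * (sin t - sin t ^ 3 / 3) + a1 * (- cos t ^ 3 / 3) + a2 * (sin t ^ 3 / 3)
      + a3 * (- cos t + cos t ^ 3 / 3)
      + (q0 * (sin t - 2 * sin t ^ 3 / 3 + sin t ^ 5 / 5) + q1 * (- cos t ^ 5 / 5)
      + q2 * (sin t ^ 3 / 3 - sin t ^ 5 / 5) + q3 * (- cos t ^ 3 / 3 + cos t ^ 5 / 5)
      + q4 * (sin t ^ 5 / 5) + q5 * (- cos t + 2 * cos t ^ 3 / 3 - cos t ^ 5 / 5)))
  · intro t
    have hs := Real.hasDerivAt_sin t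
    have hc := Real.hasDerivAt_cos t
    have hs3 : HasDerivAt (fun t => sin t ^ 3) (3 * sin t ^ 2 * cos t) t := by
      simpa using hs.fun_pow 3
    have hs5 : HasDerivAt (fun t => sin t ^ 5) (5 * sin t ^ 4 * cos t) t := by
      simpa using hs.fun_pow 5
    have hc3 : HasDerivAt (fun t => cos t ^ 3) (3 * cos t ^ 2 * - sin t) t := by
      simpa using hc.fun_pow 3
    have hc5 : HasDerivAt (fun t => cos t ^ 5) (5 * cos t ^ 4 * - sin t) t := by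
      simpa using hc.fun_pow 5
    have hF : (fun t =>
        a0 * (sin t - sin t ^ 3 / 3) + a1 * (- cos t ^ 3 / 3) + a2 * (sin t ^ 3 / 3)
        + a3 * (- cos t + cos t ^ 3 / 3)
        + (q0 * (sin t - 2 * sin t ^ 3 / 3 + sin t ^ 5 / 5) + q1 * (- cos t ^ 5 / 5)
        + q2 * (sin t ^ 3 / 3 - sin t ^ 5 / 5) + q3 * (- cos t ^ 3 / 3 + cos t ^ 5 / 5)
        + q4 * (sin t ^ 5 / 5) + q5 * (- cos t + 2 * cos t ^ 3 / 3 - cos t ^ 5 / 5)))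
        = fun t => (a0 + q0) * sin t + (- a3 - q5) * cos t
          + ((- a0 + a2 - 2 * q0 + q2) / 3) * sin t ^ 3 + ((q0 - q2 + q4) / 5) * sin t ^ 5
          + ((- a1 + a3 - q3 + 2 * q5) / 3) * cos t ^ 3 + ((- q1 + q3 - q5) / 5) * cos t ^ 5 := by
      funext t
      ring
    rw [hF]
    have H := (((((hs.const_mul (a0 + q0)).fun_add (hc.const_mul (- a3 - q5))).fun_add
      (hs3.const_mul ((- a0 + a2 - 2 * q0 + q2) / 3))).fun_add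
      (hs5.const_mul ((q0 - q2 + q4) / 5))).fun_add
      (hc3.const_mul ((- a1 + a3 - q3 + 2 * q5) / 3))).fun_add
      (hc5.const_mul ((- q1 + q3 - q5) / 5))
    refine HasDerivAt.congr_deriv H ?_
    have h1 : sin t ^ 2 = 1 - cos t ^ 2 := by
      have := Real.sin_sq_add_cos_sq t
      linarith
    have h3 : sin t ^ 3 = (1 - cos t ^ 2) * sin t := by rw [← h1]; ring
    have h4 : sin t ^ 4 = (1 - cos t ^ 2) ^ 2 := by rw [← h1]; ring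
    have h5 : sin t ^ 5 = (1 - cos t ^ 2) ^ 2 * sin t := by rw [← h1]; ring
    rw [h1, h3, h4, h5]
    ring
  · fun_prop
  · simp
    ring

/-- value of the quarter circle integral -/
theorem KK_eval (a b : E) : KK h0 a b =
    (2 * a 2 ^ 3 + 3 * a 2 ^ 2 * b 2 + 3 * a 2 * b 2 ^ 2 + 2 * b 2 ^ 3) / 3
    + 2 * (8 * (5 * a 0 * a 1 ^ 4 - 10 * a 0 ^ 3 * a 1 ^ 2 + a 0 ^ 5)
      + 3 * (5 * b 0 * a 1 ^ 4 + 20 * a 0 * a 1 ^ 3 * b 1 - 30 * a 0 ^ 2 * b 0 * a 1 ^ 2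
        - 20 * a 0 ^ 3 * a 1 * b 1 + 5 * a 0 ^ 4 * b 0)
      + 2 * (20 * b 0 * a 1 ^ 3 * b 1 + 30 * a 0 * a 1 ^ 2 * b 1 ^ 2 - 30 * a 0 * b 0 ^ 2 * a 1 ^ 2
        - 60 * a 0 ^ 2 * b 0 * a 1 * b 1 - 10 * a 0 ^ 3 * b 1 ^ 2 + 10 * a 0 ^ 3 * b 0 ^ 2)
      + 2 * (30 * b 0 * a 1 ^ 2 * b 1 ^ 2 - 10 * b 0 ^ 3 * a 1 ^ 2 + 20 * a 0 * a 1 * b 1 ^ 3
        - 60 * a 0 * b 0 ^ 2 * a 1 * b 1 - 30 * a 0 ^ 2 * b 0 * b 1 ^ 2 + 10 * a 0 ^ 2 * b 0 ^ 3)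
      + 3 * (20 * b 0 * a 1 * b 1 ^ 3 - 20 * b 0 ^ 3 * a 1 * b 1 + 5 * a 0 * b 1 ^ 4
        - 30 * a 0 * b 0 ^ 2 * b 1 ^ 2 + 5 * a 0 * b 0 ^ 4)
      + 8 * (5 * b 0 * b 1 ^ 4 - 10 * b 0 ^ 3 * b 1 ^ 2 + b 0 ^ 5)) / 15 := by
  unfold KK
  have := int_main (a 2 ^ 3) (3 * a 2 ^ 2 * b 2) (3 * a 2 * b 2 ^ 2) (b 2 ^ 3)
    (2 * (5 * a 0 * a 1 ^ 4 - 10 * a 0 ^ 3 * a 1 ^ 2 + a 0 ^ 5))
    (2 * (5 * b 0 * a 1 ^ 4 + 20 * a 0 * a 1 ^ 3 * b 1 - 30 * a 0 ^ 2 * b 0 * a 1 ^ 2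
        - 20 * a 0 ^ 3 * a 1 * b 1 + 5 * a 0 ^ 4 * b 0))
    (2 * (20 * b 0 * a 1 ^ 3 * b 1 + 30 * a 0 * a 1 ^ 2 * b 1 ^ 2 - 30 * a 0 * b 0 ^ 2 * a 1 ^ 2
        - 60 * a 0 ^ 2 * b 0 * a 1 * b 1 - 10 * a 0 ^ 3 * b 1 ^ 2 + 10 * a 0 ^ 3 * b 0 ^ 2))
    (2 * (30 * b 0 * a 1 ^ 2 * b 1 ^ 2 - 10 * b 0 ^ 3 * a 1 ^ 2 + 20 * a 0 * a 1 * b 1 ^ 3
        - 60 * a 0 * b 0 ^ 2 * a 1 * b 1 - 30 * a 0 ^ 2 * b 0 * b 1 ^ 2 + 10 * a 0 ^ 2 * b 0 ^ 3))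
    (2 * (20 * b 0 * a 1 * b 1 ^ 3 - 20 * b 0 ^ 3 * a 1 * b 1 + 5 * a 0 * b 1 ^ 4
        - 30 * a 0 * b 0 ^ 2 * b 1 ^ 2 + 5 * a 0 * b 0 ^ 4))
    (2 * (5 * b 0 * b 1 ^ 4 - 10 * b 0 ^ 3 * b 1 ^ 2 + b 0 ^ 5))
  have h2 : ∀ t : ℝ, h0 (cos t • a + sin t • b) =
      (a 2 ^ 3 * cos t ^ 3 + 3 * a 2 ^ 2 * b 2 * (cos t ^ 2 * sin t)
      + 3 * a 2 * b 2 ^ 2 * (cos t * sin t ^ 2)
      + b 2 ^ 3 * sin t ^ 3 + (2 * (5 * a 0 * a 1 ^ 4 - 10 * a 0 ^ 3 * a 1 ^ 2 + a 0 ^ 5) * cos t ^ 5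
      + 2 * (5 * b 0 * a 1 ^ 4 + 20 * a 0 * a 1 ^ 3 * b 1 - 30 * a 0 ^ 2 * b 0 * a 1 ^ 2
        - 20 * a 0 ^ 3 * a 1 * b 1 + 5 * a 0 ^ 4 * b 0) * (cos t ^ 4 * sin t)
      + 2 * (20 * b 0 * a 1 ^ 3 * b 1 + 30 * a 0 * a 1 ^ 2 * b 1 ^ 2 - 30 * a 0 * b 0 ^ 2 * a 1 ^ 2
        - 60 * a 0 ^ 2 * b 0 * a 1 * b 1 - 10 * a 0 ^ 3 * b 1 ^ 2 + 10 * a 0 ^ 3 * b 0 ^ 2)
        * (cos t ^ 3 * sin t ^ 2)
      + 2 * (30 * b 0 * a 1 ^ 2 * b 1 ^ 2 - 10 * b 0 ^ 3 * a 1 ^ 2 + 20 * a 0 * a 1 * b 1 ^ 3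
        - 60 * a 0 * b 0 ^ 2 * a 1 * b 1 - 30 * a 0 ^ 2 * b 0 * b 1 ^ 2 + 10 * a 0 ^ 2 * b 0 ^ 3)
        * (cos t ^ 2 * sin t ^ 3)
      + 2 * (20 * b 0 * a 1 * b 1 ^ 3 - 20 * b 0 ^ 3 * a 1 * b 1 + 5 * a 0 * b 1 ^ 4
        - 30 * a 0 * b 0 ^ 2 * b 1 ^ 2 + 5 * a 0 * b 0 ^ 4) * (cos t * sin t ^ 4)
      + 2 * (5 * b 0 * b 1 ^ 4 - 10 * b 0 ^ 3 * b 1 ^ 2 + b 0 ^ 5) * sin t ^ 5)) := by
    intro t
    simp only [h0, PiLp.add_apply, PiLp.smul_apply, smul_eq_mul]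
    ring
  simp only [h2]
  rw [this]
  ring

theorem KK_sum (p e : E) : KK h0 p e + KK h0 e (-p) =
    2 * p 2 ^ 2 * e 2 + 4 / 3 * e 2 ^ 3
    + (4 * (p 0 ^ 4 * e 0 - 4 * p 0 ^ 3 * p 1 * e 1 - 6 * p 0 ^ 2 * p 1 ^ 2 * e 0
        + 4 * p 0 * p 1 ^ 3 * e 1 + p 1 ^ 4 * e 0)
      + 16 / 3 * ((p 0 ^ 2 - p 1 ^ 2) * (e 0 ^ 3 - 3 * e 0 * e 1 ^ 2)
        - 2 * p 0 * p 1 * (3 * e 0 ^ 2 * e 1 - e 1 ^ 3))
      + 32 / 15 * (e 0 ^ 5 - 10 * e 0 ^ 3 * e 1 ^ 2 + 5 * e 0 * e 1 ^ 4)) := by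
  rw [KK_eval, KK_eval]
  simp only [PiLp.neg_apply]
  ring

set_option maxHeartbeats 4000000 in
theorem main : NonLinStmt := by
  intro p hp v
  by_contra hcon
  push Not at hcon
  have hp1 : p 0 ^ 2 + p 1 ^ 2 + p 2 ^ 2 = 1 := by
    have h : ‖p‖ = 1 := hp
    have := EuclideanSpace.norm_sq_eq p
    rw [h] at this
    simp [Fin.sum_univ_three] at this
    linarith
  have hu : ∀ e0 e1 e2 : ℝ, e0 ^ 2 + e1 ^ 2 + e2 ^ 2 = 1 → e0 * p 0 + e1 * p 1 + e2 * p 2 = 0 →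
      2 * p 2 ^ 2 * e2 + 4 / 3 * e2 ^ 3
      + (4 * (p 0 ^ 4 * e0 - 4 * p 0 ^ 3 * p 1 * e1 - 6 * p 0 ^ 2 * p 1 ^ 2 * e0
        + 4 * p 0 * p 1 ^ 3 * e1 + p 1 ^ 4 * e0)
      + 16 / 3 * ((p 0 ^ 2 - p 1 ^ 2) * (e0 ^ 3 - 3 * e0 * e1 ^ 2)
        - 2 * p 0 * p 1 * (3 * e0 ^ 2 * e1 - e1 ^ 3))
      + 32 / 15 * (e0 ^ 5 - 10 * e0 ^ 3 * e1 ^ 2 + 5 * e0 * e1 ^ 4))
      = v 0 * e0 + v 1 * e1 + v 2 * e2 := by
    intro e0 e1 e2 he hep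
    have h1 : (!₂[e0, e1, e2] : E) ∈ S := by
      show ‖(!₂[e0, e1, e2] : E)‖ = 1
      rw [EuclideanSpace.norm_eq]
      simp [Fin.sum_univ_three, he]
    have h2 : inner ℝ (!₂[e0, e1, e2] : E) p = 0 := by
      rw [PiLp.inner_apply]
      simp [Fin.sum_univ_three]
      linarith
    have h3 := hcon _ h1 h2
    rw [KK_sum, PiLp.inner_apply] at h3
    simp [Fin.sum_univ_three] at h3
    rw [h3]
    ring
  generalize p 0 = x at *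
  generalize p 1 = y at *
  generalize p 2 = z at *
  generalize v 0 = v0 at *
  generalize v 1 = v1 at *
  generalize v 2 = v2 at *
  by_cases hr0 : x ^ 2 + y ^ 2 = 0
  · have hx : x = 0 := by nlinarith [sq_nonneg x, sq_nonneg y]
    have hy : y = 0 := by nlinarith [sq_nonneg x, sq_nonneg y]
    subst hx
    subst hy
    have k1 := hu 1 0 0 (by norm_num) (by norm_num)
    have k2 := hu (3/5) (4/5) 0 (by norm_num) (by norm_num)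
    have k3 := hu (3/5) (-4/5) 0 (by norm_num) (by norm_num)
    norm_num at k1 k2 k3
    linarith
  · obtain ⟨r, hr, hrr⟩ : ∃ r : ℝ, 0 < r ∧ r ^ 2 = x ^ 2 + y ^ 2 := by
      have h0 : 0 < x ^ 2 + y ^ 2 := lt_of_le_of_ne (by positivity) (Ne.symm hr0)
      exact ⟨√(x ^ 2 + y ^ 2), Real.sqrt_pos.2 h0, Real.sq_sqrt h0.le⟩
    obtain ⟨a, b, hx, hy⟩ : ∃ a b : ℝ, x = r * a ∧ y = r * b :=
      ⟨x / r, y / r, by field_simp, by field_simp⟩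
    subst hx
    subst hy
    have hab : a ^ 2 + b ^ 2 = 1 := by
      have : r ^ 2 * (a ^ 2 + b ^ 2) = r ^ 2 * 1 := by linarith
      exact mul_left_cancel₀ (by positivity) this
    have hrz : r ^ 2 + z ^ 2 = 1 := by
      rw [hrr]
      linarith
    clear hr0 hrr
    obtain ⟨A, hA⟩ : ∃ A : ℝ, A = a ^ 5 - 10 * a ^ 3 * b ^ 2 + 5 * a * b ^ 4 := ⟨_, rfl⟩
    obtain ⟨B, hB⟩ : ∃ B : ℝ, B = 5 * a ^ 4 * b - 10 * a ^ 2 * b ^ 3 + b ^ 5 := ⟨_, rfl⟩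
    have hAB : A ^ 2 + B ^ 2 = 1 := by
      have : A ^ 2 + B ^ 2 = (a ^ 2 + b ^ 2) ^ 5 := by rw [hA, hB]; ring
      rw [this, hab]; norm_num
    obtain ⟨α, hα⟩ : ∃ α : ℝ, α = - v0 * b + v1 * a := ⟨_, rfl⟩
    obtain ⟨β, hβ⟩ : ∃ β : ℝ, β = - v0 * a * z - v1 * b * z + v2 * r := ⟨_, rfl⟩
    have key : ∀ c s : ℝ, c ^ 2 + s ^ 2 = 1 →
        2 * z ^ 2 * s * r + 4 / 3 * s ^ 3 * r ^ 3
        + A * (- 4 * r ^ 4 * s * z + 16 / 3 * r ^ 2 * (3 * c ^ 2 * s * z - s ^ 3 * z ^ 3)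
          + 32 / 15 * (- 5 * c ^ 4 * s * z + 10 * c ^ 2 * s ^ 3 * z ^ 3 - s ^ 5 * z ^ 5))
        - B * (4 * r ^ 4 * c + 16 / 3 * r ^ 2 * (- c ^ 3 + 3 * c * s ^ 2 * z ^ 2)
          + 32 / 15 * (c ^ 5 - 10 * c ^ 3 * s ^ 2 * z ^ 2 + 5 * c * s ^ 4 * z ^ 4))
        = α * c + β * s := by
      intro c s hcs
      have h1 : (-s * a * z - c * b) ^ 2 + (c * a - s * b * z) ^ 2 + (s * r) ^ 2 = 1 := by
        have : (-s * a * z - c * b) ^ 2 + (c * a - s * b * z) ^ 2 + (s * r) ^ 2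
          = (a ^ 2 + b ^ 2) * (c ^ 2 + s ^ 2 * z ^ 2) + s ^ 2 * r ^ 2 := by ring
        rw [this, hab, one_mul]
        have h2 : c ^ 2 + s ^ 2 * z ^ 2 + s ^ 2 * r ^ 2 = c ^ 2 + s ^ 2 * (r ^ 2 + z ^ 2) := by ring
        rw [h2, hrz, mul_one, hcs]
      have h2 : (-s * a * z - c * b) * (r * a) + (c * a - s * b * z) * (r * b) + (s * r) * z = 0 := by
        have : (-s * a * z - c * b) * (r * a) + (c * a - s * b * z) * (r * b) + (s * r) * z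
          = - s * z * r * (a ^ 2 + b ^ 2) + s * r * z := by ring
        rw [this, hab]
        ring
      have h3 := hu _ _ _ h1 h2
      rw [hα, hβ, hA, hB]
      linear_combination h3
    have e1 := key 1 0 (by norm_num)
    have e2 := key (3/5) (4/5) (by norm_num)
    have e3 := key (3/5) (-4/5) (by norm_num)
    have e4 := key (4/5) (3/5) (by norm_num)
    have e5 := key (4/5) (-3/5) (by norm_num)
    have f1 := key 0 1 (by norm_num)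
    have hBz : B * (1 + 10 * z ^ 2 + 5 * z ^ 4) = 0 := by
      linear_combination (-15/32) * ((625/144) * e1 - (3125/504) * (e4 + e5) + (3125/672) * (e2 + e3))
    have hB0 : B = 0 := by
      rcases mul_eq_zero.1 hBz with h | h
      · exact h
      · exfalso
        have : 0 < 1 + 10 * z ^ 2 + 5 * z ^ 4 := by positivity
        linarith
    have hAz : A * z * (5 + 10 * z ^ 2 + z ^ 4) = 0 := by
      linear_combination (-15/32) * ((625/144) * f1 - (3125/504) * (e2 - e3) + (3125/672) * (e4 - e5))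
    have hA0 : A ≠ 0 := by
      intro h
      rw [h, hB0] at hAB
      norm_num at hAB
    have hz : z = 0 := by
      rcases mul_eq_zero.1 hAz with h | h
      · rcases mul_eq_zero.1 h with h | h
        · exact absurd h hA0
        · exact h
      · exfalso
        have : 0 < 5 + 10 * z ^ 2 + z ^ 4 := by positivity
        linarith
    have hr1 : r ^ 2 = 1 := by
      rw [hz] at hrz
      linarith
    rw [hz, hB0] at e2 e3 f1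
    have hr3 : r ^ 3 = 0 := by
      linear_combination (-375/288 : ℝ) * ((e2 - e3) - (8/5) * f1)
    have : 0 < r ^ 3 := by positivity
    linarith

end Pool.Agent.W63.ST2
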