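import Mathlib
import Pool.Agent.W555.ST.Defs
import Pool.Agent.W63.ST2

open Set MeasureTheory Real Filter Topology

noncomputable section

namespace Pool.Agent.W63.ST3

open Pool.Agent.W555.ST

theorem cos_ang {x y : E} (hx : x ∈ S) (hy : y ∈ S) : cos (ang x y) = inner ℝ x y := by
  have h1 : ‖x‖ = 1 := hx
  have h2 : ‖y‖ = 1 := hy
  have := InnerProductGeometry.cos_angle_mul_norm_mul_norm x y
  rw [h1, h2] at this
  simpa [ang] using this

theorem ang_nonneg (x y : E) : 0 ≤ ang x y := InnerProductGeometry.angle_nonneg x y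

theorem ang_le_pi (x y : E) : ang x y ≤ π := InnerProductGeometry.angle_le_pi x y

theorem ang_symm (x y : E) : ang x y = ang y x := InnerProductGeometry.angle_comm x y

theorem ang_tri (x y z : E) : ang x z ≤ ang x y + ang y z :=
  InnerProductGeometry.angle_le_angle_add_angle x y z

theorem ang_neg (x y : E) : ang x (-y) = π - ang x y := InnerProductGeometry.angle_neg_right x y

theorem norm_sub_eq {x y : E} (hx : x ∈ S) (hy : y ∈ S) : ‖x - y‖ = 2 * sin (ang x y / 2) := by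
  have h1 : ‖x‖ = 1 := hx
  have h2 : ‖y‖ = 1 := hy
  have hs : 0 ≤ sin (ang x y / 2) := sin_nonneg_of_nonneg_of_le_pi (by linarith [ang_nonneg x y])
    (by linarith [ang_le_pi x y, ang_nonneg x y])
  have h3 : ‖x - y‖ ^ 2 = (2 * sin (ang x y / 2)) ^ 2 := by
    rw [@norm_sub_sq_real, h1, h2, ← cos_ang hx hy]
    have h4 : cos (ang x y) = 1 - 2 * sin (ang x y / 2) ^ 2 := by
      have := Real.cos_two_mul (ang x y / 2)
      have h5 := Real.sin_sq_add_cos_sq (ang x y / 2)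
      rw [show 2 * (ang x y / 2) = ang x y by ring] at this
      linarith
    rw [h4]
    ring
  exact (sq_eq_sq₀ (norm_nonneg _) (by positivity)).1 h3

theorem norm_sub_le_ang {x y : E} (hx : x ∈ S) (hy : y ∈ S) : ‖x - y‖ ≤ ang x y := by
  rw [norm_sub_eq hx hy]
  have := Real.sin_le (x := ang x y / 2) (by linarith [ang_nonneg x y])
  linarith

variable {h : E → ℝ} {C ε : ℝ} {D : E → E → ℝ}

theorem norm_le_two {x : E} (hx : x ∈ S) : ‖x‖ ≤ 2 := by
  have h1 : ‖x‖ = 1 := hx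
  rw [h1]
  norm_num

theorem crude_up (hR : Reg h C) (hM : Met h C ε D) (h0 : 0 < ε) (h1 : ε ≤ 1) {x y : E}
    (hx : x ∈ S) (hy : y ∈ S) : D x y ≤ ang x y * (1 + 6 * C * ε) := by
  refine (hM.up x hx y hy).trans (mul_le_mul_of_nonneg_left ?_ (ang_nonneg x y))
  have hC := hR.one_le
  have h2 : h x ≤ C := (le_abs_self _).trans (hR.bdd x (norm_le_two hx))
  have h3 : ang x y ≤ 4 := (ang_le_pi x y).trans (by linarith [Real.pi_lt_d2])
  have h4 : ε * h x ≤ ε * C := mul_le_mul_of_nonneg_left h2 h0.le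
  have h5 : C * ε * ang x y ≤ C * ε * 4 := mul_le_mul_of_nonneg_left h3 (by positivity)
  have h6 : C * ε ^ 2 ≤ C * ε * 1 := by
    rw [sq, ← mul_assoc]
    exact mul_le_mul_of_nonneg_left h1 (by positivity)
  linarith

theorem low_step (hR : Reg h C) (hM : Met h C ε D) (h0 : 0 < ε) (h1 : 3 * C * ε ≤ 1 / 2) (k : ℕ) :
    ∀ x ∈ S, ∀ y ∈ S, (1 - 3 * C * ε) * (2 ^ (k + 1) * sin (ang x y / 2 ^ (k + 1))) ≤ D x y := by
  have hC := hR.one_le
  have h2 : 0 ≤ 1 - 3 * C * ε := by linarith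
  induction k with
  | zero =>
    intro x hx y hy
    refine le_trans ?_ (hM.low x hx y hy)
    have h3 : (2:ℝ) ^ (0 + 1) * sin (ang x y / 2 ^ (0 + 1)) = ‖x - y‖ := by
      rw [norm_sub_eq hx hy]
      norm_num
    rw [h3, mul_comm]
    refine mul_le_mul_of_nonneg_left ?_ (norm_nonneg _)
    have h4 : - C ≤ h x := (abs_le.1 (hR.bdd x (norm_le_two hx))).1
    have h5 : ‖x - y‖ ≤ 2 := by
      refine (norm_sub_le _ _).trans ?_
      have a1 : ‖x‖ = 1 := hx
      have a2 : ‖y‖ = 1 := hy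
      rw [a1, a2]
      norm_num
    have h6 : ε * (-C) ≤ ε * h x := mul_le_mul_of_nonneg_left h4 h0.le
    have h7 : C * ε * ‖x - y‖ ≤ C * ε * 2 := mul_le_mul_of_nonneg_left h5 (by positivity)
    linarith
  | succ k ih =>
    intro x hx y hy
    have hsin : ∀ x' ∈ S, ∀ y' ∈ S, 0 ≤ sin (ang x' y' / 2 ^ (k + 1)) := by
      intro x' _ y' _
      refine sin_nonneg_of_nonneg_of_le_pi (div_nonneg (ang_nonneg _ _) (by positivity)) ?_
      refine (div_le_self (ang_nonneg _ _) (one_le_pow₀ (by norm_num))).trans (ang_le_pi _ _)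
    have hD : 0 ≤ D x y := le_trans (by have := hsin x hx y hy; positivity) (ih x hx y hy)
    obtain ⟨z, hz, hz1, hz2⟩ := hM.mid x hx y hy (D x y / 2) (by linarith) (by linarith)
    have i1 := ih x hx z hz
    have i2 := ih z hz y hy
    have ht := ang_tri x z y
    have hmono : ∀ a b : E, ang x y / 2 ≤ ang a b →
        sin (ang x y / 2 ^ (k + 1 + 1)) ≤ sin (ang a b / 2 ^ (k + 1)) := by
      intro a b hab
      apply Real.sin_le_sin_of_le_of_le_pi_div_two
      · have : 0 ≤ ang x y / 2 ^ (k + 1 + 1) := div_nonneg (ang_nonneg _ _) (by positivity)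
        linarith [Real.pi_pos]
      · have h3 : ang a b / 2 ^ (k + 1) ≤ ang a b / 2 := by
          refine div_le_div_of_nonneg_left (ang_nonneg _ _) (by norm_num) ?_
          calc (2:ℝ) = 2 ^ 1 := by norm_num
            _ ≤ 2 ^ (k + 1) := pow_le_pow_right₀ (by norm_num) (by omega)
        linarith [ang_le_pi a b]
      · rw [pow_succ (2:ℝ) (k + 1), ← div_div, div_right_comm]
        exact div_le_div_of_nonneg_right hab (by positivity)
    have hfin : (1 - 3 * C * ε) * (2 ^ (k + 1) * sin (ang x y / 2 ^ (k + 1 + 1))) ≤ D x y / 2 := by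
      rcases le_total (ang x y / 2) (ang x z) with h3 | h3
      · rw [hz1] at i1
        refine le_trans ?_ i1
        have := hmono x z h3
        gcongr
      · have h4 : ang x y / 2 ≤ ang z y := by linarith
        rw [hz2] at i2
        have := hmono z y h4
        have h5 : (1 - 3 * C * ε) * (2 ^ (k + 1) * sin (ang x y / 2 ^ (k + 1 + 1)))
          ≤ (1 - 3 * C * ε) * (2 ^ (k + 1) * sin (ang z y / 2 ^ (k + 1))) := by gcongr
        linarith
    have : (1 - 3 * C * ε) * (2 ^ (k + 1 + 1) * sin (ang x y / 2 ^ (k + 1 + 1)))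
      = 2 * ((1 - 3 * C * ε) * (2 ^ (k + 1) * sin (ang x y / 2 ^ (k + 1 + 1)))) := by
      rw [pow_succ (2:ℝ) (k + 1)]
      ring
    rw [this]
    linarith

theorem sin_lim (θ : ℝ) : Tendsto (fun k : ℕ => 2 ^ (k + 1) * sin (θ / 2 ^ (k + 1))) atTop (𝓝 θ) := by
  by_cases hθ : θ = 0
  · subst hθ
    simp
  have h1 : Tendsto (fun k : ℕ => θ / 2 ^ (k + 1)) atTop (𝓝 0) := by
    have h2 : Tendsto (fun k : ℕ => (2:ℝ) ^ (k + 1)) atTop atTop :=
      (tendsto_pow_atTop_atTop_of_one_lt (by norm_num : (1:ℝ) < 2)).comp (tendsto_add_atTop_nat 1)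
    exact h2.const_div_atTop θ
  have h3 : Tendsto (fun k : ℕ => θ / 2 ^ (k + 1)) atTop (𝓝[≠] 0) := by
    rw [tendsto_nhdsWithin_iff]
    refine ⟨h1, Eventually.of_forall fun k => ?_⟩
    simp [hθ]
  have h4 := (Real.hasDerivAt_sin 0).tendsto_slope
  have h5 := h4.comp h3
  have h6 : Tendsto (fun k : ℕ => θ * (slope sin 0 (θ / 2 ^ (k + 1)))) atTop (𝓝 (θ * cos 0)) :=
    h5.const_mul θ
  rw [cos_zero, mul_one] at h6
  refine h6.congr fun k => ?_
  simp only [slope_def_field, sin_zero, sub_zero]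
  field_simp

theorem crude_low (hR : Reg h C) (hM : Met h C ε D) (h0 : 0 < ε) (h1 : 3 * C * ε ≤ 1 / 2) {x y : E}
    (hx : x ∈ S) (hy : y ∈ S) : (1 - 3 * C * ε) * ang x y ≤ D x y :=
  le_of_tendsto ((sin_lim (ang x y)).const_mul _)
    (Eventually.of_forall fun k => low_step hR hM h0 h1 k x hx y hy)

theorem KK_lip (hR : Reg h C) {e q q' : E} (he : e ∈ S) (hq : q ∈ S) (hq' : q' ∈ S) :
    |KK h e q - KK h e q'| ≤ 2 * C * ‖q - q'‖ := by
  have hC := hR.one_le
  unfold KK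
  have hc : ∀ r : E, Continuous fun t : ℝ => h (cos t • e + sin t • r) := by
    intro r
    exact hR.cont.comp (by fun_prop)
  rw [← intervalIntegral.integral_sub ((hc q).intervalIntegrable _ _)
    ((hc q').intervalIntegrable _ _)]
  have hb : ∀ t ∈ Set.uIoc (0:ℝ) (π / 2),
      ‖h (cos t • e + sin t • q) - h (cos t • e + sin t • q')‖ ≤ C * ‖q - q'‖ := by
    intro t _
    have hn : ∀ r ∈ S, ‖cos t • e + sin t • r‖ ≤ 2 := by
      intro r hr
      have a1 : ‖e‖ = 1 := he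
      have a2 : ‖r‖ = 1 := hr
      calc ‖cos t • e + sin t • r‖ ≤ ‖cos t • e‖ + ‖sin t • r‖ := norm_add_le _ _
        _ = |cos t| + |sin t| := by rw [norm_smul, norm_smul, a1, a2]; simp
        _ ≤ 2 := by linarith [Real.abs_cos_le_one t, Real.abs_sin_le_one t]
    rw [Real.norm_eq_abs]
    refine (hR.lip _ _ (hn q hq) (hn q' hq')).trans ?_
    refine mul_le_mul_of_nonneg_left ?_ (by linarith)
    have : cos t • e + sin t • q - (cos t • e + sin t • q') = sin t • (q - q') := by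
      rw [smul_sub]; abel
    rw [this, norm_smul]
    calc ‖sin t‖ * ‖q - q'‖ ≤ 1 * ‖q - q'‖ :=
          mul_le_mul_of_nonneg_right (Real.abs_sin_le_one t) (norm_nonneg _)
      _ = ‖q - q'‖ := one_mul _
  have := intervalIntegral.norm_integral_le_of_norm_le_const hb
  rw [Real.norm_eq_abs] at this
  refine this.trans ?_
  rw [sub_zero, abs_of_pos (by positivity)]
  have h3 : π / 2 ≤ 2 := by linarith [Real.pi_lt_d2]
  have h4 : 0 ≤ C * ‖q - q'‖ := by positivity
  nlinarith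

theorem e3_bound (a : ℝ) (ha : |a| ≤ 1) : - (4/3 : ℝ) ≤ 4 / 3 * a ^ 3 := by
  have h := abs_le.1 ha
  nlinarith [sq_nonneg (a + 1), sq_nonneg a, sq_nonneg (a - 1), mul_nonneg (by linarith : 0 ≤ a + 1) (sq_nonneg (a - 1)), mul_nonneg (by linarith : 0 ≤ a + 1) (sq_nonneg a)]

theorem neg_mem {x : E} (hx : x ∈ S) : -x ∈ S := by
  have : ‖x‖ = 1 := hx
  show ‖-x‖ = 1
  rw [norm_neg, this]

theorem coord_le {x : E} (hx : x ∈ S) (i : Fin 3) : |x i| ≤ 1 := by
  have h1 : ‖x‖ = 1 := hx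
  rw [← h1]
  exact PiLp.norm_apply_le x i

theorem Q_bound (a b : ℝ) (ha : |a| ≤ 1) (hb : |b| ≤ 1) :
    |4 + 16 / 3 * (a ^ 2 - 3 * b ^ 2) + 32 / 15 * (a ^ 4 - 10 * a ^ 2 * b ^ 2 + 5 * b ^ 4)| ≤ 60 := by
  have h1 : a ^ 2 ≤ 1 := by rw [← sq_abs]; exact pow_le_one₀ (abs_nonneg _) ha
  have h2 : b ^ 2 ≤ 1 := by rw [← sq_abs]; exact pow_le_one₀ (abs_nonneg _) hb
  have h3 : 0 ≤ a ^ 2 := sq_nonneg a
  have h4 : 0 ≤ b ^ 2 := sq_nonneg b
  have h5 : a ^ 4 = (a ^ 2) ^ 2 := by ring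
  have h6 : b ^ 4 = (b ^ 2) ^ 2 := by ring
  rw [h5, h6]
  generalize a ^ 2 = u at *
  generalize b ^ 2 = w at *
  have h7 : 0 ≤ u * w := mul_nonneg h3 h4
  have h8 : u * w ≤ 1 := by nlinarith
  have h9 : u ^ 2 ≤ 1 := by nlinarith
  have h10 : w ^ 2 ≤ 1 := by nlinarith
  rw [abs_le]
  constructor <;> nlinarith [sq_nonneg u, sq_nonneg w]

set_option maxHeartbeats 4000000 in
theorem main (hKE : KEStmt) : RadStmt := by
  intro C hR
  have hC := hR.one_le
  obtain ⟨B, hB, ε1, hε1, hKE'⟩ := hKE h0 C hR (36 * C)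
  refine ⟨min ε1 (min (1 / (6 * C)) (min (1 / (8000 * C ^ 2)) ((1 / (16 * B)) ^ 2))),
    by positivity, ?_⟩
  intro ε hε hlt D hM
  have b1 : ε < ε1 := hlt.trans_le (min_le_left _ _)
  have b2 : ε < 1 / (6 * C) := hlt.trans_le ((min_le_right _ _).trans (min_le_left _ _))
  have b3 : ε < 1 / (8000 * C ^ 2) :=
    hlt.trans_le ((min_le_right _ _).trans ((min_le_right _ _).trans (min_le_left _ _)))
  have b4 : ε < (1 / (16 * B)) ^ 2 :=
    hlt.trans_le ((min_le_right _ _).trans ((min_le_right _ _).trans (min_le_right _ _)))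
  have c2 : 6 * C * ε < 1 := by
    rw [lt_div_iff₀ (by positivity)] at b2
    linarith
  have c3 : 8000 * C ^ 2 * ε < 1 := by
    rw [lt_div_iff₀ (by positivity)] at b3
    linarith
  have c3' : 8000 * C * ε < 1 := by
    refine lt_of_le_of_lt ?_ c3
    have : C ≤ C ^ 2 := by nlinarith
    have h1 : 0 ≤ 8000 * ε := by positivity
    nlinarith
  have c4 : 16 * B * √ε < 1 := by
    have h1 : √ε < 1 / (16 * B) := by
      rw [← Real.sqrt_sq (by positivity : 0 ≤ 1 / (16 * B))]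
      exact Real.sqrt_lt_sqrt hε.le b4
    rw [lt_div_iff₀ (by positivity)] at h1
    linarith
  have hε1' : ε ≤ 1 := by nlinarith
  have h3C : 3 * C * ε ≤ 1 / 2 := by linarith
  have hpi4 : π ≤ 4 := by linarith [Real.pi_lt_d2]
  have hsq : 0 ≤ √ε := Real.sqrt_nonneg ε
  obtain ⟨p1, hp1def⟩ : ∃ p : E, p = !₂[(0:ℝ), 0, 1] := ⟨_, rfl⟩
  obtain ⟨p2, hp2def⟩ : ∃ p : E, p = !₂[(1:ℝ), 0, 0] := ⟨_, rfl⟩
  have hp1 : p1 ∈ S := by
    show ‖p1‖ = 1
    rw [hp1def, EuclideanSpace.norm_eq]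
    simp [Fin.sum_univ_three]
  have hp2 : p2 ∈ S := by
    show ‖p2‖ = 1
    rw [hp2def, EuclideanSpace.norm_eq]
    simp [Fin.sum_univ_three]
  have hq2 : -p2 ∈ S := neg_mem hp2
  refine ⟨p1, hp1, p2, hp2, -p2, hq2, ?_⟩
  -- lower bound
  have hlow : π - 4 / 3 * ε - 2160 * C * ε * ε - 2 * B * (ε * √ε) ≤ D p2 (-p2) := by
    obtain ⟨d, hd⟩ : ∃ d, d = D p2 (-p2) := ⟨_, rfl⟩
    have hd0 : 0 ≤ d := by
      rw [hd]
      refine le_trans ?_ (crude_low hR hM hε h3C hp2 hq2)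
      exact mul_nonneg (by linarith) (ang_nonneg _ _)
    have hdup : d ≤ π * (1 + 6 * C * ε) := by
      rw [hd]
      refine (crude_up hR hM hε hε1' hp2 hq2).trans ?_
      exact mul_le_mul_of_nonneg_right (ang_le_pi _ _) (by positivity)
    obtain ⟨y, hy, hy1, hy2⟩ := hM.mid p2 hp2 (-p2) hq2 (d / 2) (by linarith) (by rw [← hd]; linarith)
    rw [← hd] at hy2
    have g1 := crude_low hR hM hε h3C hp2 hy
    have g2 := crude_low hR hM hε h3C hy hq2
    rw [hy1] at g1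
    rw [hy2] at g2
    have hbd : ∀ a : ℝ, (1 - 3 * C * ε) * a ≤ d / 2 → a ≤ π / 2 + 36 * C * ε := by
      intro a ha
      by_contra hcon
      push Not at hcon
      have h1 : (1 - 3 * C * ε) * (π / 2 + 36 * C * ε) < (1 - 3 * C * ε) * a :=
        mul_lt_mul_of_pos_left hcon (by linarith)
      have ht : 0 ≤ C * ε := by positivity
      have hpi := Real.pi_lt_d2
      have hpi3 := Real.pi_gt_three
      nlinarith [mul_nonneg ht (by linarith : 0 ≤ 1 - 6 * C * ε), mul_nonneg ht (by linarith : (0:ℝ) ≤ 3.15 - π)]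
    have k1 := hbd _ g1
    have k2 := hbd _ (by linarith : (1 - 3 * C * ε) * ang y (-p2) ≤ d / 2)
    rw [ang_neg, ang_symm y p2] at k2
    have hinn : |inner ℝ p2 y| ≤ 36 * C * ε := by
      rw [← cos_ang hp2 hy, ← Real.sin_pi_div_two_sub]
      refine Real.abs_sin_le_abs.trans ?_
      rw [abs_le]
      constructor <;> linarith
    have hinn2 : inner ℝ y (-p2) = - inner ℝ p2 y := by
      rw [inner_neg_right, real_inner_comm]
    have e1 := (abs_le.1 (hKE' ε hε b1 D hM p2 hp2 y hy hinn)).1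
    have e2 := (abs_le.1 (hKE' ε hε b1 D hM y hy (-p2) hq2 (by rw [hinn2, abs_neg]; exact hinn))).1
    rw [hy1] at e1
    rw [hy2, hinn2] at e2
    have hy0 : inner ℝ p2 y = y 0 := by
      rw [PiLp.inner_apply, hp2def]
      simp [Fin.sum_univ_three]
    have hKK := ST2.KK_sum p2 y
    have hp20 : p2 0 = 1 := by rw [hp2def]; rfl
    have hp21 : p2 1 = 0 := by rw [hp2def]; rfl
    have hp22 : p2 2 = 0 := by rw [hp2def]; rfl
    rw [hp20, hp21, hp22] at hKK
    have hKK2 : KK h0 p2 y + KK h0 y (-p2) = 4 / 3 * y 2 ^ 3 + y 0 * (4 + 16 / 3 * (y 0 ^ 2 - 3 * y 1 ^ 2)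
      + 32 / 15 * (y 0 ^ 4 - 10 * y 0 ^ 2 * y 1 ^ 2 + 5 * y 1 ^ 4)) := by
      rw [hKK]; ring
    have hQ := Q_bound (y 0) (y 1) (coord_le hy 0) (coord_le hy 1)
    have h3 := e3_bound (y 2) (coord_le hy 2)
    have hprod : - (2160 * C * ε) ≤ y 0 * (4 + 16 / 3 * (y 0 ^ 2 - 3 * y 1 ^ 2)
      + 32 / 15 * (y 0 ^ 4 - 10 * y 0 ^ 2 * y 1 ^ 2 + 5 * y 1 ^ 4)) := by
      refine le_trans ?_ (neg_abs_le _)
      rw [abs_mul]
      rw [hy0] at hinn
      have := mul_le_mul hinn hQ (abs_nonneg _) (by positivity)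
      linarith
    have hsum : -(4 / 3) - 2160 * C * ε ≤ KK h0 p2 y + KK h0 y (-p2) := by
      rw [hKK2]
      linarith
    have hsum2 := mul_le_mul_of_nonneg_left hsum hε.le
    rw [← hd]
    linarith
  intro q hq
  refine lt_of_lt_of_le ?_ hlow
  have hcC : 0 ≤ C * ε := by positivity
  by_cases hcase : (24 * C + 2) * ε ≤ ‖p1 - (-q)‖
  · have h1 := crude_up hR hM hε hε1' hp1 hq
    have h2 : ang p1 q ≤ π - (24 * C + 2) * ε := by
      have h3 := norm_sub_le_ang hp1 (neg_mem hq)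
      rw [ang_neg] at h3
      linarith
    have h3 : D p1 q ≤ π - 2 * ε := by
      refine h1.trans ((mul_le_mul_of_nonneg_right h2 (by positivity)).trans ?_)
      have h4 : 0 ≤ (24 * C + 2) * ε * (6 * C * ε) := by positivity
      nlinarith [mul_nonneg hcC (by linarith : 0 ≤ 4 - π)]
    refine lt_of_le_of_lt h3 ?_
    have h5 : 2 * B * (ε * √ε) ≤ ε * (1 / 8) := by nlinarith
    have h6 : 2160 * C * ε * ε ≤ ε * (1 / 3) := by nlinarith
    linarith
  · push Not at hcase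
    have hn : ‖q - (-p1)‖ ≤ 26 * C * ε := by
      have h1 : q - (-p1) = p1 - (-q) := by abel
      rw [h1]
      nlinarith
    have hgen : ∀ e ∈ S, inner ℝ p1 e = 0 → D p1 q ≤ π - inner ℝ e q
        + ε * (KK h0 p1 e + KK h0 e (-p1)) + 2 * B * (ε * √ε) + 52 * C ^ 2 * ε * ε := by
      intro e he hpe
      have t1 := hM.tri p1 hp1 e he q hq
      have e1 := (abs_le.1 (hKE' ε hε b1 D hM p1 hp1 e he (by rw [hpe, abs_zero]; positivity))).2
      have hie : inner ℝ e q = inner ℝ e (q - (-p1)) := by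
        rw [inner_sub_right, inner_neg_right, real_inner_comm p1 e, hpe]
        ring
      have hie2 : |inner ℝ e q| ≤ 36 * C * ε := by
        rw [hie]
        have h1 : ‖e‖ = 1 := he
        have h2 := abs_real_inner_le_norm e (q - (-p1))
        rw [h1, one_mul] at h2
        linarith
      have e2 := (abs_le.1 (hKE' ε hε b1 D hM e he q hq hie2)).2
      have e3 := (abs_le.1 (KK_lip hR he hq (neg_mem hp1))).2
      have e4 : KK h0 e q ≤ KK h0 e (-p1) + 52 * C ^ 2 * ε := by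
        have h1 : 2 * C * ‖q - (-p1)‖ ≤ 2 * C * (26 * C * ε) :=
          mul_le_mul_of_nonneg_left hn (by positivity)
        nlinarith
      have e5 := mul_le_mul_of_nonneg_left e4 hε.le
      rw [hpe] at e1
      linarith
    have hp10 : p1 0 = 0 := by rw [hp1def]; rfl
    have hp11 : p1 1 = 0 := by rw [hp1def]; rfl
    have hp12 : p1 2 = 1 := by rw [hp1def]; rfl
    have hspec : ∀ a b : ℝ, a ^ 2 + b ^ 2 = 1 → D p1 q ≤ π - (a * q 0 + b * q 1)
        + ε * (32 / 15 * (a ^ 5 - 10 * a ^ 3 * b ^ 2 + 5 * a * b ^ 4)) + 2 * B * (ε * √ε)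
        + 52 * C ^ 2 * ε * ε := by
      intro a b hab
      have he : (!₂[a, b, 0] : E) ∈ S := by
        show ‖(!₂[a, b, 0] : E)‖ = 1
        rw [EuclideanSpace.norm_eq]
        simp [Fin.sum_univ_three, hab]
      have h1 := hgen _ he (by rw [PiLp.inner_apply, hp1def]; simp [Fin.sum_univ_three])
      have h2 : inner ℝ (!₂[a, b, 0] : E) q = a * q 0 + b * q 1 := by
        rw [PiLp.inner_apply]
        simp [Fin.sum_univ_three]
        ring
      have h3 : KK h0 p1 (!₂[a, b, 0] : E) + KK h0 (!₂[a, b, 0] : E) (-p1)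
          = 32 / 15 * (a ^ 5 - 10 * a ^ 3 * b ^ 2 + 5 * a * b ^ 4) := by
        rw [ST2.KK_sum, hp10, hp11, hp12]
        simp
      rw [h2, h3] at h1
      exact h1
    have s1 := hspec (4/5) (3/5) (by norm_num)
    have s2 := hspec (4/5) (-3/5) (by norm_num)
    have s3 := hspec (-1) 0 (by norm_num)
    norm_num at s1 s2 s3
    have h5 : B * (ε * √ε) ≤ ε * (1 / 16) := by nlinarith
    have h6 : 2160 * C * ε * ε ≤ ε * (27 / 100) := by nlinarith
    have h7 : 52 * C ^ 2 * ε * ε ≤ ε * (1 / 100) := by nlinarith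
    linarith

end Pool.Agent.W63.ST3
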