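import Pool.Agent.W257.CStm

open Polynomial Finset

namespace Pool.Agent.W63.SHt

open Pool.Agent.W257 Pool.Agent.H322R2

theorem iteratedDeriv_eval (q : ℂ[X]) (n : ℕ) :
    iteratedDeriv n (fun z => q.eval z) = fun z => (derivative^[n] q).eval z := by
  induction n with
  | zero => simp
  | succ n ih =>
    rw [iteratedDeriv_succ, ih]
    funext z
    rw [Polynomial.deriv, Function.iterate_succ_apply']

theorem coeff_bound (q : ℂ[X]) (R c : ℝ) (hR : 0 < R) (h : ∀ z : ℂ, ‖z‖ = R → ‖q.eval z‖ ≤ c)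
    (i : ℕ) : ‖q.coeff i‖ * R ^ i ≤ c := by
  have h1 := Complex.norm_iteratedDeriv_le_of_forall_mem_sphere_norm_le (c := 0) (R := R) (C := c)
    (f := fun z => q.eval z) i hR
    (q.differentiable.diffContOnCl) (by
      intro z hz
      exact h z (by simpa using hz))
  rw [iteratedDeriv_eval] at h1
  simp only at h1
  rw [← coeff_zero_eq_eval_zero, coeff_iterate_derivative, zero_add, Nat.descFactorial_self,
    nsmul_eq_mul, norm_mul] at h1
  have h2 : ‖((i.factorial : ℕ) : ℂ)‖ = (i.factorial : ℝ) := Complex.norm_natCast _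
  rw [h2, mul_div_assoc] at h1
  have h3 : (0 : ℝ) < i.factorial := by exact_mod_cast i.factorial_pos
  have h4 := le_of_mul_le_mul_left h1 h3
  rwa [le_div_iff₀ (pow_pos hR _)] at h4

theorem natDegree_le_of_growth (q : ℤ[X]) (k : ℕ) (c : ℝ)
    (h : ∀ z : ℂ, 1 ≤ ‖z‖ → ‖evf z q‖ ≤ c * ‖z‖ ^ k) :
    q.natDegree ≤ k ∧ ∀ i, |((q.coeff i : ℤ) : ℝ)| ≤ c := by
  have hev : ∀ z : ℂ, (q.map (Int.castRingHom ℂ)).eval z = evf z q := by
    intro z
    rw [eval_map]; rfl
  have h1 : ∀ (i : ℕ) (R : ℝ), 1 ≤ R → |((q.coeff i : ℤ) : ℝ)| * R ^ i ≤ c * R ^ k := by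
    intro i R hR
    have h2 := coeff_bound (q.map (Int.castRingHom ℂ)) R (c * R ^ k) (by linarith) (by
      intro z hz
      rw [hev, ← hz]
      exact h z (by rw [hz]; exact hR)) i
    rw [coeff_map] at h2
    have h3 : ‖(Int.castRingHom ℂ) (q.coeff i)‖ = |((q.coeff i : ℤ) : ℝ)| := by
      simp
    rwa [h3] at h2
  refine ⟨?_, fun i => by simpa using h1 i 1 le_rfl⟩
  rw [natDegree_le_iff_coeff_eq_zero]
  intro i hi
  by_contra hne
  have h2 : (1 : ℝ) ≤ |((q.coeff i : ℤ) : ℝ)| := by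
    have : (1 : ℤ) ≤ |q.coeff i| := Int.one_le_abs hne
    exact_mod_cast this
  have h3 := h1 i 1 le_rfl
  simp only [one_pow, mul_one] at h3
  have hc : 1 ≤ c := h2.trans h3
  have h4 := h1 i (c + 1) (by linarith)
  have h5 : (c + 1) ^ i ≤ c * (c + 1) ^ k := by
    refine le_trans ?_ h4
    have : 0 ≤ (c + 1) ^ i := by positivity
    nlinarith
  have h6 : (c + 1) ^ (k + 1) ≤ (c + 1) ^ i := pow_le_pow_right₀ (by linarith) hi
  have h7 : 0 < (c + 1) ^ k := by positivity
  rw [pow_succ] at h6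
  nlinarith

theorem exists_fin_roots (p : ℂ[X]) (m : ℕ) (hp : p.Monic) (hd : p.natDegree = m) :
    ∃ φ : Fin m → ℂ, p = ∏ i, (X - C (φ i)) := by
  have hs : p.Splits := IsAlgClosed.splits p
  have hcr : p.roots.card = m := by
    rw [← hd]
    exact (splits_iff_card_roots.1 hs)
  obtain ⟨l, hl⟩ : ∃ l : List ℂ, (l : Multiset ℂ) = p.roots := Quot.exists_rep _
  have hlen : l.length = m := by
    rw [← hl] at hcr
    simpa using hcr
  have hprod : p = (l.map fun a => X - C a).prod := by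
    have h1 := hs.eq_prod_roots_of_monic hp
    rw [← hl] at h1
    simpa using h1
  subst hlen
  refine ⟨l.get, ?_⟩
  conv_lhs => rw [hprod, ← List.ofFn_get l, List.map_ofFn, List.prod_ofFn]
  rfl

theorem evf_le (q : ℤ[X]) (k : ℕ) (hq : q.natDegree ≤ k) (z : ℂ) (hz : 1 ≤ ‖z‖) :
    ‖evf z q‖ ≤ pn zn q * ‖z‖ ^ k := by
  rw [evf_sum z q (Nat.lt_succ_of_le hq), pn_eq_range zn q (Nat.lt_succ_of_le hq), Finset.sum_mul]
  refine (norm_sum_le _ _).trans (Finset.sum_le_sum fun i hi => ?_)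
  rw [norm_mul, norm_pow]
  have h1 : ‖((q.coeff i : ℤ) : ℂ)‖ = zn (q.coeff i) := by
    rw [zn_apply]; simp
  rw [h1]
  apply mul_le_mul_of_nonneg_left _ (apply_nonneg _ _)
  apply pow_le_pow_right₀ hz
  have := Finset.mem_range.1 hi
  omega

theorem root_le (m : ℕ) (hm : 1 ≤ m) (f : ℤ[X][X]) (hf : f.Monic) (hd : f.natDegree = m)
    (hdeg : ∀ j, (f.coeff j).natDegree ≤ m - j) (h : ℝ) (hh : 1 ≤ h) (hpn : pn (pn zn) f ≤ h)
    (z : ℂ) (hz : 1 ≤ ‖z‖) (w : ℂ) (hw : (f.map (evf z)).IsRoot w) : ‖w‖ ≤ h * ‖z‖ := by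
  by_contra hcon
  push Not at hcon
  have hz0 : 0 < ‖z‖ := by linarith
  set u := ‖w‖ / ‖z‖ with hu
  have hwu : ‖w‖ = u * ‖z‖ := by rw [hu]; field_simp
  have hu1 : h < u := by rw [hu, lt_div_iff₀ hz0]; exact hcon
  have h1 : (∑ j ∈ range m, evf z (f.coeff j) * w ^ j) + w ^ m = 0 := by
    have h2 : (f.map (evf z)).eval w = 0 := hw
    rw [eval_map, eval₂_eq_sum_range' (evf z) (n := m + 1) (by omega), Finset.sum_range_succ] at h2
    have h3 : f.coeff m = 1 := by rw [← hd]; exact hf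
    rw [h3, map_one, one_mul] at h2
    exact h2
  have h2 : ‖w‖ ^ m ≤ ∑ j ∈ range m, pn zn (f.coeff j) * ‖z‖ ^ (m - j) * ‖w‖ ^ j := by
    have h3 : w ^ m = -∑ j ∈ range m, evf z (f.coeff j) * w ^ j := by linear_combination h1
    rw [← norm_pow, h3, norm_neg]
    refine (norm_sum_le _ _).trans (Finset.sum_le_sum fun j _ => ?_)
    rw [norm_mul, norm_pow]
    apply mul_le_mul_of_nonneg_right _ (by positivity)
    exact evf_le _ _ (hdeg j) z hz
  have h3 : u ^ m ≤ ∑ j ∈ range m, pn zn (f.coeff j) * u ^ j := by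
    have h4 : u ^ m * ‖z‖ ^ m ≤ (∑ j ∈ range m, pn zn (f.coeff j) * u ^ j) * ‖z‖ ^ m := by
      rw [← mul_pow, ← hwu, Finset.sum_mul]
      refine h2.trans (le_of_eq (Finset.sum_congr rfl fun j hj => ?_))
      have hj' : j < m := Finset.mem_range.1 hj
      rw [hwu, mul_pow]
      have : ‖z‖ ^ m = ‖z‖ ^ (m - j) * ‖z‖ ^ j := by
        rw [← pow_add]; congr 1; omega
      rw [this]; ring
    exact le_of_mul_le_mul_right h4 (by positivity)
  have hu0 : 1 ≤ u := by linarith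
  have h4 : ∑ j ∈ range m, pn zn (f.coeff j) * u ^ j
      ≤ (∑ j ∈ range m, pn zn (f.coeff j)) * u ^ (m - 1) := by
    rw [Finset.sum_mul]
    refine Finset.sum_le_sum fun j hj => ?_
    apply mul_le_mul_of_nonneg_left _ (apply_nonneg _ _)
    apply pow_le_pow_right₀ hu0
    have := Finset.mem_range.1 hj
    omega
  have h5 : ∑ j ∈ range m, pn zn (f.coeff j) ≤ h - 1 := by
    rw [pn_eq_range (pn zn) f (n := m + 1) (by omega), Finset.sum_range_succ] at hpn
    have h6 : f.coeff m = 1 := by rw [← hd]; exact hf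
    rw [h6, pn_one, zn_apply] at hpn
    norm_num at hpn
    linarith
  have h6 : u ^ m = u * u ^ (m - 1) := by
    rw [← pow_succ']; congr 1; omega
  have h7 : 0 < u ^ (m - 1) := by positivity
  have h8 : u * u ^ (m - 1) ≤ (h - 1) * u ^ (m - 1) := by
    rw [← h6]
    exact h3.trans (h4.trans (mul_le_mul_of_nonneg_right h5 h7.le))
  have h9 := le_of_mul_le_mul_right h8 h7
  linarith

theorem main : S_ht := by
  intro m g f F h b hm hg hgd hf hfd hfdeg hh hpn hb hgb hres
  obtain ⟨hF, hFd, hres⟩ := hres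
  set N := m.factorial with hN
  have key : ∀ z : ℂ, 1 ≤ ‖z‖ → ∀ j, ‖evf z (F.coeff j)‖ ≤
      (N.choose j * (m * b * h) ^ (N - j)) * ‖z‖ ^ (N - j) := by
    intro z hz j
    obtain ⟨β, hβ⟩ := exists_fin_roots (g.map (Int.castRingHom ℂ)) m (hg.map _)
      (by rw [hg.natDegree_map, hgd])
    obtain ⟨φ, hφ⟩ := exists_fin_roots (f.map (evf z)) m (hf.map _)
      (by rw [hf.natDegree_map, hfd])
    have h1 := hres ℂ z β φ hβ hφ
    have hβb : ∀ i, ‖β i‖ ≤ b := by
      intro i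
      apply hgb
      have h2 : (g.map (Int.castRingHom ℂ)).eval (β i) = 0 := by
        rw [hβ, eval_prod]
        apply Finset.prod_eq_zero (Finset.mem_univ i)
        simp
      rw [eval_map] at h2
      exact h2
    have hφb : ∀ i, ‖φ i‖ ≤ h * ‖z‖ := by
      intro i
      apply root_le m hm f hf hfd hfdeg h hh hpn z hz
      rw [IsRoot.def, hφ, eval_prod]
      apply Finset.prod_eq_zero (Finset.mem_univ i)
      simp
    have hz0 : 0 < ‖z‖ := by linarith
    have h2 := coeff_le_of_roots_le (p := F) (f := evf z) (B := m * b * h * ‖z‖) j hF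
      (IsAlgClosed.splits _) (by
        intro w hw
        rw [h1, mem_roots (monic_prod_of_monic _ _ fun σ _ => monic_X_sub_C _).ne_zero,
          IsRoot.def, eval_prod, Finset.prod_eq_zero_iff] at hw
        obtain ⟨σ, _, hσ⟩ := hw
        rw [eval_sub, eval_X, eval_C, sub_eq_zero] at hσ
        rw [hσ]
        refine (norm_sum_le _ _).trans ?_
        have h3 : ∀ i ∈ (Finset.univ : Finset (Fin m)), ‖β i * φ (σ i)‖ ≤ b * (h * ‖z‖) := by
          intro i _
          rw [norm_mul]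
          exact mul_le_mul (hβb i) (hφb _) (norm_nonneg _) (by linarith)
        refine (Finset.sum_le_sum h3).trans (le_of_eq ?_)
        simp
        ring)
    rw [coeff_map, hFd] at h2
    refine h2.trans (le_of_eq ?_)
    rw [mul_pow]; ring
  have key2 : ∀ j, (F.coeff j).natDegree ≤ N - j ∧
      ∀ i, |(((F.coeff j).coeff i : ℤ) : ℝ)| ≤ N.choose j * (m * b * h) ^ (N - j) := fun j =>
    natDegree_le_of_growth _ _ _ fun z hz => key z hz j
  refine ⟨fun j => (key2 j).1, ?_⟩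
  rw [pn_eq_range (pn zn) F (n := N + 1) (by omega)]
  have h1 : ∀ j ∈ range (N + 1), pn zn (F.coeff j) ≤
      (N + 1) * ((1 : ℝ) ^ j * (m * b * h) ^ (N - j) * N.choose j) := by
    intro j _
    rw [pn_eq_range zn (F.coeff j) (n := N + 1) (by have := (key2 j).1; omega)]
    refine (Finset.sum_le_card_nsmul _ _ _ fun i _ => ((key2 j).2 i)).trans (le_of_eq ?_)
    rw [Finset.card_range, nsmul_eq_mul]
    push_cast
    ring
  refine (Finset.sum_le_sum h1).trans (le_of_eq ?_)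
  rw [← Finset.mul_sum, add_pow]

end Pool.Agent.W63.SHt
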