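import Pool.Agent.W428.MOT.Stm

/-!
Project MT of helper428: final assembly.
-/

set_option autoImplicit false

namespace Pool.Agent.W63.MTFin

open Pool.Agent.W428.MOT
open Pool.Agent.W426.SM (AffInd gord ford IsRay face)

/-- the image of an additive invariant under a ring homomorphism -/
def mapMeas {K : Type} [Field K] {R R' : Type} [CommRing R] [CommRing R'] (M : Meas K R)
    (f : R →+* R') : Meas K R' where
  χ ι _ S := f (M.χ ι S)
  iso S T hS hT g h hg hh h1 h2 h3 h4 := congrArg f (M.iso S T hS hT g h hg hh h1 h2 h3 h4)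
  add S T hS hT h := by rw [M.add S T hS hT h, map_add]
  prod S T hS hT := by rw [M.prod S T hS hT, map_mul]
  point := by
    intro ι _ _
    rw [M.point, map_one]

variable {K : Type} [Field K]

theorem geo_mul (a b : ℤ) (hb : 0 < b) :
    (1 - PowerSeries.C (((Lu K) ^ a : (MK K)ˣ) : MK K) * PowerSeries.X ^ b.toNat) *
      geo K a b = 1 := by
  unfold geo
  refine PowerSeries.mul_invOfUnit _ 1 ?_
  have hb' : b.toNat ≠ 0 := by omega
  simp [hb']

theorem geo_mem {S : Set (ℤ × ℤ)} {p : ℤ × ℤ} (hp : p ∈ S) : geo K p.1 p.2 ∈ ratRing K S :=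
  Algebra.subset_adjoin (Or.inr ⟨p, hp, rfl⟩)

theorem X_mem (S : Set (ℤ × ℤ)) : (PowerSeries.X : PowerSeries (MK K)) ∈ ratRing K S :=
  Algebra.subset_adjoin (Or.inl rfl)

theorem C_mem (S : Set (ℤ × ℤ)) (a : MK K) : PowerSeries.C a ∈ ratRing K S := by
  have := (ratRing K S).algebraMap_mem a
  simpa [PowerSeries.algebraMap_apply] using this

theorem poly_mem (S : Set (ℤ × ℤ)) (P : Polynomial (MK K)) :
    (P : PowerSeries (MK K)) ∈ ratRing K S := by
  induction P using Polynomial.induction_on' with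
  | add p q hp hq =>
    rw [Polynomial.coe_add]
    exact (ratRing K S).add_mem hp hq
  | monomial n a =>
    rw [← Polynomial.C_mul_X_pow_eq_monomial, Polynomial.coe_mul, Polynomial.coe_C,
      Polynomial.coe_pow, Polynomial.coe_X]
    exact (ratRing K S).mul_mem (C_mem S a) ((ratRing K S).pow_mem (X_mem S) n)

/-- the shifted geometric sums -/
theorem geo_sum {R : Type} [CommRing R] (Y : R) (c : ℕ → R) (e : ℕ) (he : 0 < e) :
    (PowerSeries.mk fun N => ∑ l ∈ Finset.Icc 1 N, if e * l ≤ N then Y ^ l * c (N - e * l) else 0) *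
      (1 - PowerSeries.C Y * PowerSeries.X ^ e) =
    PowerSeries.C Y * PowerSeries.X ^ e * PowerSeries.mk c := by
  set D : ℕ → R := fun N => ∑ l ∈ Finset.Icc 1 N, if e * l ≤ N then Y ^ l * c (N - e * l) else 0
    with hD
  have h0 : ∀ N, D N = ∑ l ∈ Finset.range N,
      if e * (l + 1) ≤ N then Y ^ (l + 1) * c (N - e * (l + 1)) else 0 := by
    intro N
    rw [hD]
    simp only
    rw [Finset.range_eq_Ico, Finset.sum_Ico_add' (fun l => if e * l ≤ N then
      Y ^ l * c (N - e * l) else 0) 0 N 1]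
    rfl
  have h1 : ∀ N, N < e → D N = 0 := by
    intro N hN
    rw [h0]
    refine Finset.sum_eq_zero fun l _ => if_neg ?_
    have : e * 1 ≤ e * (l + 1) := Nat.mul_le_mul_left e (by omega)
    omega
  have h2 : ∀ M, D (M + e) = Y * c M + Y * D M := by
    intro M
    obtain ⟨e', rfl⟩ : ∃ e', e = e' + 1 := ⟨e - 1, by omega⟩
    rw [h0, show M + (e' + 1) = (M + e') + 1 by ring, Finset.sum_range_succ', zero_add, mul_one,
      if_pos (by omega), pow_one, show M + e' + 1 - (e' + 1) = M by omega, add_comm]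
    congr 1
    rw [h0, Finset.mul_sum, Finset.sum_range_add]
    have h3 : ∑ x ∈ Finset.range e', (if (e' + 1) * (M + x + 1 + 1) ≤ M + e' + 1 then
        Y ^ (M + x + 1 + 1) * c (M + e' + 1 - (e' + 1) * (M + x + 1 + 1)) else 0) = 0 := by
      refine Finset.sum_eq_zero fun l _ => if_neg ?_
      have : (e' + 1) * (M + l + 1 + 1) = (M + l + 2) + e' * (M + l + 2) := by ring
      have h4 : e' * 1 ≤ e' * (M + l + 2) := Nat.mul_le_mul_left _ (by omega)
      omega
    rw [h3, add_zero]
    refine Finset.sum_congr rfl fun l _ => ?_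
    have h4 : (e' + 1) * (l + 1 + 1) = (e' + 1) * (l + 1) + (e' + 1) := by ring
    by_cases h : (e' + 1) * (l + 1) ≤ M
    · rw [if_pos h, if_pos (by omega), show M + e' + 1 - (e' + 1) * (l + 1 + 1) =
        M - (e' + 1) * (l + 1) by omega]
      ring
    · rw [if_neg h, if_neg (by omega), mul_zero]
  ext N
  rw [mul_sub, mul_one, map_sub, PowerSeries.coeff_mk]
  rw [show (PowerSeries.mk D) * (PowerSeries.C Y * PowerSeries.X ^ e) =
    PowerSeries.C Y * (PowerSeries.X ^ e * PowerSeries.mk D) by ring,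
    show PowerSeries.C Y * PowerSeries.X ^ e * PowerSeries.mk c =
    PowerSeries.C Y * (PowerSeries.X ^ e * PowerSeries.mk c) by ring,
    PowerSeries.coeff_C_mul, PowerSeries.coeff_C_mul, PowerSeries.coeff_X_pow_mul',
    PowerSeries.coeff_X_pow_mul']
  by_cases hN : e ≤ N
  · obtain ⟨M, rfl⟩ : ∃ M, N = M + e := ⟨N - e, by omega⟩
    rw [if_pos hN, if_pos hN, h2, Nat.add_sub_cancel, PowerSeries.coeff_mk, PowerSeries.coeff_mk]
    ring
  · rw [if_neg hN, if_neg hN, h1 N (by omega)]
    ring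

/-- the class of the affine line is invertible -/
theorem L_mul {M : Meas K (K0 K)} (hM : ∀ (ι : Type) [Fintype ι] (S : Set (Pt K ι)),
    M.χ ι S = cls ι S) : (mapMeas M (algebraMap (K0 K) (MK K))).L *
      (((Lu K)⁻¹ : (MK K)ˣ) : MK K) = 1 := by
  have h : (mapMeas M (algebraMap (K0 K) (MK K))).L = ((Lu K : (MK K)ˣ) : MK K) := by
    change algebraMap (K0 K) (MK K) (M.χ (Fin 1) Set.univ) = _
    rw [hM]
    rfl
  rw [h, Units.mul_inv]

/-- the specialisation `X ↦ 𝕃⁻¹` of the polynomials with integer coefficients -/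
noncomputable def ev (K : Type) [Field K] : Polynomial ℤ →+* MK K :=
  Polynomial.eval₂RingHom (Int.castRingHom (MK K)) (((Lu K)⁻¹ : (MK K)ˣ) : MK K)

theorem ev_X_pow (d : ℕ) : ev K (Polynomial.X ^ d) = (((Lu K) ^ (-(d : ℤ)) : (MK K)ˣ) : MK K) := by
  rw [map_pow, ev, Polynomial.coe_eval₂RingHom, Polynomial.eval₂_X, zpow_neg, zpow_natCast,
    ← inv_pow, Units.val_pow_eq_pow_val]

/-- rational series belong to the ring of the rays -/
theorem rat_mem {S : Set (ℤ × ℤ)} (f : PowerSeries (Polynomial ℤ)) {n : ℕ}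
    (F : (Fin n → ℕ) → ℕ) (P : Polynomial (Polynomial ℤ)) (l : List (Fin n → ℕ))
    (hl : ∀ a ∈ l, 0 < F a ∧ (-((∑ i, a i : ℕ) : ℤ), (F a : ℤ)) ∈ S)
    (hf : f * (l.map fun a => 1 - PowerSeries.C (Polynomial.X ^ (∑ i, a i)) *
      PowerSeries.X ^ F a).prod = ((P : Polynomial (Polynomial ℤ)) : PowerSeries (Polynomial ℤ))) :
    PowerSeries.map (ev K) f ∈ ratRing K S := by
  induction l generalizing f with
  | nil =>
    rw [List.map_nil, List.prod_nil, mul_one] at hf
    rw [hf, ← Polynomial.polynomial_map_coe]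
    exact poly_mem S _
  | cons a l ih =>
    rw [List.map_cons, List.prod_cons, ← mul_assoc] at hf
    have h1 := ih _ (fun b hb => hl b (List.mem_cons_of_mem _ hb)) hf
    rw [map_mul, map_sub, map_one, map_mul, PowerSeries.map_C, ev_X_pow, map_pow,
      PowerSeries.map_X] at h1
    obtain ⟨h2, h3⟩ := hl a List.mem_cons_self
    have h4 := geo_mul (K := K) (-((∑ i, a i : ℕ) : ℤ)) (F a : ℤ) (by exact_mod_cast h2)
    rw [Int.toNat_natCast] at h4
    have h5 := (ratRing K S).mul_mem h1 (geo_mem h3)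
    rwa [mul_assoc, h4, mul_one] at h5

theorem main (h1 : S_K0) (h2 : S_Sum) (h3 : S_RAT) (h4 : S_RootC) (h5 : S_CP1) : S_FIN := by
  classical
  intro k K _ _ _ _ n r A m c e hm hc hr he hA x _
  have hk : CharZero k := RingHom.charZero (algebraMap k ℂ)
  have hK : CharZero K := charZero_of_injective_algebraMap (algebraMap k K).injective
  have hr0 : 0 < r := by omega
  have hcC : ∀ j, algebraMap k ℂ (c j) ≠ 0 := fun j => by
    simpa using hc j
  have hcK : ∀ j, algebraMap k K (c j) ≠ 0 := fun j => by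
    simpa using hc j
  set J : Finset (Fin n) := Finset.univ.filter fun i => x i = 0 with hJ
  have hJ' : ∀ i, i ∈ J ↔ x i = 0 := fun i => by simp [hJ]
  obtain ⟨M₀, hM₀⟩ := h1 K
  set M := mapMeas M₀ (algebraMap (K0 K) (MK K)) with hM
  set Y : MK K := (((Lu K)⁻¹ : (MK K)ˣ) : MK K) with hY
  have hL : M.L * Y = 1 := L_mul hM₀
  have hsum := h2 M A m (fun j => algebraMap k K (c j)) e x J hJ' hm hcK hr0 he Y hL
  choose l P hl hP using fun τ : Finset (Fin r) => h3 A m e J τ hr0 he
  set S : Finset (ℤ × ℤ) := insert (-1, (e : ℤ)) (Finset.univ.biUnion fun τ : Finset (Fin r) =>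
    (l τ).toFinset.image fun a => (-((∑ i, a i : ℕ) : ℤ), (ford A m e a : ℤ))) with hS
  have hS1 : ((-1 : ℤ), (e : ℤ)) ∈ S := Finset.mem_insert_self _ _
  have hS2 : ∀ τ, ∀ a ∈ l τ, (-((∑ i, a i : ℕ) : ℤ), (ford A m e a : ℤ)) ∈ S := fun τ a ha =>
    Finset.mem_insert_of_mem (Finset.mem_biUnion.2 ⟨τ, Finset.mem_univ _,
      Finset.mem_image.2 ⟨a, List.mem_toFinset.2 ha, rfl⟩⟩)
  refine ⟨S, fun p hp => ?_, ?_⟩
  · rcases Finset.mem_insert.1 hp with rfl | hp
    · refine ⟨by norm_num, Int.natCast_pos.2 he, fun b hb => ?_⟩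
      have := (h4 A m (fun j => algebraMap k ℂ (c j)) e hm hcC hr he hA b hb).1
      have h6 : (((-1 : ℤ) : ℂ) / ((e : ℤ) : ℂ)) = -(1 / (e : ℂ)) := by
        push_cast
        ring
      simp only [h6]
      exact this
    · obtain ⟨τ, -, hp⟩ := Finset.mem_biUnion.1 hp
      obtain ⟨a, ha, rfl⟩ := Finset.mem_image.1 hp
      obtain ⟨ha1, ha2⟩ := hl τ a (List.mem_toFinset.1 ha)
      have hpos : 0 < ∑ i, a i := by
        by_contra hcon
        refine ha1.1 (funext fun i => ?_)
        have := Finset.sum_eq_zero_iff.1 (Nat.eq_zero_of_not_pos hcon) i (Finset.mem_univ i)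
        exact this
      refine ⟨?_, Int.natCast_pos.2 ha2, fun b hb => ?_⟩
      · simp only [Left.neg_neg_iff]
        exact_mod_cast hpos
      · have := (h4 A m (fun j => algebraMap k ℂ (c j)) e hm hcC hr he hA b hb).2 a ha1 ha2
        have h6 : (((-((∑ i, a i : ℕ) : ℤ) : ℤ) : ℂ) / ((ford A m e a : ℤ) : ℂ)) =
            -(((∑ i, a i : ℕ) : ℂ) / ford A m e a) := by
          push_cast
          ring
        simp only [h6]
        exact this
  · -- the series
    set C : Finset (Fin r) → PowerSeries (MK K) := fun τ =>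
      PowerSeries.map (ev K) (PowerSeries.mk fun N => cp A m e J τ N N) with hCdef
    have hC : ∀ τ, C τ ∈ ratRing K S := fun τ =>
      rat_mem _ (ford A m e) (P τ) (l τ) (fun a ha => ⟨(hl τ a ha).2, hS2 τ a ha⟩) (hP τ)
    have hCc : ∀ τ N, PowerSeries.coeff N (C τ) =
        Polynomial.eval₂ (Int.castRingHom (MK K)) Y (cp A m e J τ N N) := fun τ N => by
      rw [hCdef, PowerSeries.coeff_map, PowerSeries.coeff_mk]
      rfl
    set D : Finset (Fin r) → PowerSeries (MK K) := fun τ => PowerSeries.mk fun N =>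
      ∑ l ∈ Finset.Icc 1 N, if e * l ≤ N then Y ^ l * PowerSeries.coeff (N - e * l) (C τ) else 0
      with hDdef
    have hD : ∀ τ, D τ ∈ ratRing K S := by
      intro τ
      have h6 := geo_sum Y (fun N => PowerSeries.coeff N (C τ)) e he
      have h7 := geo_mul (K := K) (-1) (e : ℤ) (by exact_mod_cast he)
      rw [Int.toNat_natCast, zpow_neg_one] at h7
      have h8 : D τ = PowerSeries.C Y * PowerSeries.X ^ e * C τ * geo K (-1) (e : ℤ) := by
        have h9 : PowerSeries.mk (fun N => PowerSeries.coeff N (C τ)) = C τ := by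
          ext N
          rw [PowerSeries.coeff_mk]
        rw [h9] at h6
        rw [← h6, mul_assoc, h7, mul_one]
      rw [h8]
      exact (ratRing K S).mul_mem ((ratRing K S).mul_mem ((ratRing K S).mul_mem (C_mem _ _)
        ((ratRing K S).pow_mem (X_mem _) _)) (hC τ)) (geo_mem (p := (-1, (e : ℤ))) hS1)
    set F : PowerSeries (MK K) := ∑ τ : Finset (Fin r), PowerSeries.C (M.L ^ (free A m J τ).card) *
      (PowerSeries.C (M.χ _ (B0 A m (fun j => algebraMap k K (c j)) e x J τ)) * C τ +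
        PowerSeries.C (M.χ _ (B1 A m (fun j => algebraMap k K (c j)) e x J τ)) * D τ) with hF
    have hFmem : F ∈ ratRing K S := by
      refine (ratRing K S).sum_mem fun τ _ => (ratRing K S).mul_mem (C_mem _ _)
        ((ratRing K S).add_mem ((ratRing K S).mul_mem (C_mem _ _) (hC τ))
          ((ratRing K S).mul_mem (C_mem _ _) (hD τ)))
    have hz : zeta (sp A m (fun j => algebraMap k K (c j)) e) x =
        F - PowerSeries.C (PowerSeries.coeff 0 F) := by
      ext N
      by_cases hN : N = 0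
      · subst hN
        rw [zeta, PowerSeries.coeff_mk, if_pos rfl, map_sub, PowerSeries.coeff_C, if_pos rfl,
          sub_self]
      · rw [zeta, PowerSeries.coeff_mk, if_neg hN, map_sub, PowerSeries.coeff_C, if_neg hN,
          sub_zero]
        have h6 := hsum N (by omega)
        have h7 : algebraMap (K0 K) (MK K) (cls (Fin n × Fin (N + 1))
            (Jet (sp A m (fun j => algebraMap k K (c j)) e) x N)) *
            (((Lu K) ^ (-((n * N : ℕ) : ℤ)) : (MK K)ˣ) : MK K) =
            M.χ _ (Jet (sp A m (fun j => algebraMap k K (c j)) e) x N) * Y ^ (n * N) := by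
          rw [zpow_neg, zpow_natCast, ← inv_pow, Units.val_pow_eq_pow_val, ← hM₀]
          rfl
        rw [h7, h6, hF, map_sum]
        refine Finset.sum_congr rfl fun τ _ => ?_
        rw [PowerSeries.coeff_C_mul, map_add, PowerSeries.coeff_C_mul, PowerSeries.coeff_C_mul,
          hCc, hDdef, PowerSeries.coeff_mk, Finset.mul_sum]
        congr 2
        refine Finset.sum_congr rfl fun i _ => ?_
        split_ifs with hi
        · rw [hCc, h5 A m e J τ hr0 he N (N - e * i) (Nat.sub_le _ _), mul_assoc]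
        · rw [mul_zero]
    rw [hz]
    exact (ratRing K S).sub_mem hFmem (C_mem _ _)

end Pool.Agent.W63.MTFin
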