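import Pool.Agent.W428.MOT.EStm
import Pool.Agent.W63.MTFin

/-!
Project ME of helper428: final assembly (equivariant version).
-/

set_option autoImplicit false

namespace Pool.Agent.W63.MEFin

open Pool.Agent.W428.MOT
open Pool.Agent.W426.SM (AffInd gord ford IsRay face)

variable {k : Type} [Field k] {n : ℕ} {f : MvPolynomial (Fin n) k}

/-- the image of an additive invariant under a ring homomorphism -/
def mapEMeas {R R' : Type} [CommRing R] [CommRing R'] (M : EMeas f R) (g : R →+* R') :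
    EMeas f R' where
  χ ι _ S ρ d β := g (M.χ ι S ρ d β)
  L := g M.L
  iso S T ρ ρ' d d' β β' h1 h2 φ ψ h3 h4 h5 h6 h7 h8 h9 h10 :=
    congrArg g (M.iso S T ρ ρ' d d' β β' h1 h2 φ ψ h3 h4 h5 h6 h7 h8 h9 h10)
  add S T ρ d β h1 h2 h3 := by rw [M.add S T ρ d β h1 h2 h3, map_add]
  aff S ρ ρ' d β h := by rw [M.aff S ρ ρ' d β h, map_mul, map_pow]

theorem geo_mul (a b : ℤ) (hb : 0 < b) :
    (1 - PowerSeries.C (((LuMu f) ^ a : (MKMu f)ˣ) : MKMu f) * PowerSeries.X ^ b.toNat) *
      geoMu f a b = 1 := by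
  unfold geoMu
  refine PowerSeries.mul_invOfUnit _ 1 ?_
  have hb' : b.toNat ≠ 0 := by omega
  simp [hb']

theorem geo_mem {S : Set (ℤ × ℤ)} {p : ℤ × ℤ} (hp : p ∈ S) : geoMu f p.1 p.2 ∈ ratRingMu f S :=
  Algebra.subset_adjoin (Or.inr ⟨p, hp, rfl⟩)

theorem X_mem (S : Set (ℤ × ℤ)) : (PowerSeries.X : PowerSeries (MKMu f)) ∈ ratRingMu f S :=
  Algebra.subset_adjoin (Or.inl rfl)

theorem C_mem (S : Set (ℤ × ℤ)) (a : MKMu f) : PowerSeries.C a ∈ ratRingMu f S := by
  have := (ratRingMu f S).algebraMap_mem a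
  simpa [PowerSeries.algebraMap_apply] using this

theorem poly_mem (S : Set (ℤ × ℤ)) (P : Polynomial (MKMu f)) :
    (P : PowerSeries (MKMu f)) ∈ ratRingMu f S := by
  induction P using Polynomial.induction_on' with
  | add p q hp hq =>
    rw [Polynomial.coe_add]
    exact (ratRingMu f S).add_mem hp hq
  | monomial n a =>
    rw [← Polynomial.C_mul_X_pow_eq_monomial, Polynomial.coe_mul, Polynomial.coe_C,
      Polynomial.coe_pow, Polynomial.coe_X]
    exact (ratRingMu f S).mul_mem (C_mem S a) ((ratRingMu f S).pow_mem (X_mem S) n)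

/-- the specialisation `X ↦ 𝕃⁻¹` of the polynomials with integer coefficients -/
noncomputable def ev (f : MvPolynomial (Fin n) k) : Polynomial ℤ →+* MKMu f :=
  Polynomial.eval₂RingHom (Int.castRingHom (MKMu f)) (((LuMu f)⁻¹ : (MKMu f)ˣ) : MKMu f)

theorem ev_X_pow (d : ℕ) :
    ev f (Polynomial.X ^ d) = (((LuMu f) ^ (-(d : ℤ)) : (MKMu f)ˣ) : MKMu f) := by
  rw [map_pow, ev, Polynomial.coe_eval₂RingHom, Polynomial.eval₂_X, zpow_neg, zpow_natCast,
    ← inv_pow, Units.val_pow_eq_pow_val]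

/-- rational series belong to the ring of the rays -/
theorem rat_mem {S : Set (ℤ × ℤ)} (g : PowerSeries (Polynomial ℤ)) {n' : ℕ}
    (F : (Fin n' → ℕ) → ℕ) (P : Polynomial (Polynomial ℤ)) (l : List (Fin n' → ℕ))
    (hl : ∀ a ∈ l, 0 < F a ∧ (-((∑ i, a i : ℕ) : ℤ), (F a : ℤ)) ∈ S)
    (hf : g * (l.map fun a => 1 - PowerSeries.C (Polynomial.X ^ (∑ i, a i)) *
      PowerSeries.X ^ F a).prod = ((P : Polynomial (Polynomial ℤ)) : PowerSeries (Polynomial ℤ))) :
    PowerSeries.map (ev f) g ∈ ratRingMu f S := by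
  induction l generalizing g with
  | nil =>
    rw [List.map_nil, List.prod_nil, mul_one] at hf
    rw [hf, ← Polynomial.polynomial_map_coe]
    exact poly_mem S _
  | cons a l ih =>
    rw [List.map_cons, List.prod_cons, ← mul_assoc] at hf
    have h1 := ih _ (fun b hb => hl b (List.mem_cons_of_mem _ hb)) hf
    rw [map_mul, map_sub, map_one, map_mul, PowerSeries.map_C, ev_X_pow, map_pow,
      PowerSeries.map_X] at h1
    obtain ⟨h2, h3⟩ := hl a List.mem_cons_self
    have h4 := geo_mul (f := f) (-((∑ i, a i : ℕ) : ℤ)) (F a : ℤ) (by exact_mod_cast h2)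
    rw [Int.toNat_natCast] at h4
    have h5 := (ratRingMu f S).mul_mem h1 (geo_mem h3)
    rwa [mul_assoc, h4, mul_one] at h5

theorem main (h1 : S_EK0) (h2 : S_ESum) (h3 : S_RAT) (h4 : S_RootC) (h5 : S_CP1) : S_EFIN := by
  classical
  intro k _ _ n r A m c e hm hc hr he hA
  have hk : CharZero k := RingHom.charZero (algebraMap k ℂ)
  have hr0 : 0 < r := by omega
  have hcC : ∀ j, algebraMap k ℂ (c j) ≠ 0 := fun j => by
    simpa using hc j
  set f : MvPolynomial (Fin n) k := sp A m c e with hfdef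
  obtain ⟨M₀, hL₀, hM₀⟩ := h1 k f
  set M := mapEMeas M₀ (algebraMap (K0Mu f) (MKMu f)) with hM
  set Y : MKMu f := (((LuMu f)⁻¹ : (MKMu f)ˣ) : MKMu f) with hY
  have hL : M.L * Y = 1 := by
    have h : M.L = ((LuMu f : (MKMu f)ˣ) : MKMu f) := by
      change algebraMap (K0Mu f) (MKMu f) M₀.L = _
      rw [hL₀]
      rfl
    rw [h, Units.mul_inv]
  obtain ⟨b0, b1, hsum⟩ := h2 A m c e M hm hc hr0 he Y hL
  choose l P hl hP using fun q : Finset (Fin n) × Finset (Fin r) => h3 A m e q.1 q.2 hr0 he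
  set S : Finset (ℤ × ℤ) := insert (-1, (e : ℤ)) (Finset.univ.biUnion
    fun q : Finset (Fin n) × Finset (Fin r) =>
    (l q).toFinset.image fun a => (-((∑ i, a i : ℕ) : ℤ), (ford A m e a : ℤ))) with hS
  have hS1 : ((-1 : ℤ), (e : ℤ)) ∈ S := Finset.mem_insert_self _ _
  have hS2 : ∀ q, ∀ a ∈ l q, (-((∑ i, a i : ℕ) : ℤ), (ford A m e a : ℤ)) ∈ S := fun q a ha =>
    Finset.mem_insert_of_mem (Finset.mem_biUnion.2 ⟨q, Finset.mem_univ _,
      Finset.mem_image.2 ⟨a, List.mem_toFinset.2 ha, rfl⟩⟩)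
  refine ⟨S, fun p hp => ?_, ?_⟩
  · rcases Finset.mem_insert.1 hp with rfl | hp
    · refine ⟨by norm_num, Int.natCast_pos.2 he, fun b hb => ?_⟩
      have := (h4 A m (fun j => algebraMap k ℂ (c j)) e hm hcC hr he hA b hb).1
      have h6 : (((-1 : ℤ) : ℂ) / ((e : ℤ) : ℂ)) = -(1 / (e : ℂ)) := by
        push_cast
        ring
      simp only [h6]
      exact this
    · obtain ⟨q, -, hp⟩ := Finset.mem_biUnion.1 hp
      obtain ⟨a, ha, rfl⟩ := Finset.mem_image.1 hp
      obtain ⟨ha1, ha2⟩ := hl q a (List.mem_toFinset.1 ha)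
      have hpos : 0 < ∑ i, a i := by
        by_contra hcon
        refine ha1.1 (funext fun i => ?_)
        have := Finset.sum_eq_zero_iff.1 (Nat.eq_zero_of_not_pos hcon) i (Finset.mem_univ i)
        exact this
      refine ⟨?_, Int.natCast_pos.2 ha2, fun b hb => ?_⟩
      · simp only [Left.neg_neg_iff]
        exact_mod_cast hpos
      · have := (h4 A m (fun j => algebraMap k ℂ (c j)) e hm hcC hr he hA b hb).2 a ha1 ha2
        have h6 : (((-((∑ i, a i : ℕ) : ℤ) : ℤ) : ℂ) / ((ford A m e a : ℤ) : ℂ)) =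
            -(((∑ i, a i : ℕ) : ℂ) / ford A m e a) := by
          push_cast
          ring
        simp only [h6]
        exact this
  · set C : Finset (Fin n) × Finset (Fin r) → PowerSeries (MKMu f) := fun q =>
      PowerSeries.map (ev f) (PowerSeries.mk fun N => cp A m e q.1 q.2 N N) with hCdef
    have hC : ∀ q, C q ∈ ratRingMu f S := fun q =>
      rat_mem _ (ford A m e) (P q) (l q) (fun a ha => ⟨(hl q a ha).2, hS2 q a ha⟩) (hP q)
    have hCc : ∀ q N, PowerSeries.coeff N (C q) =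
        Polynomial.eval₂ (Int.castRingHom (MKMu f)) Y (cp A m e q.1 q.2 N N) := fun q N => by
      rw [hCdef, PowerSeries.coeff_map, PowerSeries.coeff_mk]
      rfl
    set D : Finset (Fin n) × Finset (Fin r) → PowerSeries (MKMu f) := fun q =>
      PowerSeries.mk fun N => ∑ l ∈ Finset.Icc 1 N, if e * l ≤ N then
        Y ^ l * PowerSeries.coeff (N - e * l) (C q) else 0 with hDdef
    have hD : ∀ q, D q ∈ ratRingMu f S := by
      intro q
      have h6 := Pool.Agent.W63.MTFin.geo_sum Y (fun N => PowerSeries.coeff N (C q)) e he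
      have h7 := geo_mul (f := f) (-1) (e : ℤ) (by exact_mod_cast he)
      rw [Int.toNat_natCast, zpow_neg_one] at h7
      have h8 : D q = PowerSeries.C Y * PowerSeries.X ^ e * C q * geoMu f (-1) (e : ℤ) := by
        have h9 : PowerSeries.mk (fun N => PowerSeries.coeff N (C q)) = C q := by
          ext N
          rw [PowerSeries.coeff_mk]
        rw [h9] at h6
        rw [← h6, mul_assoc, h7, mul_one]
      rw [h8]
      exact (ratRingMu f S).mul_mem ((ratRingMu f S).mul_mem ((ratRingMu f S).mul_mem (C_mem _ _)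
        ((ratRingMu f S).pow_mem (X_mem _) _)) (hC q)) (geo_mem (p := (-1, (e : ℤ))) hS1)
    set F : PowerSeries (MKMu f) := ∑ J : Finset (Fin n), ∑ τ : Finset (Fin r),
      PowerSeries.C (M.L ^ (free A m J τ).card) *
      (PowerSeries.C (b0 J τ) * C (J, τ) + PowerSeries.C (b1 J τ) * D (J, τ)) with hF
    have hFmem : F ∈ ratRingMu f S := by
      refine (ratRingMu f S).sum_mem fun J _ => (ratRingMu f S).sum_mem fun τ _ =>
        (ratRingMu f S).mul_mem (C_mem _ _)
        ((ratRingMu f S).add_mem ((ratRingMu f S).mul_mem (C_mem _ _) (hC _))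
          ((ratRingMu f S).mul_mem (C_mem _ _) (hD _)))
    have hz : zetaMu f = F - PowerSeries.C (PowerSeries.coeff 0 F) := by
      ext N
      by_cases hN : N = 0
      · subst hN
        rw [zetaMu, PowerSeries.coeff_mk, dif_neg (lt_irrefl 0), map_sub, PowerSeries.coeff_C,
          if_pos rfl, sub_self]
      · have hN' : 0 < N := Nat.pos_of_ne_zero hN
        rw [zetaMu, PowerSeries.coeff_mk, dif_pos hN', map_sub, PowerSeries.coeff_C, if_neg hN,
          sub_zero]
        have h6 := hsum N hN'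
        have h7 : algebraMap (K0Mu f) (MKMu f) (K0Mu.mk (diagVar (jetValid f N hN'))) *
            (((LuMu f) ^ (-((n * N : ℕ) : ℤ)) : (MKMu f)ˣ) : MKMu f) =
            M.χ _ (JetE f N) (jw n N) N (jb n N) * Y ^ (n * N) := by
          rw [zpow_neg, zpow_natCast, ← inv_pow, Units.val_pow_eq_pow_val, ← hM₀]
          rfl
        rw [h7, h6, hF, map_sum]
        refine Finset.sum_congr rfl fun J _ => ?_
        rw [map_sum]
        refine Finset.sum_congr rfl fun τ _ => ?_
        rw [PowerSeries.coeff_C_mul, map_add, PowerSeries.coeff_C_mul, PowerSeries.coeff_C_mul,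
          hCc, hDdef, PowerSeries.coeff_mk, Finset.mul_sum]
        congr 2
        refine Finset.sum_congr rfl fun i _ => ?_
        split_ifs with hi
        · rw [hCc, h5 A m e J τ hr0 he N (N - e * i) (Nat.sub_le _ _), mul_assoc]
        · rw [mul_zero]
    rw [hz]
    exact (ratRingMu f S).sub_mem hFmem (C_mem _ _)

end Pool.Agent.W63.MEFin
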