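import Pool.Agent.W489.Stubs

/-!
Subtask W489-T4b: on a connected complex submanifold with charts the complement of the zero set
of a holomorphic function which is not identically zero is connected, also locally.
-/

set_option autoImplicit false

open Metric Set Topology Filter

namespace Pool.Agent.W63.T4b

open H113G

/-- local connectedness of `A` near the points of a preconnected `Y` gives connectedness -/
theorem isPreconnected_of_local {X : Type*} [TopologicalSpace X] {Y A : Set X} (hAY : A ⊆ Y)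
    (hY : IsPreconnected Y)
    (hloc : ∀ p ∈ Y, ∀ N ∈ 𝓝 p, ∃ V : Set X, IsOpen V ∧ p ∈ V ∧ V ⊆ N ∧ IsConnected (A ∩ V)) :
    IsPreconnected A := by
  intro u v hu hv hAuv hAu hAv
  by_contra hcon
  rw [Set.not_nonempty_iff_eq_empty] at hcon
  set u' : Set X := {x | ∃ W : Set X, IsOpen W ∧ x ∈ W ∧ A ∩ W ⊆ u} with hu'
  set v' : Set X := {x | ∃ W : Set X, IsOpen W ∧ x ∈ W ∧ A ∩ W ⊆ v} with hv'
  have hu'o : IsOpen u' := by
    rw [isOpen_iff_forall_mem_open]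
    rintro x ⟨W, hW, hxW, hAW⟩
    exact ⟨W, fun y hy => ⟨W, hW, hy, hAW⟩, hW, hxW⟩
  have hv'o : IsOpen v' := by
    rw [isOpen_iff_forall_mem_open]
    rintro x ⟨W, hW, hxW, hAW⟩
    exact ⟨W, fun y hy => ⟨W, hW, hy, hAW⟩, hW, hxW⟩
  have hcov : Y ⊆ u' ∪ v' := by
    intro p hp
    obtain ⟨V, hVo, hpV, -, hVc⟩ := hloc p hp univ univ_mem
    have h1 : A ∩ V ⊆ u ∪ v := fun x hx => hAuv hx.1
    by_cases h2 : (A ∩ V ∩ u).Nonempty
    · by_cases h3 : (A ∩ V ∩ v).Nonempty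
      · obtain ⟨x, hx1, hx2⟩ := hVc.isPreconnected u v hu hv h1 h2 h3
        have : x ∈ A ∩ (u ∩ v) := ⟨hx1.1, hx2⟩
        rw [hcon] at this
        exact this.elim
      · left
        refine ⟨V, hVo, hpV, fun x hx => ?_⟩
        rcases h1 hx with h | h
        · exact h
        · exact (h3 ⟨x, hx, h⟩).elim
    · right
      refine ⟨V, hVo, hpV, fun x hx => ?_⟩
      rcases h1 hx with h | h
      · exact (h2 ⟨x, hx, h⟩).elim
      · exact h
  have hYu : (Y ∩ u').Nonempty := by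
    obtain ⟨x, hx, hxu⟩ := hAu
    exact ⟨x, hAY hx, u, hu, hxu, fun y hy => hy.2⟩
  have hYv : (Y ∩ v').Nonempty := by
    obtain ⟨x, hx, hxv⟩ := hAv
    exact ⟨x, hAY hx, v, hv, hxv, fun y hy => hy.2⟩
  obtain ⟨p, hpY, ⟨W₁, hW₁, hpW₁, hAW₁⟩, ⟨W₂, hW₂, hpW₂, hAW₂⟩⟩ := hY u' v' hu'o hv'o hcov hYu hYv
  obtain ⟨V, -, -, hVN, hVc⟩ := hloc p hpY (W₁ ∩ W₂)
    ((hW₁.inter hW₂).mem_nhds ⟨hpW₁, hpW₂⟩)
  obtain ⟨x, hxA, hxV⟩ := hVc.nonempty
  have : x ∈ A ∩ (u ∩ v) :=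
    ⟨hxA, hAW₁ ⟨hxA, (hVN hxV).1⟩, hAW₂ ⟨hxA, (hVN hxV).2⟩⟩
  rw [hcon] at this
  exact this.elim

theorem isConnected_punctured_ball (p : ℂ) {ε : ℝ} (hε : 0 < ε) :
    IsConnected (ball p ε \ {p}) := by
  have h : ball p ε \ {p} =
      (fun x : ℝ × ℝ => p + (x.1 : ℂ) * Complex.exp (x.2 * Complex.I)) '' (Ioo 0 ε ×ˢ univ) := by
    ext z
    constructor
    · rintro ⟨hz, hzp⟩
      refine ⟨(‖z - p‖, Complex.arg (z - p)), ⟨⟨?_, ?_⟩, mem_univ _⟩, ?_⟩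
      · exact norm_pos_iff.2 (sub_ne_zero.2 hzp)
      · simpa [dist_eq_norm] using hz
      · simp [Complex.norm_mul_exp_arg_mul_I]
    · rintro ⟨⟨r, θ⟩, ⟨⟨hr, hr'⟩, -⟩, rfl⟩
      have hr0 : 0 < r := hr
      have hn : ‖(r : ℂ) * Complex.exp (θ * Complex.I)‖ = r := by
        rw [norm_mul, Complex.norm_exp_ofReal_mul_I, Complex.norm_real, Real.norm_eq_abs,
          abs_of_pos hr0, mul_one]
      constructor
      · show dist _ _ < ε
        rw [dist_eq_norm]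
        simp only [add_sub_cancel_left]
        rw [hn]; exact hr'
      · intro h
        have h' : (r : ℂ) * Complex.exp (θ * Complex.I) = 0 := by
          have := h
          simp only [mem_singleton_iff] at this
          simpa using this
        rw [h'] at hn
        simp at hn
        exact hr0.ne hn
  rw [h]
  refine IsConnected.image ?_ _ ?_
  · exact (isConnected_Ioo hε).prod isConnected_univ
  · fun_prop

/-- one variable case -/
theorem isConnected_ne_zero_one {D : Set ℂ} (hD : IsOpen D) (hDc : IsPreconnected D) {G : ℂ → ℂ}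
    (hG : DifferentiableOn ℂ G D) {a : ℂ} (ha : a ∈ D) (hGa : G a ≠ 0) :
    IsPreconnected {t | t ∈ D ∧ G t ≠ 0} := by
  have han : AnalyticOnNhd ℂ G D := hG.analyticOnNhd hD
  refine isPreconnected_of_local (fun t ht => ht.1) hDc ?_
  intro p hp N hN
  have hev : ∀ᶠ z in 𝓝[≠] p, G z ≠ 0 := by
    rcases (han p hp).eventually_eq_zero_or_eventually_ne_zero with h | h
    · exact (hGa (han.eqOn_zero_of_preconnected_of_eventuallyEq_zero hDc hp h ha)).elim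
    · exact h
  rw [eventually_nhdsWithin_iff] at hev
  obtain ⟨ε, hε, hsub⟩ := Metric.mem_nhds_iff.1 (inter_mem (inter_mem hN (hD.mem_nhds hp)) hev)
  refine ⟨ball p ε, isOpen_ball, mem_ball_self hε, fun z hz => (hsub hz).1.1, ?_⟩
  by_cases hGp : G p = 0
  · have : {t | t ∈ D ∧ G t ≠ 0} ∩ ball p ε = ball p ε \ {p} := by
      ext z
      constructor
      · rintro ⟨⟨h1, h2⟩, h3⟩
        refine ⟨h3, fun h => ?_⟩
        rw [mem_singleton_iff] at h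
        exact h2 (h ▸ hGp)
      · rintro ⟨h1, h2⟩
        exact ⟨⟨(hsub h1).1.2, (hsub h1).2 h2⟩, h1⟩
    rw [this]
    exact isConnected_punctured_ball p hε
  · have : {t | t ∈ D ∧ G t ≠ 0} ∩ ball p ε = ball p ε := by
      ext z
      constructor
      · rintro ⟨_, h3⟩
        exact h3
      · intro h1
        refine ⟨⟨(hsub h1).1.2, ?_⟩, h1⟩
        by_cases hz : z = p
        · rw [hz]; exact hGp
        · exact (hsub h1).2 hz
    rw [this]
    exact ⟨⟨p, mem_ball_self hε⟩, isPreconnected_ball⟩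

variable {E : Type*} [NormedAddCommGroup E] [NormedSpace ℂ E]

/-- the restriction of a convex open set to a complex line -/
theorem line_props {B : Set E} (hB : IsOpen B) (hBc : Convex ℝ B) (x y : E) :
    IsOpen {t : ℂ | x + t • y ∈ B} ∧ IsPreconnected {t : ℂ | x + t • y ∈ B} := by
  constructor
  · have : Continuous (fun t : ℂ => x + t • y) := by fun_prop
    exact hB.preimage this
  · apply Convex.isPreconnected
    intro t ht s hs a b ha hb hab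
    show x + (a • t + b • s) • y ∈ B
    have h := hBc ht hs ha hb hab
    have e : x + (a • t + b • s) • y = a • (x + t • y) + b • (x + s • y) := by
      have hx : x = a • x + b • x := by rw [← add_smul, hab, one_smul]
      rw [smul_add, smul_add, add_smul]
      nth_rewrite 1 [hx]
      rw [smul_assoc, smul_assoc]
      abel
    rw [e]; exact h

/-- identity theorem along lines -/
theorem eqOn_zero_of_open {B : Set E} (hB : IsOpen B) (hBc : Convex ℝ B) {F : E → ℂ}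
    (hF : DifferentiableOn ℂ F B) {W : Set E} (hW : IsOpen W) {x : E} (hx : x ∈ B) (hxW : x ∈ W)
    (h0 : ∀ z ∈ W, z ∈ B → F z = 0) : ∀ y ∈ B, F y = 0 := by
  intro y hy
  obtain ⟨hDo, hDp⟩ := line_props hB hBc x (y - x)
  set D : Set ℂ := {t : ℂ | x + t • (y - x) ∈ B} with hD
  have hcont : Continuous (fun t : ℂ => x + t • (y - x)) := by fun_prop
  have hG : DifferentiableOn ℂ (fun t : ℂ => F (x + t • (y - x))) D := by
    refine hF.comp (f := fun t : ℂ => x + t • (y - x)) (s := D) ?_ (fun t ht => ht)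
    fun_prop
  have h0D : (0 : ℂ) ∈ D := by simp [hD, hx]
  have h1D : (1 : ℂ) ∈ D := by simp [hD, hy]
  have hev : (fun t : ℂ => F (x + t • (y - x))) =ᶠ[𝓝 0] 0 := by
    have hWn : (fun t : ℂ => x + t • (y - x)) ⁻¹' W ∈ 𝓝 (0 : ℂ) := by
      apply hcont.continuousAt.preimage_mem_nhds
      simpa using hW.mem_nhds hxW
    filter_upwards [hWn, hDo.mem_nhds h0D] with t ht ht'
    exact h0 _ ht ht'
  have := (hG.analyticOnNhd hDo).eqOn_zero_of_preconnected_of_eventuallyEq_zero hDp h0D hev h1D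
  simpa using this

/-- the complement of the zero set of a holomorphic function on a convex open set -/
theorem isConnected_ne_zero {B : Set E} (hB : IsOpen B) (hBc : Convex ℝ B) {F : E → ℂ}
    (hF : DifferentiableOn ℂ F B) (hne : ∃ x ∈ B, F x ≠ 0) :
    IsConnected {x | x ∈ B ∧ F x ≠ 0} := by
  obtain ⟨x₀, hx₀, hFx₀⟩ := hne
  refine ⟨⟨x₀, hx₀, hFx₀⟩, ?_⟩
  refine isPreconnected_of_forall x₀ ?_
  rintro y ⟨hy, hFy⟩
  obtain ⟨hDo, hDp⟩ := line_props hB hBc x₀ (y - x₀)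
  set D : Set ℂ := {t : ℂ | x₀ + t • (y - x₀) ∈ B} with hD
  have hG : DifferentiableOn ℂ (fun t : ℂ => F (x₀ + t • (y - x₀))) D := by
    refine hF.comp (f := fun t : ℂ => x₀ + t • (y - x₀)) (s := D) ?_ (fun t ht => ht)
    fun_prop
  have h0D : (0 : ℂ) ∈ D := by simp [hD, hx₀]
  have h1D : (1 : ℂ) ∈ D := by simp [hD, hy]
  have hpc := isConnected_ne_zero_one hDo hDp hG h0D (by simpa using hFx₀)
  refine ⟨(fun t : ℂ => x₀ + t • (y - x₀)) '' {t | t ∈ D ∧ F (x₀ + t • (y - x₀)) ≠ 0},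
    ?_, ?_, ?_, ?_⟩
  · rintro _ ⟨t, ⟨ht, ht'⟩, rfl⟩
    exact ⟨ht, ht'⟩
  · exact ⟨0, ⟨h0D, by simpa using hFx₀⟩, by simp⟩
  · exact ⟨1, ⟨h1D, by simpa using hFy⟩, by simp⟩
  · refine hpc.image _ ?_
    have hcont : Continuous (fun t : ℂ => x₀ + t • (y - x₀)) := by fun_prop
    exact hcont.continuousOn

/-- composition with a chart is holomorphic -/
theorem chart_comp {m n : ℕ} {Y V : Set (Fin m → ℂ)} {f : (Fin m → ℂ) → ℂ} (hf : HolOn Y f)
    {ψ : (Fin n → ℂ) → (Fin m → ℂ)} (hψ : DifferentiableOn ℂ ψ (ball 0 1))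
    (him : ψ '' ball 0 1 = Y ∩ V) : DifferentiableOn ℂ (fun x => f (ψ x)) (ball 0 1) := by
  intro x hx
  have hxY : ψ x ∈ Y ∩ V := him ▸ mem_image_of_mem ψ hx
  obtain ⟨U, hU, hxU, h, hh, heq⟩ := hf (ψ x) hxY.1
  have hpre : ψ ⁻¹' U ∈ 𝓝 x := by
    have hc : ContinuousAt ψ x := (hψ.continuousOn).continuousAt (isOpen_ball.mem_nhds hx)
    exact hc.preimage_mem_nhds (hU.mem_nhds hxU)
  have hda : DifferentiableAt ℂ (fun x => h (ψ x)) x := by
    have h1 : DifferentiableAt ℂ h (ψ x) := (hh _ hxU).differentiableAt (hU.mem_nhds hxU)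
    have h2 : DifferentiableAt ℂ ψ x := (hψ x hx).differentiableAt (isOpen_ball.mem_nhds hx)
    exact h1.comp x h2
  have heq' : (fun x => f (ψ x)) =ᶠ[𝓝 x] (fun x => h (ψ x)) := by
    filter_upwards [hpre, isOpen_ball.mem_nhds hx] with z hz hz'
    have hzY : ψ z ∈ Y ∩ V := him ▸ mem_image_of_mem ψ hz'
    exact (heq (ψ z) hzY.1 hz).symm
  exact (hda.congr_of_eventuallyEq heq').differentiableWithinAt

/-- `f` is not identically zero near any point of `Y` -/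
theorem not_locally_zero {m : ℕ} {Y : Set (Fin m → ℂ)} (hY : HasCharts Y) (hYc : IsConnected Y)
    {f : (Fin m → ℂ) → ℂ} (hf : HolOn Y f) (hne : ∃ y ∈ Y, f y ≠ 0) :
    ∀ p ∈ Y, ∀ N ∈ 𝓝 p, ∃ y ∈ Y, y ∈ N ∧ f y ≠ 0 := by
  set u₁ : Set (Fin m → ℂ) := {x | ∃ W : Set (Fin m → ℂ), IsOpen W ∧ x ∈ W ∧ ∀ y ∈ Y, y ∈ W → f y = 0}
    with hu₁
  set u₂ : Set (Fin m → ℂ) := {x | ∃ W : Set (Fin m → ℂ), IsOpen W ∧ x ∈ W ∧ ∀ y ∈ Y, y ∈ W → y ∉ u₁}
    with hu₂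
  have h1o : IsOpen u₁ := by
    rw [isOpen_iff_forall_mem_open]
    rintro x ⟨W, hW, hxW, hAW⟩
    exact ⟨W, fun y hy => ⟨W, hW, hy, hAW⟩, hW, hxW⟩
  have h2o : IsOpen u₂ := by
    rw [isOpen_iff_forall_mem_open]
    rintro x ⟨W, hW, hxW, hAW⟩
    exact ⟨W, fun y hy => ⟨W, hW, hy, hAW⟩, hW, hxW⟩
  have hcov : Y ⊆ u₁ ∪ u₂ := by
    intro p hp
    obtain ⟨n, ψ, κ, V, hVo, hpV, -, hψ, hψ0, him, hκ, hκψ⟩ := hY p hp univ univ_mem
    have hF := chart_comp hf hψ him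
    by_cases h : ∃ y ∈ Y, y ∈ V ∧ y ∈ u₁
    · left
      obtain ⟨y, hyY, hyV, W, hW, hyW, hW0⟩ := h
      obtain ⟨x, hx, rfl⟩ : y ∈ ψ '' ball 0 1 := him ▸ ⟨hyY, hyV⟩
      have hall : ∀ z ∈ ball (0 : Fin n → ℂ) 1, f (ψ z) = 0 := by
        obtain ⟨O, hO, hOeq⟩ := (_root_.continuousOn_iff'.1 hψ.continuousOn) W hW
        have hxO : x ∈ O := by
          have : x ∈ ψ ⁻¹' W ∩ ball 0 1 := ⟨hyW, hx⟩
          rw [hOeq] at this
          exact this.1
        refine eqOn_zero_of_open isOpen_ball (convex_ball _ _) hF hO hx hxO ?_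
        intro z hzO hzB
        have : z ∈ ψ ⁻¹' W ∩ ball 0 1 := by rw [hOeq]; exact ⟨hzO, hzB⟩
        have hzY : ψ z ∈ Y ∩ V := him ▸ mem_image_of_mem ψ hzB
        exact hW0 _ hzY.1 this.1
      refine ⟨V, hVo, hpV, ?_⟩
      intro y' hy' hyV'
      obtain ⟨x', hx', rfl⟩ : y' ∈ ψ '' ball 0 1 := him ▸ ⟨hy', hyV'⟩
      exact hall x' hx'
    · right
      push Not at h
      exact ⟨V, hVo, hpV, h⟩
  intro p hp N hN
  by_contra hcon
  push Not at hcon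
  obtain ⟨y, hy, hfy⟩ := hne
  have hYu₁ : (Y ∩ u₁).Nonempty := by
    obtain ⟨W, hWN, hW, hpW⟩ := _root_.mem_nhds_iff.1 hN
    exact ⟨p, hp, W, hW, hpW, fun y hy hyW => hcon y hy (hWN hyW)⟩
  have hyu₁ : y ∉ u₁ := by
    rintro ⟨W, -, hyW, hW0⟩
    exact hfy (hW0 y hy hyW)
  have hYu₂ : (Y ∩ u₂).Nonempty := by
    rcases hcov hy with h | h
    · exact (hyu₁ h).elim
    · exact ⟨y, hy, h⟩
  obtain ⟨x, hxY, hx1, ⟨W, hW, hxW, hW0⟩⟩ := hYc.isPreconnected u₁ u₂ h1o h2o hcov hYu₁ hYu₂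
  exact hW0 x hxY hxW hx1

theorem main : W489.S_T4b := by
  intro m Y hY hYc f hf hne
  have hloc : ∀ p ∈ Y, ∀ N ∈ 𝓝 p, ∃ V : Set (Fin m → ℂ), IsOpen V ∧ p ∈ V ∧ V ⊆ N ∧
      IsConnected {y | y ∈ Y ∧ y ∈ V ∧ f y ≠ 0} := by
    intro p hp N hN
    obtain ⟨n, ψ, κ, V, hVo, hpV, hVN, hψ, hψ0, him, hκ, hκψ⟩ := hY p hp N hN
    refine ⟨V, hVo, hpV, hVN, ?_⟩
    have hF := chart_comp hf hψ him
    obtain ⟨y, hyY, hyV, hfy⟩ := not_locally_zero hY hYc hf hne p hp V (hVo.mem_nhds hpV)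
    obtain ⟨x, hx, rfl⟩ : y ∈ ψ '' ball 0 1 := him ▸ ⟨hyY, hyV⟩
    have hc := isConnected_ne_zero isOpen_ball (convex_ball _ _) hF ⟨x, hx, hfy⟩
    have heq : {y | y ∈ Y ∧ y ∈ V ∧ f y ≠ 0} =
        ψ '' {x | x ∈ ball (0 : Fin n → ℂ) 1 ∧ f (ψ x) ≠ 0} := by
      ext z
      constructor
      · rintro ⟨hzY, hzV, hfz⟩
        obtain ⟨w, hw, rfl⟩ : z ∈ ψ '' ball 0 1 := him ▸ ⟨hzY, hzV⟩
        exact ⟨w, ⟨hw, hfz⟩, rfl⟩
      · rintro ⟨w, ⟨hw, hfw⟩, rfl⟩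
        have hwY : ψ w ∈ Y ∩ V := him ▸ mem_image_of_mem ψ hw
        exact ⟨hwY.1, hwY.2, hfw⟩
    rw [heq]
    exact hc.image _ (hψ.continuousOn.mono (fun x hx => hx.1))
  refine ⟨⟨?_, ?_⟩, hloc⟩
  · obtain ⟨y, hy, hfy⟩ := hne
    exact ⟨y, hy, hfy⟩
  · refine isPreconnected_of_local (fun y hy => hy.1) hYc.isPreconnected ?_
    intro p hp N hN
    obtain ⟨V, hVo, hpV, hVN, hVc⟩ := hloc p hp N hN
    refine ⟨V, hVo, hpV, hVN, ?_⟩
    have : {y | y ∈ Y ∧ f y ≠ 0} ∩ V = {y | y ∈ Y ∧ y ∈ V ∧ f y ≠ 0} := by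
      ext z
      constructor
      · rintro ⟨⟨h1, h2⟩, h3⟩; exact ⟨h1, h3, h2⟩
      · rintro ⟨h1, h2, h3⟩; exact ⟨⟨h1, h3⟩, h2⟩
    rw [this]; exact hVc

end Pool.Agent.W63.T4b
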