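import Pool.Agent.W576.Defs2

/-!
Subtask Bellows-S11: classification of self-dual lattices containing `r + 1` independent real
vectors.
-/

set_option autoImplicit false

namespace Pool.Agent.W63.S11

open Pool.Agent.W576

variable {K : Type} [Field K] [Algebra ℂ K] {κ : Type} [Field κ]

theorem ofReal_mem (p : Place K κ) (z : ℂ) : algebraMap ℂ K z ∈ p.O := p.alg z

theorem zpow_mem {p : Place K κ} {m : ℤ} (hm : 0 ≤ m) : p.t ^ m ∈ p.O := by
  obtain ⟨n, rfl⟩ := Int.eq_ofNat_of_zero_le hm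
  rw [zpow_natCast]
  exact p.O.pow_mem p.t_mem n

theorem nonneg_of_zpow_mem {p : Place K κ} {m : ℤ} (h : p.t ^ m ∈ p.O) : 0 ≤ m := by
  by_contra hcon
  push Not at hcon
  apply p.t_inv
  have h1 : p.t ^ (-m - 1) ∈ p.O := zpow_mem (by omega)
  have h2 : p.t⁻¹ = p.t ^ (-m - 1) * p.t ^ m := by
    rw [← zpow_add₀ p.t_ne]
    rw [show -m - 1 + m = -1 by ring, zpow_neg_one]
  rw [h2]
  exact p.O.mul_mem h1 h

theorem inv_mem_of_not_mem {p : Place K κ} {a : K} (ha : a ∉ p.O) :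
    a ≠ 0 ∧ a⁻¹ ∈ p.O ∧ p.t⁻¹ * a⁻¹ ∈ p.O := by
  have ha0 : a ≠ 0 := fun h => ha (h ▸ p.O.zero_mem)
  obtain ⟨m, hm1, hm2⟩ := p.zpow a ha0
  have hm : 1 ≤ m := by
    by_contra hcon
    apply ha
    have h1 : p.t ^ (-m) ∈ p.O := zpow_mem (by omega)
    have h2 : a = p.t ^ (-m) * (p.t ^ m * a) := by
      rw [← mul_assoc, ← zpow_add₀ p.t_ne]
      simp
    rw [h2]
    exact p.O.mul_mem h1 hm1
  have h3 : a⁻¹ = p.t ^ m * (p.t ^ m * a)⁻¹ := by
    rw [mul_inv, ← mul_assoc, mul_inv_cancel₀ (zpow_ne_zero _ p.t_ne), one_mul]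
  refine ⟨ha0, ?_, ?_⟩
  · rw [h3]
    exact p.O.mul_mem (zpow_mem (by omega)) hm2
  · have h4 : p.t⁻¹ * a⁻¹ = p.t ^ (m - 1) * (p.t ^ m * a)⁻¹ := by
      rw [h3, ← mul_assoc]
      congr 1
      rw [← zpow_neg_one, ← zpow_add₀ p.t_ne]
      congr 1
      ring
    rw [h4]
    exact p.O.mul_mem (zpow_mem (by omega)) hm2

/-- if `a + b` and `a b` are integral so is `a` -/
theorem mem_of_add_mul {p : Place K κ} {a b : K} (h1 : a + b ∈ p.O) (h2 : a * b ∈ p.O) :
    a ∈ p.O := by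
  by_contra ha
  have hb : b ∉ p.O := by
    intro hb
    apply ha
    have : a = (a + b) - b := by ring
    rw [this]
    exact p.O.sub_mem h1 hb
  obtain ⟨ha0, -, ha2⟩ := inv_mem_of_not_mem ha
  obtain ⟨hb0, hb1, -⟩ := inv_mem_of_not_mem hb
  apply p.t_inv
  have : p.t⁻¹ = (a * b) * (p.t⁻¹ * a⁻¹) * b⁻¹ := by
    field_simp
  rw [this]
  exact p.O.mul_mem (p.O.mul_mem h2 ha2) hb1

theorem half_mem {p : Place K κ} {a : K} (h : 2 * a ∈ p.O) : a ∈ p.O := by
  have h1 : a = algebraMap ℂ K (1 / 2) * (2 * a) := by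
    rw [← mul_assoc]
    have : algebraMap ℂ K (1 / 2) * 2 = 1 := by
      have h2 : (2 : K) = algebraMap ℂ K 2 := (map_ofNat (algebraMap ℂ K) 2).symm
      rw [h2, ← map_mul]
      norm_num
    rw [this, one_mul]
  rw [h1]
  exact p.O.mul_mem (p.alg _) h

theorem eta_mem (p : Place K κ) {d : ℕ} (i : Fin d) : (eta i : K) ∈ p.O := by
  unfold eta
  split_ifs
  · exact p.O.neg_mem p.O.one_mem
  · exact p.O.one_mem

theorem eta_sq {R : Type*} [CommRing R] {d : ℕ} (i : Fin d) : (eta i : R) * eta i = 1 := by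
  unfold eta
  split_ifs <;> simp

/-- the vectors of the hyperbolic plane -/
def vp {r : ℕ} (a b : K) : SI r → K := Sum.elim (Sum.elim (fun _ => 0) (fun _ => a)) (fun _ => b)

omit [Algebra ℂ K] in
theorem sform_vp {r : ℕ} (a b : K) (z : SI r → K) :
    sform (vp a b) z = 2 * (a * z (.inr ()) + b * z (.inl (.inr ()))) := by
  simp [sform, vp]

theorem lattice_class {K : Type} [Field K] [Algebra ℂ K] {κ : Type} [Field κ] (p : Place K κ)
    {r : ℕ} (L : Set (SI r → K)) (hSD : SelfDual p L) (hA : Absorb p L)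
    (x : Fin (r+1) → Fin (r+1) → ℝ) (hx : (Matrix.of x).det ≠ 0) (hL : ∀ i, emb (x i) ∈ L) :
    ∃ m : ℤ, ∀ y, y ∈ L ↔ p.L m y := by
  -- coordinates are integral
  have hcoord : ∀ z ∈ L, ∀ i, z (.inl (.inl i)) ∈ p.O := by
    intro z hz i
    have h1 : ∀ j, ∑ l, algebraMap ℂ K (x j l : ℂ) * (eta l * z (.inl (.inl l))) ∈ p.O := by
      intro j
      have h2 := (hSD z).1 hz _ (hL j)
      have h3 : sform z (emb (x j)) =
          ∑ l, algebraMap ℂ K (x j l : ℂ) * (eta l * z (.inl (.inl l))) := by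
        simp only [sform, emb, Sum.elim_inl, Sum.elim_inr, mul_zero, add_zero]
        refine Finset.sum_congr rfl fun l _ => ?_
        ring
      rwa [h3] at h2
    have h4 : (eta i : K) * z (.inl (.inl i)) =
        ∑ j, algebraMap ℂ K (((Matrix.of x)⁻¹ i j : ℝ) : ℂ) *
          ∑ l, algebraMap ℂ K (x j l : ℂ) * (eta l * z (.inl (.inl l))) := by
      simp_rw [Finset.mul_sum]
      rw [Finset.sum_comm]
      have h5 : ∀ l, ∑ j, algebraMap ℂ K (((Matrix.of x)⁻¹ i j : ℝ) : ℂ) *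
          (algebraMap ℂ K (x j l : ℂ) * (eta l * z (.inl (.inl l)))) =
          algebraMap ℂ K (((1 : Matrix (Fin (r+1)) (Fin (r+1)) ℝ) i l : ℝ) : ℂ) *
            (eta l * z (.inl (.inl l))) := by
        intro l
        rw [← Matrix.nonsing_inv_mul (Matrix.of x) (isUnit_iff_ne_zero.2 hx), Matrix.mul_apply]
        rw [Complex.ofReal_sum, map_sum, Finset.sum_mul]
        refine Finset.sum_congr rfl fun j _ => ?_
        rw [Complex.ofReal_mul, map_mul, Matrix.of_apply]
        ring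
      simp_rw [h5]
      rw [Finset.sum_eq_single i]
      · simp
      · intro l _ hl
        rw [Matrix.one_apply_ne (Ne.symm hl)]
        simp
      · intro h; exact (h (Finset.mem_univ i)).elim
    have h6 : (eta i : K) * z (.inl (.inl i)) ∈ p.O := by
      rw [h4]
      exact p.O.sum_mem fun j _ => p.O.mul_mem (p.alg _) (h1 j)
    have h7 : z (.inl (.inl i)) = (eta i : K) * ((eta i : K) * z (.inl (.inl i))) := by
      rw [← mul_assoc, eta_sq, one_mul]
    rw [h7]
    exact p.O.mul_mem (eta_mem p i) h6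
  -- the euclidean part of the form is integral
  have hsum : ∀ y : SI r → K, (∀ i, y (.inl (.inl i)) ∈ p.O) → ∀ z ∈ L,
      (∑ i : Fin (r + 1), eta i * (y (.inl (.inl i)) * z (.inl (.inl i))) : K) ∈ p.O := by
    intro y hy z hz
    exact p.O.sum_mem fun i _ => p.O.mul_mem (eta_mem p i) (p.O.mul_mem (hy i) (hcoord z hz i))
  have hmix : ∀ y ∈ L, ∀ z ∈ L,
      y (.inl (.inr ())) * z (.inr ()) + y (.inr ()) * z (.inl (.inr ())) ∈ p.O := by
    intro y hy z hz
    apply half_mem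
    have h1 := (hSD y).1 hy z hz
    have h2 := hsum y (hcoord y hy) z hz
    have h3 := p.O.sub_mem h1 h2
    simpa [sform] using h3
  have hprod : ∀ y ∈ L, ∀ z ∈ L, y (.inl (.inr ())) * z (.inr ()) ∈ p.O := by
    intro y hy z hz
    have hself : ∀ y ∈ L, y (.inl (.inr ())) * y (.inr ()) ∈ p.O := by
      intro y hy
      apply half_mem
      have := hmix y hy y hy
      have h1 : 2 * (y (.inl (.inr ())) * y (.inr ())) =
          y (.inl (.inr ())) * y (.inr ()) + y (.inr ()) * y (.inl (.inr ())) := by ring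
      rw [h1]; exact this
    refine mem_of_add_mul (hmix y hy z hz) ?_
    have h1 : y (.inl (.inr ())) * z (.inr ()) * (y (.inr ()) * z (.inl (.inr ()))) =
        (y (.inl (.inr ())) * y (.inr ())) * (z (.inl (.inr ())) * z (.inr ())) := by ring
    rw [h1]
    exact p.O.mul_mem (hself y hy) (hself z hz)
  -- membership of vectors `vp a 0`
  have hvp : ∀ a : K, vp a 0 ∈ L ↔ ∀ z ∈ L, a * z (.inr ()) ∈ p.O := by
    intro a
    rw [hSD]
    refine forall₂_congr fun z hz => ?_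
    rw [sform_vp, zero_mul, add_zero]
    constructor
    · exact half_mem
    · intro h
      have h2 : (2 : K) ∈ p.O := by
        have := p.alg 2
        rwa [map_ofNat] at this
      exact p.O.mul_mem h2 h
  obtain ⟨b, hb⟩ := hA (vp 0 1)
  have hb' : (p.t ^ b • (vp 0 1 : SI r → K)) (.inr ()) = p.t ^ b := by simp [vp]
  obtain ⟨m₁, hm₁, hmin⟩ := Int.exists_least_of_bdd (P := fun m : ℤ => vp (p.t ^ m) 0 ∈ L)
    ⟨-(b : ℤ), fun m hm => by
      have h1 := (hvp _).1 hm _ hb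
      rw [hb', ← zpow_natCast, ← zpow_add₀ p.t_ne] at h1
      have := nonneg_of_zpow_mem h1
      omega⟩
    (by
      obtain ⟨a, ha⟩ := hA (vp 1 0)
      refine ⟨(a : ℤ), ?_⟩
      have h1 : (p.t ^ a • (vp 1 0 : SI r → K)) = vp (p.t ^ (a : ℤ)) 0 := by
        funext i
        rcases i with (i | i) | i <;> simp [vp]
      rw [← h1]; exact ha)
  have hxi : ∀ y ∈ L, p.t ^ (-m₁) * y (.inl (.inr ())) ∈ p.O := by
    intro y hy
    by_cases h0 : y (.inl (.inr ())) = 0
    · rw [h0, mul_zero]; exact p.O.zero_mem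
    · obtain ⟨k, hk1, hk2⟩ := p.zpow _ h0
      have h1 : vp (p.t ^ (-k)) 0 ∈ L := by
        rw [hvp]
        intro z hz
        have h2 : p.t ^ (-k) * z (.inr ()) =
            (p.t ^ k * y (.inl (.inr ())))⁻¹ * (y (.inl (.inr ())) * z (.inr ())) := by
          rw [mul_inv, zpow_neg]
          field_simp
        rw [h2]
        exact p.O.mul_mem hk2 (hprod y hy z hz)
      have h2 := hmin _ h1
      have h3 : p.t ^ (-m₁) * y (.inl (.inr ())) =
          p.t ^ (-m₁ - k) * (p.t ^ k * y (.inl (.inr ()))) := by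
        rw [← mul_assoc, ← zpow_add₀ p.t_ne]
        congr 2
        ring
      rw [h3]
      exact p.O.mul_mem (zpow_mem (by omega)) hk1
  have hzeta : ∀ y ∈ L, p.t ^ m₁ * y (.inr ()) ∈ p.O := fun y hy => (hvp _).1 hm₁ y hy
  refine ⟨-m₁, fun y => ⟨fun hy => ⟨hcoord y hy, hxi y hy, ?_⟩, ?_⟩⟩
  · rw [neg_neg]; exact hzeta y hy
  · rintro ⟨h1, h2, h3⟩
    rw [neg_neg] at h3
    rw [hSD]
    intro z hz
    have e1 : y (.inl (.inr ())) * z (.inr ()) =
        (p.t ^ (-m₁) * y (.inl (.inr ()))) * (p.t ^ m₁ * z (.inr ())) := by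
      rw [zpow_neg]
      have := zpow_ne_zero m₁ p.t_ne
      field_simp
    have e2 : y (.inr ()) * z (.inl (.inr ())) =
        (p.t ^ m₁ * y (.inr ())) * (p.t ^ (-m₁) * z (.inl (.inr ()))) := by
      rw [zpow_neg]
      have := zpow_ne_zero m₁ p.t_ne
      field_simp
    have h4 : (2 : K) ∈ p.O := by
      have := p.alg 2
      rwa [map_ofNat] at this
    unfold sform
    refine p.O.add_mem (hsum y h1 z hz) (p.O.mul_mem h4 (p.O.add_mem ?_ ?_))
    · rw [e1]; exact p.O.mul_mem h2 (hzeta z hz)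
    · rw [e2]; exact p.O.mul_mem h3 (hxi z hz)

end Pool.Agent.W63.S11
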