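import Pool.Agent.W63.LVF.DisjD
import Pool.Agent.W505.LVF.LVFnull
import Pool.Agent.W505.LVF.LVFarea
import Pool.Agent.W505.LVF.LVFdens

/-!
S_disj of helper674's project on MP_2c180d_gt, without hypotheses.
-/

namespace Pool.Agent.W63.LVFdisj

theorem disj : Pool.Agent.W674.LVF.S_disj :=
  main Pool.Agent.W505.LVF.Dens.main Pool.Agent.W505.LVF.Null.main Pool.Agent.W505.LVF.Area.main

end Pool.Agent.W63.LVFdisj
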