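import Pool.Agent.W257.CStm

open Polynomial Finset

namespace Pool.Agent.W63.SPrime

open Pool.Agent.W257 Pool.Agent.H322R2

theorem gal_data {K : Type} [Field K] (p : K[X]) (m : ℕ) (hm : 1 ≤ m) (hp : p.Monic)
    (hdeg : p.natDegree = m) (hcard : Nat.card p.Gal = m.factorial) :
    ∃ φ : Fin m → p.SplittingField, Function.Injective φ ∧
      p.map (algebraMap K p.SplittingField) = ∏ i, (X - C (φ i)) ∧
      ∀ π : Equiv.Perm (Fin m), ∃ g : p.SplittingField ≃ₐ[K] p.SplittingField,
        ∀ i, g (φ i) = φ (π i) := by
  classical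
  set E := p.SplittingField with hE
  have hs : (p.map (algebraMap K E)).Splits := SplittingField.splits p
  have hmon : (p.map (algebraMap K E)).Monic := hp.map _
  have hnd : (p.map (algebraMap K E)).natDegree = m := by
    rw [natDegree_map, hdeg]
  have hcr : (p.map (algebraMap K E)).roots.card = m := by
    rw [← hnd]
    exact (splits_iff_card_roots.1 hs)
  obtain ⟨l, hl⟩ : ∃ l : List E, (l : Multiset E) = (p.map (algebraMap K E)).roots :=
    Quot.exists_rep _
  have hlen : l.length = m := by
    rw [← hl] at hcr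
    simpa using hcr
  have hprod : p.map (algebraMap K E) = (l.map fun a => X - C a).prod := by
    have h1 := hs.eq_prod_roots_of_monic hmon
    rw [← hl] at h1
    simpa using h1
  -- number of distinct roots
  have hroot : m ≤ (p.rootSet E).ncard := by
    have : Fact ((p.map (algebraMap K E)).Splits) := ⟨hs⟩
    have h1 := Nat.card_le_card_of_injective _ (Gal.galActionHom_injective p E)
    rw [hcard, Nat.card_perm] at h1
    by_contra hcon
    push Not at hcon
    have hpos : 0 < (p.rootSet E).ncard := by
      rw [Set.ncard_pos (rootSet_finite p E)]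
      have hne : l ≠ [] := by
        intro h
        rw [h] at hlen
        simp at hlen
        omega
      obtain ⟨a, ha⟩ := List.exists_mem_of_ne_nil l hne
      refine ⟨a, ?_⟩
      rw [mem_rootSet']
      have h2 : a ∈ (p.map (algebraMap K E)).roots := by rw [← hl]; exact ha
      rw [mem_roots hmon.ne_zero] at h2
      refine ⟨hmon.ne_zero, ?_⟩
      rwa [IsRoot.def, eval_map_algebraMap] at h2
    have h2 := (Nat.factorial_lt hpos).2 hcon
    have h3 : Nat.card (p.rootSet E) = (p.rootSet E).ncard := rfl
    rw [h3] at h1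
    omega
  have hnodup : l.Nodup := by
    have h1 : (p.rootSet E) = (l.toFinset : Set E) := by
      rw [rootSet_def, aroots_def, ← hl]
      rfl
    rw [h1, Set.ncard_coe_finset, List.card_toFinset] at hroot
    have h2 : l.dedup = l := by
      apply (List.dedup_sublist l).eq_of_length_le
      omega
    exact List.dedup_eq_self.1 h2
  subst hlen
  refine ⟨l.get, List.nodup_iff_injective_get.1 hnodup, ?_, ?_⟩
  · rw [hprod]
    conv_lhs => rw [← List.ofFn_get l, List.map_ofFn, List.prod_ofFn]
    rfl
  -- realise the permutations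
  have hinj : Function.Injective l.get := List.nodup_iff_injective_get.1 hnodup
  have hmem : ∀ a : E, aeval a p = 0 ↔ ∃ i, l.get i = a := by
    intro a
    rw [← eval_map_algebraMap]
    have h2 : a ∈ (p.map (algebraMap K E)).roots ↔ a ∈ l := by rw [← hl]; rfl
    rw [mem_roots hmon.ne_zero, IsRoot.def] at h2
    rw [h2, List.mem_iff_get]
  have hg : ∀ g : p.Gal, ∃ π : Fin l.length → Fin l.length, ∀ i, l.get (π i) = g (l.get i) := by
    intro g
    have : ∀ i, ∃ j, l.get j = g (l.get i) := by
      intro i
      rw [← hmem]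
      have h3 := (hmem (l.get i)).2 ⟨i, rfl⟩
      have h4 : aeval (g (l.get i)) p = g (aeval (l.get i) p) := aeval_algHom_apply g.toAlgHom _ _
      rw [h4, h3, map_zero]
    choose π hπ using this
    exact ⟨π, hπ⟩
  choose P hP using hg
  have hPinj : ∀ g, Function.Injective (P g) := by
    intro g i j hij
    have h3 := hP g i
    rw [hij, hP g j] at h3
    exact hinj (g.injective h3).symm
  let Q : p.Gal → Equiv.Perm (Fin l.length) := fun g =>
    Equiv.ofBijective (P g) (Finite.injective_iff_bijective.1 (hPinj g))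
  have hQinj : Function.Injective Q := by
    intro g h hgh
    have h1 : ∀ i, P g i = P h i := fun i => congrArg (fun e : Equiv.Perm (Fin l.length) => e i) hgh
    have h2 : ∀ a ∈ p.rootSet E, g a = h a := by
      intro a ha
      rw [mem_rootSet'] at ha
      obtain ⟨i, rfl⟩ := (hmem a).1 ha.2
      rw [← hP g i, ← hP h i, h1 i]
    have h3 : (g : p.Gal).toAlgHom = (h : p.Gal).toAlgHom :=
      AlgHom.ext_of_adjoin_eq_top (SplittingField.adjoin_rootSet p) h2
    exact AlgEquiv.ext fun x => congrArg (fun e : E →ₐ[K] E => e x) h3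
  have hfin : Finite p.Gal := Nat.finite_of_card_ne_zero (by rw [hcard]; exact (Nat.factorial_pos _).ne')
  have hQb : Function.Bijective Q := by
    have := Fintype.ofFinite p.Gal
    rw [Fintype.bijective_iff_injective_and_card]
    refine ⟨hQinj, ?_⟩
    rw [← Nat.card_eq_fintype_card, hcard, Fintype.card_perm, Fintype.card_fin]
  intro π
  obtain ⟨g, hg⟩ := hQb.2 π
  refine ⟨g, fun i => ?_⟩
  rw [← hg]
  exact (hP g i).symm

theorem comp_evf {S T : Type*} [CommRing S] [CommRing T] (φ : S →+* T) (x : S) :
    φ.comp (evf x) = evf (φ x) := by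
  ext p
  · simp
  · simp

theorem main : S_prime := by
  intro m f F a β hm hf hfdeg hβ hfa hres hcard
  classical
  obtain ⟨hF, hFdeg, hres⟩ := hres
  set K := FractionRing ℂ[X] with hK
  set t : K := algebraMap ℂ[X] K X with ht
  set p : K[X] := f.map (evf t) with hp
  have hpm : p.Monic := hf.map _
  have hpd : p.natDegree = m := by rw [hp, hf.natDegree_map, hfdeg]
  obtain ⟨φ, hφ, hpφ, hgal⟩ := gal_data p m hm hpm hpd hcard
  let j : ℝ →+* K := ((algebraMap ℂ[X] K).comp (C : ℂ →+* ℂ[X])).comp Complex.ofRealHom
  let ι : ℝ →+* p.SplittingField := (algebraMap K p.SplittingField).comp j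
  have hι : Function.Injective ι := ι.injective
  have hFm : F.map (evf (algebraMap K p.SplittingField t))
      = ∏ σ : Equiv.Perm (Fin m), (X - C (∑ i, ι (β i) * φ (σ i))) := by
    apply hres p.SplittingField (algebraMap K p.SplittingField t) (fun i => ι (β i)) φ
    · have h1 := congrArg (Polynomial.map ι) hfa
      rw [Polynomial.map_map, Polynomial.map_prod] at h1
      simp only [Polynomial.map_sub, map_X, map_C] at h1
      rw [← h1]
      congr 1
      exact RingHom.ext_int _ _
    · rw [← hpφ, hp, Polynomial.map_map, comp_evf]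
  set Ft : K[X] := F.map (evf t) with hFt
  have hFtE : Ft.map (algebraMap K p.SplittingField) = ∏ σ : Equiv.Perm (Fin m), (X - C (∑ i, ι (β i) * φ (σ i))) := by
    rw [← hFm, hFt, Polynomial.map_map, comp_evf]
  have hFtm : Ft.Monic := hF.map _
  have hFtd : Ft.natDegree = m.factorial := by rw [hFt, hF.natDegree_map, hFdeg]
  let y : Equiv.Perm (Fin m) → p.SplittingField := fun σ => ∑ i, ι (β i) * φ (σ i)
  have hy : ∀ σ, y σ = ∑ i, ι (β i) * φ (σ i) := fun σ => rfl
  -- action of the automorphisms
  have hact : ∀ π σ : Equiv.Perm (Fin m), ∀ g : p.SplittingField ≃ₐ[K] p.SplittingField, (∀ i, g (φ i) = φ (π i)) →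
      g (y σ) = y (π * σ) := by
    intro π σ g hg
    rw [hy, hy, map_sum]
    refine Finset.sum_congr rfl fun i _ => ?_
    rw [map_mul, hg]
    congr 1
    exact g.commutes (j (β i))
  have hyinj : Function.Injective y := by
    intro σ τ hst
    have h1 : ∀ π : Equiv.Perm (Fin m), ∑ k, (ι (β (σ⁻¹ k)) - ι (β (τ⁻¹ k))) * φ (π k) = 0 := by
      intro π
      obtain ⟨g, hg⟩ := hgal π
      have h2 : y (π * σ) = y (π * τ) := by
        rw [← hact π σ g hg, ← hact π τ g hg, hst]
      rw [hy, hy] at h2
      simp only [sub_mul, Finset.sum_sub_distrib]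
      rw [sub_eq_zero]
      have h3 : ∀ ρ : Equiv.Perm (Fin m), ∑ k, ι (β (ρ⁻¹ k)) * φ (π k)
          = ∑ i, ι (β i) * φ ((π * ρ) i) := by
        intro ρ
        rw [← Equiv.sum_comp ρ (fun k => ι (β (ρ⁻¹ k)) * φ (π k))]
        refine Finset.sum_congr rfl fun i _ => ?_
        simp
      rw [h3, h3, h2]
    set c : Fin m → p.SplittingField := fun k => ι (β (σ⁻¹ k)) - ι (β (τ⁻¹ k)) with hc
    have h4 : ∀ k l : Fin m, c k = c l := by
      intro k l
      by_cases hkl : k = l
      · rw [hkl]
      have h5 := h1 1
      have h6 := h1 (Equiv.swap k l)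
      have h7 : ∑ i, c i * (φ i - φ (Equiv.swap k l i)) = 0 := by
        have : ∑ i, c i * (φ i - φ (Equiv.swap k l i))
          = ∑ i, c i * φ ((1 : Equiv.Perm (Fin m)) i) - ∑ i, c i * φ (Equiv.swap k l i) := by
          rw [← Finset.sum_sub_distrib]
          refine Finset.sum_congr rfl fun i _ => ?_
          rw [Equiv.Perm.one_apply]; ring
        rw [this]
        change ∑ i, c i * φ ((1 : Equiv.Perm (Fin m)) i) = 0 at h5
        change ∑ i, c i * φ (Equiv.swap k l i) = 0 at h6
        rw [h5, h6, sub_zero]
      rw [Finset.sum_eq_add k l hkl] at h7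
      · rw [Equiv.swap_apply_left, Equiv.swap_apply_right] at h7
        have h8 : (c k - c l) * (φ k - φ l) = 0 := by linear_combination h7
        rcases mul_eq_zero.1 h8 with h9 | h9
        · exact sub_eq_zero.1 h9
        · exact absurd (hφ (sub_eq_zero.1 h9)) hkl
      · intro i _ hi
        rw [Equiv.swap_apply_of_ne_of_ne hi.1 hi.2]; ring
      · intro h; exact absurd (Finset.mem_univ _) h
      · intro h; exact absurd (Finset.mem_univ _) h
    have h5 : ∑ k, c k = 0 := by
      simp only [hc]
      rw [Finset.sum_sub_distrib, Equiv.sum_comp σ⁻¹ (fun k => ι (β k)),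
        Equiv.sum_comp τ⁻¹ (fun k => ι (β k)), sub_self]
    have h6 : ∀ k, c k = 0 := by
      intro k
      have h7 : ∑ l, c l = m • c k := by
        rw [Finset.sum_congr rfl (fun l _ => h4 l k)]
        simp
      rw [h5] at h7
      have : CharZero p.SplittingField := charZero_of_injective_ringHom hι
      have h8 : (m : p.SplittingField) * c k = 0 := by rw [← nsmul_eq_mul, ← h7]
      rcases mul_eq_zero.1 h8 with h9 | h9
      · have : m = 0 := by exact_mod_cast h9
        omega
      · exact h9
    have h7 : σ⁻¹ = τ⁻¹ := by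
      ext k
      have := h6 k
      simp only [hc] at this
      exact congrArg Fin.val (hβ (hι (sub_eq_zero.1 this)))
    exact inv_injective h7
  -- minimal polynomial
  have hroot : ∀ σ, aeval (y σ) Ft = 0 := by
    intro σ
    rw [← eval_map_algebraMap, hFtE, eval_prod]
    apply Finset.prod_eq_zero (Finset.mem_univ σ)
    rw [eval_sub, eval_X, eval_C, ← hy, sub_self]
  have hint : IsIntegral K (y 1) := ⟨Ft, hFtm, by simpa [aeval_def] using hroot 1⟩
  set q := minpoly K (y 1) with hq
  have hqm : q.Monic := minpoly.monic hint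
  have hdvd : q ∣ Ft := minpoly.dvd K _ (hroot 1)
  have hqroot : ∀ σ, aeval (y σ) q = 0 := by
    intro σ
    obtain ⟨g, hg⟩ := hgal σ
    have h1 := hact σ 1 g hg
    rw [mul_one] at h1
    rw [← h1]
    have h4 : aeval (g (y 1)) q = g (aeval (y 1) q) := aeval_algHom_apply g.toAlgHom _ _
    rw [h4, minpoly.aeval, map_zero]
  have hqdeg : m.factorial ≤ q.natDegree := by
    have h1 : Finset.univ.image y ⊆ (q.aroots p.SplittingField).toFinset := by
      intro z hz
      obtain ⟨σ, _, rfl⟩ := Finset.mem_image.1 hz
      rw [Multiset.mem_toFinset, mem_aroots]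
      exact ⟨hqm.ne_zero, hqroot σ⟩
    have h2 := Finset.card_le_card h1
    rw [Finset.card_image_of_injective _ hyinj, Finset.card_univ, Fintype.card_perm,
      Fintype.card_fin] at h2
    refine h2.trans ((Multiset.toFinset_card_le _).trans ?_)
    refine (card_roots' _).trans ?_
    rw [natDegree_map]
  have hqF : q = Ft := by
    symm
    apply eq_of_monic_of_dvd_of_natDegree_le hqm hFtm hdvd
    rw [hFtd]; exact hqdeg
  have hirr : Irreducible Ft := by
    rw [← hqF]; exact minpoly.irreducible hint
  have hF' : Irreducible F := hF.irreducible_of_irreducible_map (evf t) F hirr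
  exact hF'.prime

end Pool.Agent.W63.SPrime
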